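import Pool.Agent.SSI.RtO
import Pool.Agent.NPR.TwoMid
import Pool.Agent.NPR.FlagE
import Pool.Agent.NPR.FlagS
import Pool.Agent.NPR.InitM
import Pool.Agent.NPR.InitV
import Pool.Agent.NPR.StepZ
import Pool.Agent.NPR.Fast
import Pool.Agent.TIP.GeoZ

/-!
# SSI (self-similar limits): the transfer principle, no hypothesis
-/

set_option autoImplicit false

namespace HexObs

namespace SSI

open Finset TS SDN TIW NTA TIP NPR

/-- **the transfer principle** -/
theorem rt : RT := by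
  obtain ⟨κ, hκ, C, -, hR⟩ := regZ_all
  obtain ⟨k0, b0, h1⟩ := et_of hκ (stepG hκ C) plainM twoE (flagE_of hR) (flagS_of hR)
  obtain ⟨k1, b1, h2⟩ := etL_of hκ (stepL hκ C) plainM twoE (flagE_of hR) (flagS_of hR)
  obtain ⟨k2, b2, -, -, hst⟩ := stepL hκ C
  obtain ⟨k, hk⟩ : ∃ k, k = k0 + k1 + k2 := ⟨_, rfl⟩
  obtain ⟨b, hb⟩ : ∃ b, b = b0 + b1 + b2 := ⟨_, rfl⟩
  have hU : UpR := upR_of fastN (few_of (h1 k b (by omega) (by omega)))
  refine rt_of (h2 k b (by omega) (by omega)) (fun l L hl hL u hu hul j hj => ?_) hU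
  have h3 := (hst k b l L (by omega) (by omega) hl hL u hu hul).2.2.2 j hj
  exact ⟨h3.2.1, h3.2.2.1, h3.2.2.2.1⟩

end SSI

end HexObs
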