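import Pool.Agent.SSI.Den

/-!
# SSI (self-similar limits): the density of the bad windows, the time scale r

* `Hr T r` : the number of letters of a window of the radius T on the scale r;
* `scl_r` : the box of the time scale r;
* `rf` : from the classes of words to the densities on the time scale r;
* `rfH`, `rfL`, `rfP` : the three classes.
-/

set_option autoImplicit false

namespace HexObs

namespace SSI

open Finset TS SDN TIW NTA TIP NTW NPR NPR.Fast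

open Pool.Agent.NTS.Res (saw)

open scoped ENNReal

/-- the number of letters of a window -/
noncomputable def Hr (T r : ℝ) : ℕ := ⌊2 * T * r⌋₊ + 4

/-- the scale of a number of letters -/
lemma exists_Sc {n : ℕ} (h : PW.mZ (2 ^ 0) ≤ n) : ∃ k, TIP.Sc k n := by
  classical
  have hex : ∃ j : ℕ, (n : ℝ) < PW.mZ (2 ^ j) := by
    obtain ⟨j, hj⟩ := pow_unbounded_of_one_lt (n : ℝ) (one_lt_two : (1 : ℝ) < 2)
    refine ⟨j, hj.trans_le ?_⟩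
    have h1 := mz_low 0 j
    have h2 := mz_one 0
    rw [Nat.zero_add] at h1
    have h3 : (0 : ℝ) < 2 ^ j := by positivity
    nlinarith
  obtain ⟨j, hj1, hj2⟩ : ∃ j, (n : ℝ) < PW.mZ (2 ^ j) ∧ ∀ i, i < j → ¬ (n : ℝ) < PW.mZ (2 ^ i) :=
    ⟨Nat.find hex, Nat.find_spec hex, fun i hi => Nat.find_min hex hi⟩
  rcases Nat.eq_zero_or_pos j with h0 | h0
  · subst h0
    exact absurd hj1 (not_lt.2 h)
  · refine ⟨j - 1, not_lt.1 (hj2 (j - 1) (by omega)), ?_⟩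
    rwa [show j - 1 + 1 = j by omega]

/-- **the box of the time scale r** -/
theorem scl_r {θ T : ℝ} (hθ : 0 < θ) (hθ1 : θ ≤ 1) (hT : 1 / 2 ≤ T) : ∃ C1 C2 C3 : ℝ, 0 < C1 ∧ 0 < C2 ∧ 0 < C3 ∧
    ∀ L0 c0 : ℕ, ∃ r0 cn : ℝ, 1 ≤ r0 ∧ 0 < cn ∧ ∀ r : ℝ, r0 ≤ r → ∃ L : ℕ, L0 ≤ L ∧ (Hr T r : ℝ) ≤ θ * PW.mZ (2 ^ L) ∧
      r ≤ PW.mZ (2 ^ L) ∧ PW.mZ (2 ^ L) ≤ C1 * r ∧ (2 : ℝ) ^ L ≤ C2 * r ^ (3 / 4 : ℝ) ∧ r ^ (3 / 4 : ℝ) ≤ C3 * 2 ^ L ∧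
      ∀ n : ℕ, cn * r ≤ n → ∃ k, L + c0 ≤ k ∧ TIP.Sc k n := by
  obtain ⟨Cu, hCu, hup⟩ := mup_M
  have hup' : ∀ k, PW.mZ (2 ^ (k + 1)) ≤ Cu * PW.mZ (2 ^ k) := hup
  have hCu0 : 0 < Cu := by linarith
  obtain ⟨cl, hcl, hlo⟩ := VF.mLow VF.sharpZ
  obtain ⟨cu, hcu, hupp⟩ := mup_pos
  obtain ⟨C1, hC1⟩ : ∃ C1 : ℝ, C1 = Cu * ((2 * T + 4) / θ) := ⟨_, rfl⟩
  have hC10 : 0 < C1 := by rw [hC1]; positivity
  refine ⟨C1, (C1 / cl) ^ (3 / 4 : ℝ), cu ^ (3 / 4 : ℝ), hC10, by positivity, by positivity, fun L0 c0 => ?_⟩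
  refine ⟨max 1 (PW.mZ (2 ^ (L0 + 1))), max (Cu ^ c0 * C1) (PW.mZ (2 ^ 0)), le_max_left _ _,
    lt_of_lt_of_le (mz_pos 0) (le_max_right _ _), fun r hr => ?_⟩
  have hr1 : 1 ≤ r := (le_max_left _ _).trans hr
  have hr0 : 0 < r := by linarith
  have hT0 : 0 < T := by linarith
  have hH1 : r ≤ (Hr T r : ℝ) := by
    unfold Hr
    push_cast
    have h1 := Nat.lt_floor_add_one (2 * T * r)
    nlinarith
  have hH2 : (Hr T r : ℝ) ≤ (2 * T + 4) * r := by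
    unfold Hr
    push_cast
    have h1 := Nat.floor_le (show 0 ≤ 2 * T * r by positivity)
    nlinarith
  classical
  have hex : ∃ L : ℕ, (Hr T r : ℝ) ≤ θ * PW.mZ (2 ^ L) := by
    obtain ⟨j, hj⟩ := pow_unbounded_of_one_lt ((Hr T r : ℝ) / θ) (one_lt_two : (1 : ℝ) < 2)
    refine ⟨j, ?_⟩
    have h1 := mz_low 0 j
    have h2 := mz_one 0
    rw [Nat.zero_add] at h1
    have h3 : (0 : ℝ) < 2 ^ j := by positivity
    have h4 : (2 : ℝ) ^ j ≤ PW.mZ (2 ^ j) := by nlinarith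
    rw [div_lt_iff₀ hθ] at hj
    have h5 := mul_le_mul_of_nonneg_left h4 hθ.le
    linarith
  obtain ⟨L, hL1, hL2⟩ : ∃ L, (Hr T r : ℝ) ≤ θ * PW.mZ (2 ^ L) ∧ ∀ i, i < L → ¬ (Hr T r : ℝ) ≤ θ * PW.mZ (2 ^ i) :=
    ⟨Nat.find hex, Nat.find_spec hex, fun i hi => Nat.find_min hex hi⟩
  have hmL : 0 < PW.mZ (2 ^ L) := mz_pos L
  have hrL : r ≤ PW.mZ (2 ^ L) := by
    have h1 : θ * PW.mZ (2 ^ L) ≤ 1 * PW.mZ (2 ^ L) := mul_le_mul_of_nonneg_right hθ1 hmL.le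
    linarith
  have hL0 : L0 + 1 ≤ L := by
    by_contra hcon
    push Not at hcon
    have h1 : PW.mZ (2 ^ (L0 + 1)) ≤ r := (le_max_right _ _).trans hr
    have h2 := mz_low L 1
    have h3 : PW.mZ (2 ^ (L + 1)) ≤ PW.mZ (2 ^ (L0 + 1)) := mz_mono (by omega)
    rw [pow_one] at h2
    linarith
  have hm1 : PW.mZ (2 ^ L) ≤ C1 * r := by
    have h1 := hL2 (L - 1) (by omega)
    rw [not_le] at h1
    have h2 := hup' (L - 1)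
    rw [show L - 1 + 1 = L by omega] at h2
    have h3 : PW.mZ (2 ^ (L - 1)) ≤ (2 * T + 4) / θ * r := by
      rw [div_mul_eq_mul_div, le_div_iff₀ hθ]
      linarith
    calc PW.mZ (2 ^ L) ≤ Cu * PW.mZ (2 ^ (L - 1)) := h2
      _ ≤ Cu * ((2 * T + 4) / θ * r) := mul_le_mul_of_nonneg_left h3 hCu0.le
      _ = C1 * r := by rw [hC1]; ring
  have hpow : ((2 : ℝ) ^ (4 / 3 * (L : ℝ))) ^ (3 / 4 : ℝ) = 2 ^ L := by
    rw [← Real.rpow_mul (by norm_num), ← Real.rpow_natCast]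
    congr 1
    ring
  refine ⟨L, by omega, hL1, hrL, hm1, ?_, ?_, fun n hn => ?_⟩
  · have h1 : (2 : ℝ) ^ (4 / 3 * (L : ℝ)) ≤ C1 / cl * r := by
      rw [show C1 / cl * r = C1 * r / cl by ring, le_div_iff₀ hcl]
      have := hlo L
      have h2 : cl * (2 : ℝ) ^ (4 / 3 * (L : ℝ)) ≤ PW.mZ (2 ^ L) := this
      linarith
    have h2 := Real.rpow_le_rpow (by positivity) h1 (show (0 : ℝ) ≤ 3 / 4 by norm_num)
    rwa [hpow, Real.mul_rpow (by positivity) hr0.le] at h2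
  · have h1 : r ≤ cu * (2 : ℝ) ^ (4 / 3 * (L : ℝ)) := hrL.trans (hupp L)
    have h2 := Real.rpow_le_rpow hr0.le h1 (show (0 : ℝ) ≤ 3 / 4 by norm_num)
    rwa [Real.mul_rpow hcu.le (by positivity), hpow] at h2
  · have h1 : PW.mZ (2 ^ 0) ≤ n := by
      have h2 : PW.mZ (2 ^ 0) * 1 ≤ max (Cu ^ c0 * C1) (PW.mZ (2 ^ 0)) * r :=
        mul_le_mul (le_max_right _ _) hr1 (by norm_num) (le_trans (mz_pos 0).le (le_max_right _ _))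
      linarith
    obtain ⟨k, hk⟩ := exists_Sc h1
    refine ⟨k, ?_, hk⟩
    by_contra hcon
    push Not at hcon
    have h2 := m_iter hCu hup' L c0
    have h3 : Cu ^ c0 * PW.mZ (2 ^ L) ≤ Cu ^ c0 * (C1 * r) := mul_le_mul_of_nonneg_left hm1 (by positivity)
    have h4 : Cu ^ c0 * C1 * r ≤ max (Cu ^ c0 * C1) (PW.mZ (2 ^ 0)) * r := mul_le_mul_of_nonneg_right (le_max_left _ _) hr0.le
    have h5 : PW.mZ (2 ^ (k + 1)) ≤ PW.mZ (2 ^ (L + c0)) := mz_mono (by omega)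
    have h6 := hk.2
    linarith

/-- **from the classes of words to the densities on the time scale r** -/
theorem rf (hRT : RT) {T ε : ℝ} (hT : 1 / 2 ≤ T) (hε : 0 < ε) : ∃ δ C1 C2 C3 : ℝ, 0 < δ ∧ 0 < C1 ∧ 0 < C2 ∧ 0 < C3 ∧
    ∀ (B : ℕ → (ℕ → ℕ → ℝ) → ℕ → ℕ → Prop) (B' : ℝ → (ℕ → ℕ → ℝ) → ℕ → ℕ → Prop) (L2 : ℕ), (∀ L, WP (B L)) →
    (∀ L, L2 ≤ L → gf {t | t ∈ WL (L + 16) ∧ t ∈ Fac (BQ (B L))} ≤ ENNReal.ofReal δ * FK L) →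
    (∀ (r : ℝ) (L n : ℕ) (t : List Bool) (z : ℕ), 1 ≤ r → r ≤ PW.mZ (2 ^ L) → PW.mZ (2 ^ L) ≤ C1 * r →
      (2 : ℝ) ^ L ≤ C2 * r ^ (3 / 4 : ℝ) → r ^ (3 / 4 : ℝ) ≤ C3 * 2 ^ L → z + Hr T r ≤ n →
      B' r (dS (NTF.sw n t)) z (z + Hr T r) → B L (dW t) z (z + Hr T r)) →
    ∃ r0 cn : ℝ, 1 ≤ r0 ∧ 0 < cn ∧ ∀ (r : ℝ) (n : ℕ), r0 ≤ r → cn * r ≤ n →
      ∑ s ∈ saw n, (cB (B' r) (dS s) n (Hr T r) : ℝ) ≤ ε * n * ((saw n).card : ℝ) := by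
  obtain ⟨δ, θ, c0, L0, hδ, hθ, hD⟩ := dens_s hRT hε
  obtain ⟨C1, C2, C3, hC1, hC2, hC3, hS⟩ := scl_r (θ := min θ 1) (T := T) (lt_min hθ one_pos) (min_le_right _ _) hT
  refine ⟨δ, C1, C2, C3, hδ, hC1, hC2, hC3, fun B B' L2 hB hsm hBB => ?_⟩
  obtain ⟨r0, cn, hr0, hcn, hS⟩ := hS (max L0 L2) c0
  refine ⟨r0, cn, hr0, hcn, fun r n hr hn => ?_⟩
  obtain ⟨L, hL, h1, h2, h3, h4, h5, h6⟩ := hS r hr
  obtain ⟨k, hk, hsc⟩ := h6 n hn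
  have hmL : 0 < PW.mZ (2 ^ L) := mz_pos L
  refine hD L (Hr T r) (B L) (B' r) (hB L) ((le_max_left _ _).trans hL) (h1.trans ?_) (hsm L ((le_max_right _ _).trans hL)) k n hk hsc
    fun t _ z hz hb => hBB r L n t z (hr0.trans hr) h2 h3 h4 h5 hz hb
  exact mul_le_mul_of_nonneg_right (min_le_left _ _) hmL.le

/-! ### the three classes -/

/-- the Hoelder class -/
theorem rfH (hRT : RT) {T ε α : ℝ} (hT : 1 / 2 ≤ T) (hε : 0 < ε) (hα : 0 < α) (hα2 : α < 3 / 4) : ∃ M : ℝ, 0 < M ∧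
    ∃ r0 cn : ℝ, 1 ≤ r0 ∧ 0 < cn ∧ ∀ (r : ℝ) (n : ℕ), r0 ≤ r → cn * r ≤ n →
      ∑ s ∈ saw n, (cB (HB (M * r ^ (3 / 4 : ℝ)) r α) (dS s) n (Hr T r) : ℝ) ≤ ε * n * ((saw n).card : ℝ) := by
  obtain ⟨δ, C1, C2, C3, hδ, hC1, hC2, hC3, h⟩ := rf hRT hT hε
  obtain ⟨M, L0, hM, hL⟩ := holA hα hα2 δ hδ
  refine ⟨M * C2, by positivity, h (fun L => HB (M * 2 ^ L) (PW.mZ (2 ^ L)) α)
    (fun r => HB (M * C2 * r ^ (3 / 4 : ℝ)) r α) L0 (fun L => wp_HB _ _ _) hL ?_⟩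
  rintro r L n t z hr h1 h2 h3 h4 hz ⟨i, j, q1, q2, q3, q4⟩
  refine ⟨i, j, q1, q2, q3, ?_⟩
  have hr0 : 0 < r := by linarith
  have hij : (0 : ℝ) < (j : ℝ) - i := by
    have : (i : ℝ) < j := by exact_mod_cast q2
    linarith
  refine le_trans ?_ (q4.trans (dS_le (n := n) t (by omega) (by omega)))
  have h5 : (((j : ℝ) - i) / PW.mZ (2 ^ L)) ^ α ≤ (((j : ℝ) - i) / r) ^ α :=
    Real.rpow_le_rpow (by have := mz_pos L; positivity) (div_le_div_of_nonneg_left hij.le hr0 h1) hα.le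
  have h6 : M * 2 ^ L ≤ M * C2 * r ^ (3 / 4 : ℝ) := by
    have := mul_le_mul_of_nonneg_left h3 hM.le
    linarith
  exact mul_le_mul h6 h5 (by have := mz_pos L; positivity) (by positivity)

/-- the slow class -/
theorem rfL (hRT : RT) {T ε β : ℝ} (hT : 1 / 2 ≤ T) (hε : 0 < ε) (hβ : 3 / 4 < β) : ∃ c : ℝ, 0 < c ∧
    ∃ r0 cn : ℝ, 1 ≤ r0 ∧ 0 < cn ∧ ∀ (r : ℝ) (n : ℕ), r0 ≤ r → cn * r ≤ n →
      ∑ s ∈ saw n, (cB (LB (c * r ^ (3 / 4 : ℝ)) r β) (dS s) n (Hr T r) : ℝ) ≤ ε * n * ((saw n).card : ℝ) := by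
  obtain ⟨δ, C1, C2, C3, hδ, hC1, hC2, hC3, h⟩ := rf hRT hT hε
  obtain ⟨c, hc, hL⟩ := lowA hβ δ hδ
  have hβ0 : 0 < β := by linarith
  obtain ⟨c', hc'⟩ : ∃ c' : ℝ, c' = c / (2 * C3 * C1 ^ β) := ⟨_, rfl⟩
  have hc'0 : 0 < c' := by rw [hc']; positivity
  refine ⟨c', hc'0, h (fun L => LB (c * 2 ^ L) (PW.mZ (2 ^ L)) β)
    (fun r => LB (c' * r ^ (3 / 4 : ℝ)) r β) 0 (fun L => wp_LB _ _ _) (fun L _ => hL L) ?_⟩
  rintro r L n t z hr h1 h2 h3 h4 hz ⟨i, j, q1, q2, q3, q4, q5⟩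
  have hr0 : 0 < r := by linarith
  have hmL := mz_pos L
  have hij : (0 : ℝ) < (j : ℝ) - i := by
    have : (i : ℝ) < j := by exact_mod_cast q2
    linarith
  refine ⟨i, j, q1, q2, q3, q4.trans h1, fun l l' p1 p2 p3 p4 => ?_⟩
  refine (dW_le (n := n) t (by omega) (by omega)).trans ?_
  have h5 : (((j : ℝ) - i) / r) ^ β ≤ C1 ^ β * (((j : ℝ) - i) / PW.mZ (2 ^ L)) ^ β := by
    rw [← Real.mul_rpow hC1.le (by positivity)]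
    refine Real.rpow_le_rpow (by positivity) ?_ hβ0.le
    rw [← mul_div_assoc, div_le_div_iff₀ hr0 hmL]
    have := mul_le_mul_of_nonneg_left h2 hij.le
    linarith
  calc 2 * dS (NTF.sw n t) l l' ≤ 2 * (c' * r ^ (3 / 4 : ℝ) * (((j : ℝ) - i) / r) ^ β) :=
        mul_le_mul_of_nonneg_left (q5 l l' p1 p2 p3 p4) (by norm_num)
    _ ≤ 2 * (c' * (C3 * 2 ^ L) * (C1 ^ β * (((j : ℝ) - i) / PW.mZ (2 ^ L)) ^ β)) := by gcongr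
    _ = c * 2 ^ L * (((j : ℝ) - i) / PW.mZ (2 ^ L)) ^ β := by
        rw [hc']
        field_simp

/-- the near touches -/
theorem rfP (hRT : RT) {T ε η : ℝ} (hT : 1 / 2 ≤ T) (hε : 0 < ε) (hη : 0 < η) : ∃ e : ℝ, 0 < e ∧
    ∃ r0 cn : ℝ, 1 ≤ r0 ∧ 0 < cn ∧ ∀ (r : ℝ) (n : ℕ), r0 ≤ r → cn * r ≤ n →
      ∑ s ∈ saw n, (cB (PB (η * r ^ (3 / 4 : ℝ)) (e * r ^ (3 / 4 : ℝ))) (dS s) n (Hr T r) : ℝ) ≤
        ε * n * ((saw n).card : ℝ) := by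
  obtain ⟨δ, C1, C2, C3, hδ, hC1, hC2, hC3, h⟩ := rf hRT hT hε
  obtain ⟨e, L0, he, hL⟩ := pinB (η / C2) δ (by positivity) hδ
  refine ⟨e / (2 * C3), by positivity, h (fun L => PB (η / C2 * 2 ^ L) (e * 2 ^ L))
    (fun r => PB (η * r ^ (3 / 4 : ℝ)) (e / (2 * C3) * r ^ (3 / 4 : ℝ))) L0 (fun L => wp_PB _ _) hL ?_⟩
  rintro r L n t z hr h1 h2 h3 h4 hz ⟨i, l, j, q1, q2, q3, q4, q5, q6, q7⟩
  have h5 : η / C2 * 2 ^ L ≤ η * r ^ (3 / 4 : ℝ) := by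
    rw [div_mul_eq_mul_div, div_le_iff₀ hC2]
    have := mul_le_mul_of_nonneg_left h3 hη.le
    linarith
  refine ⟨i, l, j, q1, q2, q3, q4, h5.trans (q5.trans (dS_le (n := n) t (by omega) (by omega))),
    h5.trans (q6.trans (dS_le (n := n) t (by omega) (by omega))), (dW_le (n := n) t (by omega) (by omega)).trans ?_⟩
  calc 2 * dS (NTF.sw n t) i j ≤ 2 * (e / (2 * C3) * r ^ (3 / 4 : ℝ)) := mul_le_mul_of_nonneg_left q7 (by norm_num)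
    _ ≤ 2 * (e / (2 * C3) * (C3 * 2 ^ L)) := by gcongr
    _ = e * 2 ^ L := by field_simp

end SSI

end HexObs
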