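import Pool.Agent.SSI.Good

/-!
# SSI (self-similar limits): assembly

* `tame_good` : sequences of good walks are tame;
* **`quenched`** : from the rows T1, T2, D1, D2.
* **`annealed`** : the averaged law.
-/

set_option autoImplicit false

open MeasureTheory Filter Topology
open scoped Classical

namespace Pool.Agent.SSI

open Res Pool.Agent.IW.Res

/-- the law of the windows -/
noncomputable def empP {n : ℕ} (hn : 1 ≤ n) (s : Fin n → Fin 3) : ProbabilityMeasure C(ℝ, ℂ) := ⟨emp s, emp_prob hn s⟩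

lemma exists_al {α : ℝ} (hα : α < 3 / 4) : ∃ m0 : ℕ, ∀ m, m0 ≤ m → α ≤ al m := by
  obtain ⟨m0, h⟩ := exists_nat_one_div_lt (show 0 < 1 - 4 / 3 * α by linarith)
  refine ⟨m0, fun m hm => ?_⟩
  unfold al
  have h1 : 1 / ((m : ℝ) + 2) ≤ 1 / ((m0 : ℝ) + 1) := by
    have : (m0 : ℝ) ≤ m := by exact_mod_cast hm
    exact one_div_le_one_div_of_le (by positivity) (by linarith)
  linarith

lemma exists_be {β : ℝ} (hβ : 3 / 4 < β) : ∃ m0 : ℕ, ∀ m, m0 ≤ m → be m ≤ β := by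
  obtain ⟨m0, h⟩ := exists_nat_one_div_lt (show 0 < β - 3 / 4 by linarith)
  refine ⟨m0, fun m hm => ?_⟩
  unfold be
  have h1 : 1 / ((m : ℝ) + 1) ≤ 1 / ((m0 : ℝ) + 1) := by
    have : (m0 : ℝ) ≤ m := by exact_mod_cast hm
    exact one_div_le_one_div_of_le (by positivity) (by linarith)
  linarith

lemma bh_sub {M α α' T T' h h' : ℝ} (hM : 0 < M) (hα : 0 < α) (hαα : α ≤ α') (hα' : α' < 3 / 4) (hT : 0 < T) (hTT : T ≤ T')
    (hh : 0 < h) (hhh : h' ≤ h) : BH (M * max 1 (2 * T)) α T h ⊆ BH M α' T' h' := by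
  rintro γ ⟨u, v, h1, h2, h3, h4⟩
  refine ⟨u, v, by linarith, by linarith, by linarith, lt_of_le_of_lt ?_ h4⟩
  have hvu : 0 < v - u := by linarith
  have e : (v - u) ^ α' = (v - u) ^ α * (v - u) ^ (α' - α) := by
    rw [← Real.rpow_add hvu]
    congr 1
    ring
  have h5 : (v - u) ^ (α' - α) ≤ max 1 (2 * T) := by
    rcases le_or_gt (v - u) 1 with h6 | h6
    · exact (Real.rpow_le_one hvu.le h6 (by linarith)).trans (le_max_left _ _)
    · have h7 : (v - u) ^ (α' - α) ≤ (v - u) ^ (1 : ℝ) := Real.rpow_le_rpow_of_exponent_le h6.le (by linarith)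
      rw [Real.rpow_one] at h7
      exact h7.trans (le_trans (by linarith) (le_max_right _ _))
  have h6 : 0 < (v - u) ^ α := by positivity
  rw [e]
  calc M * ((v - u) ^ α * (v - u) ^ (α' - α)) ≤ M * ((v - u) ^ α * max 1 (2 * T)) := by gcongr
    _ = _ := by ring

lemma bl_sub {c β β' T T' h h' : ℝ} (hc : 0 < c) (hββ : β' ≤ β) (hTT : T ≤ T') (hh : 0 < h) (hhh : h' ≤ h) :
    BL c β T h ⊆ BL c β' T' h' := by
  rintro γ ⟨u, v, h1, h2, h3, h4, h5⟩
  refine ⟨u, v, by linarith, by linarith, by linarith, h4, fun w w' q1 q2 q3 q4 => (h5 w w' q1 q2 q3 q4).trans_le ?_⟩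
  have hvu : 0 < v - u := by linarith
  exact mul_le_mul_of_nonneg_left (Real.rpow_le_rpow_of_exponent_ge hvu h4 hββ) hc.le

lemma bp_sub {η η' e T T' : ℝ} (hη : η' ≤ η) (hTT : T ≤ T') : BP η e T ⊆ BP η' e T' := by
  rintro γ ⟨u, w, v, h1, h2, h3, h4, h5, h6, h7⟩
  exact ⟨u, w, v, by linarith, h2, h3, by linarith, by linarith, by linarith, h7⟩

lemma win_zero (γ : C(unitInterval, ℂ)) (x r : ℝ) : win γ x r 0 = 0 := by
  show (γ (Set.projIcc 0 1 zero_le_one (x + r * 0)) - γ (Set.projIcc 0 1 zero_le_one x)) / _ = 0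
  rw [mul_zero, add_zero, sub_self, zero_div]

lemma emp_zero {n : ℕ} (hn : 1 ≤ n) (s : Fin n → Fin 3) : ∀ᵐ γ : C(ℝ, ℂ) ∂(emp s), γ 0 = 0 := by
  have hm : MeasurableSet {γ : C(ℝ, ℂ) | γ 0 = 0} := (isClosed_eq (continuous_eval_const 0) continuous_const).measurableSet
  unfold emp
  rw [ae_map_iff (cont_win hn (curve s)).measurable.aemeasurable hm]
  exact Eventually.of_forall fun p => win_zero _ _ _

lemma real_le {μ : Measure C(ℝ, ℂ)} [IsProbabilityMeasure μ] {S S' : Set C(ℝ, ℂ)} (h : S ⊆ S') {a b : ℝ} (h1 : μ.real S' ≤ a)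
    (h2 : a ≤ b) : μ S ≤ ENNReal.ofReal b := by
  refine (measure_mono h).trans ?_
  rw [← ENNReal.ofReal_toReal (measure_ne_top μ S')]
  exact ENNReal.ofReal_le_ofReal (h1.trans h2)

/-- the properties of the constants and of the good walks -/
structure GoodW (M c e : ℕ → ℝ) (G : (n : ℕ) → (Fin n → Fin 3) → Prop) : Prop where
  hM : ∀ i, 0 < M i
  hc : ∀ i, 0 < c i
  he : ∀ i, 0 < e i
  ev : ∀ i g : ℕ, ∀ᶠ n in atTop, ∀ s : Fin n → Fin 3, G n s →
      (emp s).real (BH (M i) (al i.unpair.1) (i.unpair.1 + 1) (1 / (g + 1))) ≤ (1 / 2) ^ i.unpair.2 ∧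
      (emp s).real (BL (c i) (be i.unpair.1) (i.unpair.1 + 1) (1 / (g + 1))) ≤ (1 / 2) ^ i.unpair.2 ∧
      (emp s).real (BP (1 / (i.unpair.1 + 1)) (e i) (i.unpair.1 + 1)) ≤ (1 / 2) ^ i.unpair.2

/-- **sequences of good walks are tame** -/
theorem tame_good (hD1 : EmpDil) (hD2 : EmpShf) {M c e : ℕ → ℝ} {G : (n : ℕ) → (Fin n → Fin 3) → Prop} (hG : GoodW M c e G)
    {N : ℕ → ℕ} (hN : Tendsto N atTop atTop) (hN1 : ∀ j, 1 ≤ N j) (s : (j : ℕ) → Fin (N j) → Fin 3)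
    (hs : ∀ j, G (N j) (s j)) : Tame fun j => empP (hN1 j) (s j) where
  hol := by
    intro α T ε hα hα2 hT hε
    obtain ⟨m0, hm0⟩ := exists_al hα2
    obtain ⟨m1, hm1⟩ := exists_nat_ge T
    obtain ⟨l, hl⟩ := exists_pow_lt_of_lt_one hε (show (1 / 2 : ℝ) < 1 by norm_num)
    obtain ⟨i, hi⟩ : ∃ i, i = Nat.pair (m0 + m1) l := ⟨_, rfl⟩
    have hi1 : i.unpair.1 = m0 + m1 := by rw [hi, Nat.unpair_pair]
    have hi2 : i.unpair.2 = l := by rw [hi, Nat.unpair_pair]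
    refine ⟨M i * max 1 (2 * T), by have := hG.hM i; have : (0 : ℝ) < max 1 (2 * T) := lt_of_lt_of_le one_pos (le_max_left _ _)
                                    positivity, fun h hh => ?_⟩
    obtain ⟨g, hg⟩ := exists_nat_one_div_lt hh
    filter_upwards [hN.eventually (hG.ev i g)] with j hj
    have h1 := (hj (s j) (hs j)).1
    have := emp_prob (hN1 j) (s j)
    show emp (s j) _ ≤ _
    refine real_le (bh_sub (hG.hM i) hα ?_ (al_lt _) hT ?_ hh hg.le) h1 (by rw [hi2]; exact hl.le)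
    · rw [hi1]
      exact hm0 _ (Nat.le_add_right _ _)
    · rw [hi1]
      push_cast
      have : (0 : ℝ) ≤ m0 := Nat.cast_nonneg _
      linarith
  low := by
    intro β T ε hβ hT hε
    obtain ⟨m0, hm0⟩ := exists_be hβ
    obtain ⟨m1, hm1⟩ := exists_nat_ge T
    obtain ⟨l, hl⟩ := exists_pow_lt_of_lt_one hε (show (1 / 2 : ℝ) < 1 by norm_num)
    obtain ⟨i, hi⟩ : ∃ i, i = Nat.pair (m0 + m1) l := ⟨_, rfl⟩
    have hi1 : i.unpair.1 = m0 + m1 := by rw [hi, Nat.unpair_pair]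
    have hi2 : i.unpair.2 = l := by rw [hi, Nat.unpair_pair]
    refine ⟨c i, hG.hc i, fun h hh => ?_⟩
    obtain ⟨g, hg⟩ := exists_nat_one_div_lt hh
    filter_upwards [hN.eventually (hG.ev i g)] with j hj
    have h1 := (hj (s j) (hs j)).2.1
    have := emp_prob (hN1 j) (s j)
    show emp (s j) _ ≤ _
    refine real_le (bl_sub (hG.hc i) ?_ ?_ hh hg.le) h1 (by rw [hi2]; exact hl.le)
    · rw [hi1]
      exact hm0 _ (Nat.le_add_right _ _)
    · rw [hi1]
      push_cast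
      have : (0 : ℝ) ≤ m0 := Nat.cast_nonneg _
      linarith
  pin := by
    intro η T ε hη hT hε
    obtain ⟨m0, hm0⟩ := exists_nat_one_div_lt hη
    obtain ⟨m1, hm1⟩ := exists_nat_ge T
    obtain ⟨l, hl⟩ := exists_pow_lt_of_lt_one hε (show (1 / 2 : ℝ) < 1 by norm_num)
    obtain ⟨i, hi⟩ : ∃ i, i = Nat.pair (m0 + m1) l := ⟨_, rfl⟩
    have hi1 : i.unpair.1 = m0 + m1 := by rw [hi, Nat.unpair_pair]
    have hi2 : i.unpair.2 = l := by rw [hi, Nat.unpair_pair]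
    refine ⟨e i, hG.he i, ?_⟩
    filter_upwards [hN.eventually (hG.ev i 0)] with j hj
    have h1 := (hj (s j) (hs j)).2.2
    have := emp_prob (hN1 j) (s j)
    show emp (s j) _ ≤ _
    refine real_le (bp_sub ?_ ?_) h1 (by rw [hi2]; exact hl.le)
    · rw [hi1]
      refine le_trans (one_div_le_one_div_of_le (by positivity) ?_) hm0.le
      push_cast
      have : (0 : ℝ) ≤ m1 := Nat.cast_nonneg _
      linarith
    · rw [hi1]
      push_cast
      have : (0 : ℝ) ≤ m0 := Nat.cast_nonneg _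
      linarith
  zero := fun j => emp_zero (hN1 j) (s j)
  dil := by
    intro c hc F
    rw [Metric.tendsto_nhds]
    intro ε hε
    obtain ⟨n0, h⟩ := hD1 c hc F (ε / 2) (by positivity)
    filter_upwards [hN.eventually_ge_atTop n0] with j hj
    rw [dist_zero_right, Real.norm_eq_abs]
    exact lt_of_le_of_lt (h (N j) hj (s j)) (by linarith)
  shf := by
    intro a F
    rw [Metric.tendsto_nhds]
    intro ε hε
    obtain ⟨n0, h⟩ := hD2 a F (ε / 2) (by positivity)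
    filter_upwards [hN.eventually_ge_atTop n0] with j hj
    rw [dist_zero_right, Real.norm_eq_abs]
    exact lt_of_le_of_lt (h (N j) hj (s j)) (by linarith)

/-- **one walk**: for almost all walks the law of the windows is near a compact set of self-similar laws -/
theorem quenched (hT1 : TameSub) (hT2 : TameLim) (hD1 : EmpDil) (hD2 : EmpShf) : ∀ ε : ℝ, 0 < ε →
    ∃ K : Set (ProbabilityMeasure C(ℝ, ℂ)), IsCompact K ∧ (∀ μ ∈ K, SSL (μ : Measure C(ℝ, ℂ))) ∧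
      ∀ U : Set (ProbabilityMeasure C(ℝ, ℂ)), IsOpen U → K ⊆ U → ∀ᶠ n : ℕ in atTop,
        1 - ε ≤ (((saw n).filter fun s => ∃ μ ∈ U, (μ : Measure C(ℝ, ℂ)) = emp s).card : ℝ) / ((saw n).card : ℝ) := by
  intro ε hε
  obtain ⟨M, c, e, G, h1, h2, h3, hPr, h4⟩ := good_sets (ε := ε / 2) (by positivity)
  have hG : GoodW M c e G := ⟨h1, h2, h3, h4⟩
  letI : MetricSpace (ProbabilityMeasure C(ℝ, ℂ)) := TopologicalSpace.metrizableSpaceMetric _
  obtain ⟨E, hE⟩ : ∃ E : ℕ → Set (ProbabilityMeasure C(ℝ, ℂ)), E = fun N => {μ | ∃ (n : ℕ) (hn : 1 ≤ n) (s : Fin n → Fin 3),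
    N ≤ n ∧ G n s ∧ μ = empP hn s} := ⟨_, rfl⟩
  obtain ⟨K, hK⟩ : ∃ K : Set (ProbabilityMeasure C(ℝ, ℂ)), K = ⋂ N, closure (E N) := ⟨_, rfl⟩
  have hKc : IsClosed K := by
    rw [hK]
    exact isClosed_iInter fun N => isClosed_closure
  -- approximation of a sequence in K by laws of walks
  have happ : ∀ μ : ℕ → ProbabilityMeasure C(ℝ, ℂ), (∀ j, μ j ∈ K) → ∃ ν : ℕ → ProbabilityMeasure C(ℝ, ℂ), Tame ν ∧
      ∀ j, dist (μ j) (ν j) < 1 / ((j : ℝ) + 1) := by
    intro μ hμ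
    have h5 : ∀ j, ∃ (n : ℕ) (hn : 1 ≤ n) (s : Fin n → Fin 3), j ≤ n ∧ G n s ∧ dist (μ j) (empP hn s) < 1 / ((j : ℝ) + 1) := by
      intro j
      have h6 : μ j ∈ closure (E j) := by
        have := hμ j
        rw [hK] at this
        exact Set.mem_iInter.1 this j
      obtain ⟨ν, hν, hd⟩ := Metric.mem_closure_iff.1 h6 (1 / ((j : ℝ) + 1)) (by positivity)
      rw [hE] at hν
      obtain ⟨n, hn, s, q1, q2, q3⟩ := hν
      exact ⟨n, hn, s, q1, q2, by rwa [← q3]⟩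
    choose N hN1 s hN hGs hd using h5
    exact ⟨fun j => empP (hN1 j) (s j), tame_good hD1 hD2 hG (tendsto_atTop_mono hN tendsto_id) hN1 s hGs, hd⟩
  have hlim0 : ∀ ψ : ℕ → ℕ, StrictMono ψ → Tendsto (fun j => 1 / ((ψ j : ℝ) + 1)) atTop (𝓝 0) := by
    intro ψ hψ
    exact tendsto_one_div_add_atTop_nhds_zero_nat.comp hψ.tendsto_atTop
  have hKcomp : IsCompact K := by
    refine IsSeqCompact.isCompact fun μ hμ => ?_
    obtain ⟨ν, hν, hd⟩ := happ μ hμ
    obtain ⟨ψ, hψ, μ0, hμ0⟩ := hT1 ν hν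
    have h6 : Tendsto (fun j => μ (ψ j)) atTop (𝓝 μ0) := by
      rw [tendsto_iff_dist_tendsto_zero] at hμ0 ⊢
      refine squeeze_zero (fun _ => dist_nonneg) (g := fun j => 1 / ((ψ j : ℝ) + 1) + dist (ν (ψ j)) μ0) (fun j => ?_) ?_
      · exact (dist_triangle _ (ν (ψ j)) _).trans (add_le_add (hd (ψ j)).le le_rfl)
      · simpa using (hlim0 ψ hψ).add hμ0
    exact ⟨μ0, hKc.mem_of_tendsto h6 (Eventually.of_forall fun j => hμ (ψ j)), ψ, hψ, h6⟩
  refine ⟨K, hKcomp, fun μ hμ => ?_, fun U hU hKU => ?_⟩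
  · obtain ⟨ν, hν, hd⟩ := happ (fun _ => μ) fun _ => hμ
    refine hT2 ν hν id tendsto_id μ ?_
    rw [tendsto_iff_dist_tendsto_zero]
    refine squeeze_zero (fun _ => dist_nonneg) (g := fun j => 1 / ((id j : ℕ) + 1 : ℝ)) (fun j => ?_) (hlim0 id strictMono_id)
    rw [dist_comm]
    exact (hd j).le
  · by_contra hcon
    rw [not_eventually] at hcon
    -- bad walks in the good sets
    have h5 : ∀ j : ℕ, ∃ (n : ℕ) (hn : 1 ≤ n) (s : Fin n → Fin 3), j ≤ n ∧ G n s ∧ empP hn s ∉ U := by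
      intro j
      obtain ⟨n, hn, hnj⟩ := (hcon.and_eventually (eventually_ge_atTop (j + 1))).exists
      have hn1 : 1 ≤ n := by omega
      by_contra hno
      push Not at hno
      refine hn ?_
      have h6 := hPr n
      have h7 : Pr n (G n) ≤ Pr n (fun s => ∃ μ ∈ U, (μ : Measure C(ℝ, ℂ)) = emp s) :=
        Pr_mono fun s _ hGs => ⟨empP hn1 s, hno n hn1 s (by omega) hGs, rfl⟩
      have h8 : Pr n (fun s => ∃ μ ∈ U, (μ : Measure C(ℝ, ℂ)) = emp s) =
          (((saw n).filter fun s => ∃ μ ∈ U, (μ : Measure C(ℝ, ℂ)) = emp s).card : ℝ) / ((saw n).card : ℝ) := rfl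
      rw [← h8]
      linarith
    choose N hN1 s hN hGs hd using h5
    have ht := tame_good hD1 hD2 hG (tendsto_atTop_mono hN tendsto_id) hN1 s hGs
    obtain ⟨ψ, hψ, μ0, hμ0⟩ := hT1 _ ht
    have hμK : μ0 ∈ K := by
      rw [hK, Set.mem_iInter]
      intro N'
      refine mem_closure_of_tendsto hμ0 ?_
      filter_upwards [hψ.tendsto_atTop.eventually_ge_atTop N'] with j hj
      rw [hE]
      exact ⟨N (ψ j), hN1 (ψ j), s (ψ j), hj.trans (hN (ψ j)), hGs (ψ j), rfl⟩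
    have h6 := hμ0.eventually (hU.mem_nhds (hKU hμK))
    obtain ⟨j, hj⟩ := h6.exists
    exact hd (ψ j) hj

end Pool.Agent.SSI
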