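import Pool.Agent.SSI.Cover
import Pool.Agent.NPR.ExN
import Pool.Agent.NPR.TwoEnd

/-!
# SSI (self-similar limits): the transfer principle

If the words of the box of the scale L with a factor in Bq have small mass, then the windows with a factor in Bq have small
density in the uniform n-step walk.
-/

set_option autoImplicit false

namespace HexObs

namespace SSI

open Finset TS SDN TIW NTA TIP NPR

open scoped ENNReal

/-- **the transfer principle** -/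
def RT : Prop := ∀ ε : ℝ, 0 < ε → ∃ (δ θ : ℝ) (c0 L0 : ℕ), 0 < δ ∧ 0 < θ ∧ ∀ (L H : ℕ) (Bq : Set (List Bool)), L0 ≤ L →
  (H : ℝ) ≤ θ * PW.mZ (2 ^ L) → gf {t | t ∈ WL (L + 16) ∧ t ∈ Fac Bq} ≤ ENNReal.ofReal δ * FK L →
  ∀ k n : ℕ, L + c0 ≤ k → TIP.Sc k n → TOG.Pn n {t | ε * n < (cnt H Bq t 0 (3 * n / 4) : ℝ)} ≤ ε

/-- the union over the grid points -/
theorem fewL {κ : ℝ} {C b0 k : ℕ} (hET : ETL κ C b0 k) (μ q : ℕ) : ∃ (δ B : ℝ) (l0 : ℕ), 0 < δ ∧ 1 ≤ B ∧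
    ∀ (l : ℕ) (Bq : Set (List Bool)), l0 ≤ l →
    gf {t | t ∈ WL (l + μ + 16) ∧ t ∈ Fac Bq} ≤ ENNReal.ofReal δ * FK (l + μ) → ∀ K J n : ℕ, l + μ + 16 ≤ K → n ≤ ML (K + 2) →
    gf {t | t ∈ WL K ∧ t.length ≤ n ∧ ¬ GoodL κ C b0 k l (l + μ) Bq q J t} ≤ ENNReal.ofReal (B ^ (K - l) / 4 ^ J) * FK K := by
  obtain ⟨δ, B, l0, hδ, hB, h⟩ := hET μ q
  obtain ⟨G, hG, hN⟩ := grid_num
  have hB0 : (0 : ℝ) < B := by linarith
  have hG0 : (0 : ℝ) < G := by linarith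
  refine ⟨δ, G * B, l0, hδ, by nlinarith, fun l Bq hl hQ K J n hK hn => ?_⟩
  obtain ⟨N, hN1, hN2⟩ := hN K (l + μ) (by omega)
  obtain ⟨S, hS⟩ : ∃ S : ℕ → Set (List Bool), S = fun i => {t | t ∈ WL K ∧
    i * ML (l + μ) + MS l (l + μ) * (J + 1) < t.length ∧
    ¬ ∃ g, g ≤ J ∧ q * (J - g) ≤ J ∧ ChL κ C b0 k l (l + μ) (Fac Bq) J g (t.drop (i * ML (l + μ)))} := ⟨_, rfl⟩
  have h1 : gf {t | ∃ i, i < N ∧ t ∈ S i} ≤ N * (ENNReal.ofReal (B ^ (K - l) / 4 ^ J) * FK K) := by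
    refine gf_range_le' N S fun i _ => ?_
    rw [hS]
    exact h l (Fac Bq) hl (by rw [fac_fac]; exact hQ) K J (i * ML (l + μ)) hK
  have h2 : {t | t ∈ WL K ∧ t.length ≤ n ∧ ¬ GoodL κ C b0 k l (l + μ) Bq q J t} ⊆ {t | ∃ i, i < N ∧ t ∈ S i} := by
    rintro t ⟨ht1, ht2, ht3⟩
    unfold GoodL at ht3
    rw [not_forall] at ht3
    obtain ⟨i, ht3⟩ := ht3
    rw [Classical.not_imp] at ht3
    refine ⟨i, hN2 t.length i (ht2.trans hn) (lt_of_le_of_lt (Nat.le_add_right _ _) ht3.1), ?_⟩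
    rw [hS]
    exact ⟨ht1, ht3.1, ht3.2⟩
  refine (gf_mono h2).trans (h1.trans ?_)
  rw [← mul_assoc]
  refine mul_le_mul_left ?_ _
  rw [← ENNReal.ofReal_natCast, ← ENNReal.ofReal_mul (Nat.cast_nonneg _)]
  refine ENNReal.ofReal_le_ofReal ?_
  rw [mul_pow, mul_div_assoc]
  refine mul_le_mul_of_nonneg_right (hN1.trans ?_) (by positivity)
  exact pow_le_pow_right₀ hG (by omega)

/-! ### numbers -/

/-- powers of two are large -/
lemma pow_large (X : ℝ) (q0 : ℕ) : ∃ c0 : ℕ, ∀ j, c0 ≤ j → X * ((j : ℝ) + q0 + 1) ^ 2 ≤ 2 ^ j := by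
  have h1 : Filter.Tendsto (fun j : ℕ => (j : ℝ) ^ 2 / 2 ^ j) Filter.atTop (nhds 0) :=
    tendsto_pow_const_div_const_pow_of_one_lt 2 (by norm_num)
  obtain ⟨M, hM⟩ : ∃ M : ℝ, M = 1 / (4 * (|X| + 1)) := ⟨_, rfl⟩
  have hM0 : 0 < M := by rw [hM]; positivity
  obtain ⟨N, hN⟩ := Filter.eventually_atTop.1 (h1.eventually (gt_mem_nhds hM0))
  refine ⟨max N (q0 + 1), fun j hj => ?_⟩
  have h2 := hN j ((le_max_left _ _).trans hj)
  have h3 : ((q0 : ℝ) + 1) ≤ j := by exact_mod_cast (le_max_right _ _).trans hj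
  have h4 : (0 : ℝ) < 2 ^ j := by positivity
  rw [div_lt_iff₀ h4, hM] at h2
  have hX : X ≤ |X| := le_abs_self X
  have h5 : ((j : ℝ) + q0 + 1) ^ 2 ≤ 4 * (j : ℝ) ^ 2 := by
    have : (0 : ℝ) ≤ (q0 : ℝ) := Nat.cast_nonneg _
    nlinarith
  have h6 : (0 : ℝ) ≤ (j : ℝ) ^ 2 := by positivity
  calc X * ((j : ℝ) + q0 + 1) ^ 2 ≤ |X| * ((j : ℝ) + q0 + 1) ^ 2 := mul_le_mul_of_nonneg_right hX (by positivity)
    _ ≤ (|X| + 1) * (4 * (j : ℝ) ^ 2) := mul_le_mul (by linarith) h5 (by positivity) (by positivity)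
    _ ≤ (|X| + 1) * (4 * (1 / (4 * (|X| + 1)) * 2 ^ j)) := by
        refine mul_le_mul_of_nonneg_left ?_ (by positivity)
        linarith
    _ = 2 ^ j := by field_simp

lemma log_large (d : ℕ) : ∃ c0 : ℕ, ∀ a, c0 ≤ a → d + Nat.log 2 (a + 4) ≤ a := by
  obtain ⟨c0, h⟩ := pow_large (5 * 2 ^ d) 0
  refine ⟨max c0 1, fun a ha => ?_⟩
  have h1 := h a ((le_max_left _ _).trans ha)
  have ha1 : 1 ≤ a := (le_max_right _ _).trans ha
  have h2 : a + 4 < 2 ^ (a - d) ∧ d ≤ a := by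
    have h3 : (a + 4) * 2 ^ d < 2 ^ a := by
      have h4 : (((a + 4) * 2 ^ d : ℕ) : ℝ) < ((2 ^ a : ℕ) : ℝ) := by
        push_cast
        refine lt_of_lt_of_le ?_ h1
        have h5 : (1 : ℝ) ≤ a := by exact_mod_cast ha1
        have h6 : (0 : ℝ) < 2 ^ d := by positivity
        push_cast
        nlinarith [mul_pos h6 (show (0 : ℝ) < (a : ℝ) by linarith), mul_pos h6 (show (0 : ℝ) < (a : ℝ) ^ 2 by positivity)]
      exact_mod_cast h4
    have h7 : d ≤ a := by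
      by_contra hc
      push Not at hc
      have h8 : 2 ^ a < 2 ^ d := Nat.pow_lt_pow_right (by norm_num) hc
      have h9 : 2 ^ d ≤ (a + 4) * 2 ^ d := Nat.le_mul_of_pos_left _ (by omega)
      omega
    refine ⟨?_, h7⟩
    rw [show a = (a - d) + d by omega, pow_add] at h3
    rw [show a - d + d = a by omega] at h3
    exact Nat.lt_of_mul_lt_mul_right h3
  have h3 : Nat.log 2 (a + 4) < a - d := Nat.log_lt_of_lt_pow (by omega) h2.1
  omega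

end SSI

end HexObs
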