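import Pool.Agent.NPR.Fast
import Pool.Agent.NPR.SlowU
import Pool.Agent.NPR.ExtT
import Pool.Agent.SIM.FinC
import Pool.Agent.SSI.Rt

/-!
# SSI (self-similar limits): rare classes of one scale

* `fastA` : a displacement of at least 2 ^ (L - a) in a short time;
* `slowA` : a small displacement in a long time;
* `pinA` : near touches.
-/

set_option autoImplicit false

namespace HexObs

namespace SSI

open Finset TS SDN TIW NTA TIP NTW NPR NPR.Fast

open scoped ENNReal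

/-- a displacement of at least 2 ^ (L - a) in a short time is rare -/
theorem fastA (a : ℕ) (δ : ℝ) (hδ : 0 < δ) : ∃ (lam : ℝ) (L0 : ℕ), 1 ≤ lam ∧ ∀ L, L0 ≤ L →
    gf {t | t ∈ WL (L + 16) ∧ t ∈ Fac {Q | (Q.length : ℝ) ≤ PW.mZ (2 ^ L) / lam ∧
      2 ^ (L - a) ≤ hn (vx oo up Q Q.length)}} ≤ ENNReal.ofReal δ * FK L := by
  obtain ⟨a0, hlong⟩ := long_mass 16 (δ / 3) (by positivity)
  obtain ⟨a1, hshort⟩ := short_scale (δ / 3) (by positivity)
  obtain ⟨C, hC, hmod⟩ := scale_modu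
  obtain ⟨D, hD, hF⟩ := FK_rat
  obtain ⟨N, hN⟩ : ∃ N : ℕ, N = a0 + a1 + 1 := ⟨_, rfl⟩
  have hN0 : (0 : ℝ) < N := by
    rw [hN]
    positivity
  obtain ⟨E, hE⟩ : ∃ E : ℝ, E = C * (D * 2 ^ (43 / 24 * (a0 : ℝ))) := ⟨_, rfl⟩
  have hE0 : 0 < E := by rw [hE]; positivity
  obtain ⟨e, he⟩ : ∃ e : ℝ, e = δ / 3 / (N * E) := ⟨_, rfl⟩
  have he0 : 0 < e := by rw [he]; positivity
  obtain ⟨ρ, k0, hρ, hmod⟩ := hmod ((1 / 2) ^ (a0 + 2 + a)) e (by positivity) he0
  obtain ⟨Cu, hCu, hup⟩ := mup_M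
  have hup' : ∀ k, PW.mZ (2 ^ (k + 1)) ≤ Cu * PW.mZ (2 ^ k) := hup
  have hCu0 : 0 < Cu := by linarith
  refine ⟨max 1 (Cu ^ a1 / ρ), k0 + a1 + a, le_max_left _ _, fun L hL => ?_⟩
  have hlam0 : 0 < max 1 (Cu ^ a1 / ρ) := lt_of_lt_of_le one_pos (le_max_left _ _)
  obtain ⟨S, hS⟩ : ∃ S : ℕ → Set (List Bool), S = fun i => {t | t ∈ SA ∧ PW.mZ (2 ^ (L - a1 + i)) ≤ (t.length : ℝ) ∧
      (t.length : ℝ) < PW.mZ (2 ^ (L - a1 + i + 1)) ∧
      t ∈ Fast.Bd ((1 / 2) ^ (a0 + 2 + a) * 2 ^ (L - a1 + i)) (ρ * PW.mZ (2 ^ (L - a1 + i)))} := ⟨_, rfl⟩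
  have hsplit : {t | t ∈ WL (L + 16) ∧ t ∈ Fac {Q | (Q.length : ℝ) ≤ PW.mZ (2 ^ L) / max 1 (Cu ^ a1 / ρ) ∧
      2 ^ (L - a) ≤ hn (vx oo up Q Q.length)}} ⊆ {t | t ∈ WL (L + 16) ∧ PW.mZ (2 ^ (L + a0)) ≤ (t.length : ℝ)} ∪
      ({t | t ∈ SA ∧ (t.length : ℝ) ≤ PW.mZ (2 ^ (L - a1))} ∪ ⋃ i ∈ range N, S i) := by
    rintro t ⟨h1, X, Q, Y, h2, h3, h4⟩
    rcases le_or_gt (PW.mZ (2 ^ (L + a0))) (t.length : ℝ) with h5 | h5
    · exact Or.inl ⟨h1, h5⟩
    right
    rcases le_or_gt (t.length : ℝ) (PW.mZ (2 ^ (L - a1))) with h6 | h6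
    · exact Or.inl ⟨h1.1, h6⟩
    right
    -- the scale of the number of letters
    have hex : ∃ j, (t.length : ℝ) < PW.mZ (2 ^ (L - a1 + j)) := ⟨a0 + a1, by
      rw [show L - a1 + (a0 + a1) = L + a0 by omega]
      exact h5⟩
    obtain ⟨j, hj1, hj2⟩ : ∃ j, (t.length : ℝ) < PW.mZ (2 ^ (L - a1 + j)) ∧
        ∀ i, i < j → ¬ (t.length : ℝ) < PW.mZ (2 ^ (L - a1 + i)) := by
      classical
      exact ⟨Nat.find hex, Nat.find_spec hex, fun i hi => Nat.find_min hex hi⟩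
    have hj3 : j ≤ a0 + a1 := by
      by_contra hcon
      refine hj2 (a0 + a1) (by omega) ?_
      rw [show L - a1 + (a0 + a1) = L + a0 by omega]
      exact h5
    obtain ⟨i, rfl⟩ : ∃ i, j = i + 1 := by
      rcases j with _ | i
      · rw [add_zero] at hj1
        linarith
      · exact ⟨i, rfl⟩
    have hi := hj2 i (by omega)
    rw [not_lt] at hi
    rw [Set.mem_iUnion₂]
    refine ⟨i, mem_range.2 (by omega), ?_⟩
    rw [hS]
    refine ⟨h1.1, hi, hj1, ?_⟩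
    have h7 : (2 : ℤ) ^ (L - a) ≤ hn (vx oo up t (X.length + Q.length) - vx oo up t X.length) := by
      rw [h2, fac_disp]
      exact h4
    obtain ⟨dir, h8⟩ := hn_lvl h7
    refine ⟨dir, X.length, X.length + Q.length, by omega, ?_, ?_, ?_⟩
    · rw [h2]
      simp only [List.length_append]
      omega
    · push_cast
      rw [add_sub_cancel_left]
      refine h3.trans ?_
      rw [div_le_iff₀ hlam0]
      have h9 : PW.mZ (2 ^ L) ≤ Cu ^ a1 * PW.mZ (2 ^ (L - a1)) := by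
        have := m_iter hCu hup' (L - a1) a1
        rwa [show L - a1 + a1 = L by omega] at this
      have h10 := m_mono (L - a1) i
      have h11 : Cu ^ a1 / ρ ≤ max 1 (Cu ^ a1 / ρ) := le_max_right _ _
      calc PW.mZ (2 ^ L) ≤ Cu ^ a1 * PW.mZ (2 ^ (L - a1)) := h9
        _ ≤ Cu ^ a1 * PW.mZ (2 ^ (L - a1 + i)) := mul_le_mul_of_nonneg_left h10 (by positivity)
        _ = ρ * PW.mZ (2 ^ (L - a1 + i)) * (Cu ^ a1 / ρ) := by field_simp
        _ ≤ ρ * PW.mZ (2 ^ (L - a1 + i)) * max 1 (Cu ^ a1 / ρ) :=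
            mul_le_mul_of_nonneg_left h11 (mul_pos hρ (mlow_M.pos _)).le
    · have e : lvl dir (vx oo up t (X.length + Q.length)) - lvl dir (vx oo up t X.length) =
          lvl dir (vx oo up t (X.length + Q.length) - vx oo up t X.length) := (NTF.lvl_sub dir _ _).symm
      rw [e]
      have h9 : (2 : ℝ) ^ (L - a) ≤ 2 * |((lvl dir (vx oo up t (X.length + Q.length) - vx oo up t X.length) : ℤ) : ℝ)| := by
        rw [← Int.cast_abs]
        exact_mod_cast h8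
      have h10 : ((1 / 2 : ℝ)) ^ (a0 + 2 + a) * 2 ^ (L - a1 + i) ≤ 2 ^ (L - a) / 2 := by
        have h11 : (2 : ℝ) ^ (L - a1 + i) ≤ 2 ^ (L - a + (a0 + a)) := pow_le_pow_right₀ (by norm_num) (by omega)
        calc ((1 / 2 : ℝ)) ^ (a0 + 2 + a) * 2 ^ (L - a1 + i) ≤ (1 / 2) ^ (a0 + 2 + a) * 2 ^ (L - a + (a0 + a)) := by gcongr
          _ = 2 ^ (L - a) / 4 := by
              have e1 : ((1 / 2 : ℝ)) ^ (a0 + a) * 2 ^ (a0 + a) = 1 := by
                rw [← mul_pow]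
                norm_num
              rw [show a0 + 2 + a = (a0 + a) + 2 by omega, pow_add (1 / 2 : ℝ), pow_add (2 : ℝ)]
              linear_combination (2 ^ (L - a) / 4) * e1
          _ ≤ _ := by
              have : (0 : ℝ) < 2 ^ (L - a) := by positivity
              linarith
      linarith
  refine (gf_mono hsplit).trans ((gf_union_le _ _).trans ?_)
  have h3 : gf (⋃ i ∈ range N, S i) ≤ ENNReal.ofReal (δ / 3) * FK L := by
    refine (SDN.MainA.gf_bU _ _).trans ?_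
    have h4 : ∀ i ∈ range N, gf (S i) ≤ ENNReal.ofReal (E * e) * FK L := by
      intro i hi
      rw [mem_range] at hi
      have h5 := hmod (L - a1 + i) (by omega)
      have h6 := hF (L - a1 + i) L
      rw [hS]
      refine h5.trans ((mul_le_mul' le_rfl h6).trans ?_)
      rw [← mul_assoc, ← ENNReal.ofReal_mul (by positivity)]
      refine mul_le_mul' (ENNReal.ofReal_le_ofReal ?_) le_rfl
      have h7 : (((L - a1 + i : ℕ) : ℝ) - L) ≤ a0 := by
        have h8 : ((L - a1 + i : ℕ) : ℝ) ≤ ((L + a0 : ℕ) : ℝ) := by exact_mod_cast (by omega : L - a1 + i ≤ L + a0)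
        push_cast at h8 ⊢
        linarith
      have h8 : (2 : ℝ) ^ (43 / 24 * (((L - a1 + i : ℕ) : ℝ) - L)) ≤ 2 ^ (43 / 24 * (a0 : ℝ)) :=
        Real.rpow_le_rpow_of_exponent_le (by norm_num) (by linarith)
      calc C * e * (D * 2 ^ (43 / 24 * (((L - a1 + i : ℕ) : ℝ) - L))) ≤ C * e * (D * 2 ^ (43 / 24 * (a0 : ℝ))) := by
            gcongr
        _ = E * e := by
            rw [hE]
            ring
    refine (sum_le_sum h4).trans ?_
    rw [sum_const, card_range, nsmul_eq_mul, ← mul_assoc, ← ENNReal.ofReal_natCast, ← ENNReal.ofReal_mul (Nat.cast_nonneg _)]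
    refine mul_le_mul' (ENNReal.ofReal_le_ofReal (le_of_eq ?_)) le_rfl
    rw [he]
    field_simp
  calc gf {t | t ∈ WL (L + 16) ∧ PW.mZ (2 ^ (L + a0)) ≤ (t.length : ℝ)} +
        gf ({t | t ∈ SA ∧ (t.length : ℝ) ≤ PW.mZ (2 ^ (L - a1))} ∪ ⋃ i ∈ range N, S i)
      ≤ ENNReal.ofReal (δ / 3) * FK L + (ENNReal.ofReal (δ / 3) * FK L + ENNReal.ofReal (δ / 3) * FK L) :=
        add_le_add (hlong L) ((gf_union_le _ _).trans (add_le_add (hshort L (by omega)) h3))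
    _ = ENNReal.ofReal δ * FK L := by
        rw [← add_mul, ← add_mul, ← ENNReal.ofReal_add (by positivity) (by positivity),
          ← ENNReal.ofReal_add (by positivity) (by positivity)]
        congr 2
        ring

/-- a small displacement in a long time is rare -/
theorem slowA (a : ℕ) (δ : ℝ) (hδ : 0 < δ) : ∃ v L0 : ℕ, ∀ L, L0 ≤ L →
    gf {t | t ∈ WL (L + 16) ∧ t ∈ Fac {Q | PW.mZ (2 ^ (L - a)) ≤ (Q.length : ℝ) ∧
      ∀ i, i ≤ Q.length → hn (vx oo up Q i) < 2 ^ (L - v)}} ≤ ENNReal.ofReal δ * FK L := by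
  obtain ⟨A, B, hA, hB, hT⟩ := timeF 1
  obtain ⟨CF, hCF, hF⟩ := FK_add
  obtain ⟨v, hv⟩ := exists_nat_gt (A * B ^ (16 + a) * CF ^ 16 / δ)
  refine ⟨a + v, a + v, fun L hL => ?_⟩
  refine (gf_mono (Q := {t | t ∈ WL (L + 16) ∧ t ∈ Fac {Q | In (2 ^ (L - a - v)) Q ∧
    PW.mZ (2 ^ (L - a)) / 8 ≤ (Q.length : ℝ)}}) ?_).trans ?_
  · rintro t ⟨h1, X, Q, Y, h2, h3, h4⟩
    refine ⟨h1, X, Q, Y, h2, In_hn fun i hi => ?_, ?_⟩
    · rw [show L - a - v = L - (a + v) by omega]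
      exact_mod_cast h4 i hi
    · have h6 : 0 ≤ PW.mZ (2 ^ (L - a)) := PW.mZ_nonneg _
      linarith
  · refine (hT (L + 16) (L - a) v (by omega) (by omega)).trans ?_
    rw [show L + 16 - (L - a) = 16 + a by omega]
    calc ENNReal.ofReal (A * B ^ (16 + a) / 2 ^ (1 * v)) * FK (L + 16)
        ≤ ENNReal.ofReal (A * B ^ (16 + a) / 2 ^ (1 * v)) * (ENNReal.ofReal (CF ^ 16) * FK L) := by
          gcongr
          exact hF L 16
      _ = ENNReal.ofReal (A * B ^ (16 + a) / 2 ^ (1 * v) * CF ^ 16) * FK L := by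
          rw [← mul_assoc, ← ENNReal.ofReal_mul (by positivity)]
      _ ≤ _ := by
          gcongr
          rw [div_mul_eq_mul_div, div_le_iff₀ (by positivity), one_mul]
          have h7 : (v : ℝ) ≤ 2 ^ v := by exact_mod_cast (Nat.lt_two_pow_self (n := v)).le
          rw [div_lt_iff₀ hδ] at hv
          nlinarith

/-- a near touch of the scale S -/
def PinH (η e S : ℝ) (t : List Bool) : Prop := ∃ i l j : ℕ, i ≤ l ∧ l ≤ j ∧ j ≤ t.length ∧
  η * S ≤ (hn (vx oo up t l - vx oo up t i) : ℝ) ∧ (hn (vx oo up t j - vx oo up t i) : ℝ) ≤ e * S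

/-- the displacement between two vertices of a factor -/
lemma fac_hn (X Q Y : List Bool) {i j : ℕ} (hi : i ≤ Q.length) (hj : j ≤ Q.length) :
    hn (vx oo up (X ++ (Q ++ Y)) (X.length + j) - vx oo up (X ++ (Q ++ Y)) (X.length + i)) =
      hn (vx oo up Q j - vx oo up Q i) := by
  rw [vx_app, vx_app, vx_append (hj.trans (Nat.le_succ _)), vx_append (hi.trans (Nat.le_succ _))]
  have e : en X + mulE (rt X) (vx oo up Q j) - (en X + mulE (rt X) (vx oo up Q i)) =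
      mulE (rt X) (vx oo up Q j - vx oo up Q i) := by
    rw [mulE_sub]
    abel
  rw [e, hn_mulE (nrm_rt X)]

lemma PinH.pin {η e S : ℝ} (hS : 0 ≤ S) {Q X Y : List Bool} (h : PinH η e S Q) :
    SIM.Pin (η / 2) e S (X ++ (Q ++ Y)) := by
  obtain ⟨i, l, j, h1, h2, h3, h4, h5⟩ := h
  refine ⟨X.length + i, X.length + l, X.length + j, by omega, by omega, by simp only [List.length_append]; omega, ?_, ?_⟩
  · have e1 := fac_hn X Q Y (i := i) (j := l) (by omega) (by omega)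
    obtain ⟨dir, h6⟩ := hn_lvl (le_refl (hn (vx oo up (X ++ (Q ++ Y)) (X.length + l) -
      vx oo up (X ++ (Q ++ Y)) (X.length + i))))
    rw [e1] at h6
    refine ⟨dir, ?_⟩
    have h7 : ((hn (vx oo up Q l - vx oo up Q i) : ℤ) : ℝ) ≤
        2 * |((lvl dir (vx oo up (X ++ (Q ++ Y)) (X.length + l) - vx oo up (X ++ (Q ++ Y)) (X.length + i)) : ℤ) : ℝ)| := by
      rw [← Int.cast_abs]
      exact_mod_cast h6
    rw [NTF.lvl_sub] at h7
    linarith
  · intro dir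
    have e1 := fac_hn X Q Y (i := i) (j := j) (by omega) (by omega)
    have h6 : |lvl dir (vx oo up (X ++ (Q ++ Y)) (X.length + j) - vx oo up (X ++ (Q ++ Y)) (X.length + i))| ≤
        hn (vx oo up (X ++ (Q ++ Y)) (X.length + j) - vx oo up (X ++ (Q ++ Y)) (X.length + i)) := by
      exact lvl_hn dir _
    rw [e1, NTF.lvl_sub] at h6
    refine le_trans ?_ h5
    rw [← Int.cast_abs]
    exact_mod_cast h6

theorem pinA (η δ : ℝ) (hη : 0 < η) (hδ : 0 < δ) : ∃ (e : ℝ) (L0 : ℕ), 0 < e ∧ ∀ L, L0 ≤ L →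
    gf {t | t ∈ WL (L + 16) ∧ t ∈ Fac {Q | PinH η e (2 ^ L) Q}} ≤ ENNReal.ofReal δ * FK L := by
  obtain ⟨CF, hCF, hF⟩ := FK_add
  obtain ⟨e, k0, he, h⟩ := SIM.near_small 16 (η := η / 2) (e := δ / (4 * CF ^ 16)) (by positivity) (by positivity)
  refine ⟨e, k0, he, fun L hL => ?_⟩
  refine (gf_mono ?_).trans ((h L hL).trans ?_)
  · rintro t ⟨h1, X, Q, Y, h2, h3⟩
    refine ⟨h1, ?_⟩
    rw [h2]
    exact PinH.pin (by positivity) h3
  · have hU : 0 < Ub (L + 16) := Num2Aux.UU_pos _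
    have e1 : ENNReal.ofReal (4 * (δ / (4 * CF ^ 16)) * Ub (L + 16)) * Xb (L + 16) ^ 2 =
        ENNReal.ofReal (δ / CF ^ 16) * FK (L + 16) := by
      unfold FK
      rw [← mul_assoc, ← ENNReal.ofReal_mul (by positivity)]
      congr 2
      field_simp
    rw [e1]
    calc ENNReal.ofReal (δ / CF ^ 16) * FK (L + 16) ≤ ENNReal.ofReal (δ / CF ^ 16) * (ENNReal.ofReal (CF ^ 16) * FK L) := by
          gcongr
          exact hF L 16
      _ = ENNReal.ofReal δ * FK L := by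
          rw [← mul_assoc, ← ENNReal.ofReal_mul (by positivity)]
          congr 2
          field_simp

end SSI

end HexObs
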