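import Pool.Agent.SSI.EngL
import Pool.Agent.NPR.InitR
import Pool.Agent.NPR.Vm

/-!
# SSI (self-similar limits): the covering by long blocks (deterministic)

`FL` : the good chains from one starting point: length, number of the bad windows, growth of an additive functional.
-/

set_option autoImplicit false

namespace HexObs

namespace SSI

open Finset TS SDN TIW NTA TIP NPR

/-! ### factors -/

lemma fac_trans {Bq : Set (List Bool)} {A Q B : List Bool} (h : Q ∈ Fac Bq) : A ++ (Q ++ B) ∈ Fac Bq := by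
  obtain ⟨X, R, Y, rfl, hR⟩ := h
  refine ⟨A ++ X, R, Y ++ B, ?_, hR⟩
  simp only [List.append_assoc]

lemma fac_fac (Bq : Set (List Bool)) : Fac (Fac Bq) = Fac Bq := by
  ext t
  constructor
  · rintro ⟨X, Q, Y, rfl, hQ⟩
    exact fac_trans hQ
  · intro h
    exact ⟨[], t, [], by simp, h⟩

lemma wd_take_drop {u : List Bool} {x y a b : ℕ} (h1 : a ≤ x) (h2 : x ≤ y) (h3 : y ≤ b) (h4 : b ≤ u.length) :
    ∃ A B, wd u a b = A ++ (wd u x y ++ B) := by
  refine ⟨wd u a x, wd u y b, ?_⟩
  have e : ∀ {x y z : ℕ}, x ≤ y → y ≤ z → z ≤ u.length → wd u x z = wd u x y ++ wd u y z := by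
    intro x y z h1 h2 h3
    unfold wd
    have h4 : u.take z = u.take y ++ (u.take z).drop y := by
      conv_lhs => rw [← List.take_append_drop y (u.take z)]
      rw [List.take_take, min_eq_left h2]
    conv_lhs => rw [h4]
    rw [List.drop_append_of_le_length (by rw [List.length_take]; omega)]
  rw [e h1 (h2.trans h3) h4, e h2 h3 h4]

lemma wd_drop (u : List Bool) (j x y : ℕ) : wd (u.drop j) x y = wd u (j + x) (j + y) := by
  unfold wd
  rw [List.take_drop, List.drop_drop]

/-! ### bad windows -/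

open Classical in
/-- the number of the z in [x, y) such that the window of H letters behind z has a factor in Bq -/
noncomputable def cnt (H : ℕ) (Bq : Set (List Bool)) (u : List Bool) (x y : ℕ) : ℕ :=
  ((Ico x y).filter fun z => wd u z (z + H) ∈ Fac Bq).card

lemma cnt_le (H : ℕ) (Bq : Set (List Bool)) (u : List Bool) (x y : ℕ) : cnt H Bq u x y ≤ y - x := by
  classical
  unfold cnt
  refine (Finset.card_filter_le _ _).trans ?_
  rw [Nat.card_Ico]

lemma cnt_add (H : ℕ) (Bq : Set (List Bool)) (u : List Bool) {x y z : ℕ} (h1 : x ≤ y) (h2 : y ≤ z) :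
    cnt H Bq u x z = cnt H Bq u x y + cnt H Bq u y z := by
  classical
  unfold cnt
  rw [← Finset.Ico_union_Ico_eq_Ico h1 h2, Finset.filter_union, Finset.card_union_of_disjoint]
  refine Finset.disjoint_filter_filter ?_
  exact Finset.Ico_disjoint_Ico_consecutive x y z

lemma cnt_drop (H : ℕ) (Bq : Set (List Bool)) (u : List Bool) (j x y : ℕ) :
    cnt H Bq (u.drop j) x y = cnt H Bq u (j + x) (j + y) := by
  classical
  unfold cnt
  rw [← Finset.card_map (addLeftEmbedding j)]
  congr 1
  ext z
  simp only [Finset.mem_map, Finset.mem_filter, Finset.mem_Ico, addLeftEmbedding_apply]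
  constructor
  · rintro ⟨a, ⟨⟨h1, h2⟩, h3⟩, rfl⟩
    rw [wd_drop] at h3
    exact ⟨⟨by omega, by omega⟩, by rwa [add_assoc]⟩
  · rintro ⟨⟨h1, h2⟩, h3⟩
    refine ⟨z - j, ⟨⟨by omega, by omega⟩, ?_⟩, by omega⟩
    rw [wd_drop, ← add_assoc, show j + (z - j) = z by omega]
    exact h3

/-! ### one block -/

variable {κ : ℝ} {C b0 k l L H : ℕ} {Bq : Set (List Bool)} {V : List Bool → ℝ} {r : ℕ}

/-- the bounds of the cuts (from StepL) -/
def Bds (κ : ℝ) (C b0 k l L : ℕ) : Prop := ∀ u ∈ SA, MS l L < u.length → ∀ j ∈ nxL κ C b0 k l L u,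
  a2 l L u ≤ j ∧ j ≤ MS l L ∧ j ≤ a2 l L u + 3 * ML l

lemma lm_eq (l L : ℕ) (u : List Bool) : lm l L u = wd u (a1 l u) (a2 l L u) := rfl

/-- a good block has few bad windows -/
lemma cnt_good {u : List Bool} {j : ℕ} (hu : a2 l L u ≤ u.length) (h2 : j ≤ a2 l L u + 3 * ML l) (hg : lm l L u ∉ Fac Bq) :
    cnt H Bq u 0 j ≤ 4 * ML l + H := by
  classical
  have h3 := a1_le l u
  have h4 : ∀ z, a1 l u ≤ z → z + H ≤ a2 l L u → wd u z (z + H) ∉ Fac Bq := by
    intro z hz1 hz2 hz
    obtain ⟨A, B, hAB⟩ := wd_take_drop (u := u) hz1 (Nat.le_add_right z H) hz2 hu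
    exact hg (by rw [lm_eq, hAB]; exact fac_trans hz)
  have h5 : ((Ico 0 j).filter fun z => wd u z (z + H) ∈ Fac Bq) ⊆ range (a1 l u) ∪ Ico (a2 l L u + 1 - H) j := by
    intro z hz
    rw [Finset.mem_filter, Finset.mem_Ico] at hz
    rw [Finset.mem_union, Finset.mem_range, Finset.mem_Ico]
    by_contra hc
    push Not at hc
    refine h4 z hc.1 ?_ hz.2
    by_contra h6
    push Not at h6
    have := hc.2 (by omega)
    omega
  unfold cnt
  refine (Finset.card_le_card h5).trans ((Finset.card_union_le _ _).trans ?_)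
  rw [Finset.card_range, Nat.card_Ico]
  omega

/-- the growth of an additive functional along a block -/
lemma V_block (hV : AF r V) (hr : 8 * r ≤ 2 ^ L) {u : List Bool} {j : ℕ} (hu : a2 l L u ≤ u.length) (h1 : a2 l L u ≤ j) :
    1 ≤ V (u.take j) ∧ (a2 l L u = a1 l u + ML L ∨ 2 ≤ V (u.take j)) := by
  refine ⟨hV.one _, ?_⟩
  rcases NPR.stp_or (L := L) u (a1 l u) (NPR.ML_pos L) with h | h
  · exact Or.inl h
  · right
    have h3 : a1 l u < a2 l L u := a1_lt l L u
    have e1 : u.take j = u.take (a1 l u) ++ (lm l L u ++ (u.take j).drop (a2 l L u)) := by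
      have h4 := List.take_append_drop (a2 l L u) (u.take j)
      rw [List.take_take, min_eq_left h1] at h4
      have h5 := List.take_append_drop (a1 l u) (u.take (a2 l L u))
      rw [List.take_take, min_eq_left h3.le] at h5
      rw [← List.append_assoc]
      show _ = (u.take (a1 l u) ++ (u.take (a2 l L u)).drop (a1 l u)) ++ _
      rw [h5]
      exact h4.symm
    have h6 : 2 ≤ V (lm l L u) := by
      have hlen : (lm l L u).length = a2 l L u - a1 l u := by
        unfold lm
        rw [List.length_drop, List.length_take]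
        omega
      refine hV.big _ ⟨(lm l L u).length, le_rfl, ?_⟩
      have h7 := NPR.vx_fac (u := u) (a := a1 l u) (b := a2 l L u) (i := (lm l L u).length) hu (by omega)
      have h8 : a1 l u + (lm l L u).length = a2 l L u := by omega
      rw [h8] at h7
      have h9 : ((u.take (a2 l L u)).drop (a1 l u)) = lm l L u := rfl
      rw [h9] at h7
      rw [h7]
      have h10 : (8 * (r : ℤ)) ≤ 2 ^ L := by exact_mod_cast hr
      exact h10.trans h
    rw [e1]
    have a1' := hV.ge (u.take (a1 l u)) (lm l L u ++ (u.take j).drop (a2 l L u))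
    have a2' := hV.ge (lm l L u) ((u.take j).drop (a2 l L u))
    have a3' := hV.one (u.take (a1 l u))
    have a4' := hV.one ((u.take j).drop (a2 l L u))
    linarith

/-- **a chain**: end, bad windows, growth of V -/
theorem chain (hB : Bds κ C b0 k l L) (hV : AF r V) (hr : 8 * r ≤ 2 ^ L) : ∀ (J g : ℕ) (u : List Bool),
    ChL κ C b0 k l L (Fac Bq) J g u → u ∈ SA → MS l L * (J + 1) < u.length →
    g ≤ J ∧ ∃ e F S : ℕ, e ≤ MS l L * J ∧ cnt H Bq u 0 e ≤ J * (4 * ML l + H) + (J - g) * MS l L ∧ J ≤ F + S ∧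
      1 + (F : ℝ) ≤ V (u.take e) ∧ ML L * S ≤ e := by
  intro J
  induction J with
  | zero =>
    intro g u hg hu hl
    have hg0 : g = 0 := hg
    subst hg0
    refine ⟨le_rfl, 0, 0, 0, by omega, ?_, le_rfl, ?_, by omega⟩
    · have := cnt_le H Bq u 0 0
      omega
    · have := hV.one (u.take 0)
      push_cast
      linarith
  | succ J ih =>
    intro g u hg hu hl
    obtain ⟨j, hj, hcase⟩ := hg
    have e1 : MS l L * (J + 1 + 1) = MS l L * (J + 1) + MS l L := by ring
    have hMS : MS l L = ML L + 4 * ML l := rfl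
    obtain ⟨b1, b2, b3⟩ := hB u hu (by omega) j hj
    have hju : j ≤ u.length := by omega
    have ha2u : a2 l L u ≤ u.length := by omega
    have hdl : MS l L * (J + 1) < (u.drop j).length := by
      rw [List.length_drop]
      omega
    have hdS : u.drop j ∈ SA := SA_drop hu j
    have key : ∀ g', ChL κ C b0 k l L (Fac Bq) J g' (u.drop j) → g' ≤ J ∧ ∃ e F S : ℕ, e ≤ MS l L * (J + 1) ∧
        cnt H Bq u 0 e ≤ cnt H Bq u 0 j + (J * (4 * ML l + H) + (J - g') * MS l L) ∧ J + 1 ≤ F + S ∧
        1 + (F : ℝ) ≤ V (u.take e) ∧ ML L * S ≤ e := by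
      intro g' hg'
      obtain ⟨hgJ, e, F, S, h1, h2, h3, h4, h5⟩ := ih g' (u.drop j) hg' hdS hdl
      have e2 : MS l L * (J + 1) = MS l L * J + MS l L := by ring
      have hcnt : cnt H Bq u 0 (j + e) ≤ cnt H Bq u 0 j + (J * (4 * ML l + H) + (J - g') * MS l L) := by
        rw [cnt_add H Bq u (Nat.zero_le j) (Nat.le_add_right j e)]
        have h6 := cnt_drop H Bq u j 0 e
        rw [Nat.add_zero] at h6
        rw [← h6]
        omega
      have htk : u.take (j + e) = u.take j ++ (u.drop j).take e := by rw [List.take_add]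
      have hge := hV.ge (u.take j) ((u.drop j).take e)
      rw [← htk] at hge
      obtain ⟨v1, v2⟩ := V_block hV hr ha2u b1
      rcases v2 with v2 | v2
      · refine ⟨hgJ, j + e, F, S + 1, by omega, hcnt, by omega, by linarith, ?_⟩
        have e3 : ML L * (S + 1) = ML L * S + ML L := by ring
        omega
      · refine ⟨hgJ, j + e, F + 1, S, by omega, hcnt, by omega, ?_, by omega⟩
        push_cast
        linarith
    rcases hcase with hc | ⟨hmid, g', rfl, hc⟩
    · obtain ⟨hgJ, e, F, S, h1, h2, h3, h4, h5⟩ := key g hc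
      refine ⟨by omega, e, F, S, h1, h2.trans ?_, h3, h4, h5⟩
      have h6 := cnt_le H Bq u 0 j
      have e4 : (J + 1 - g) = (J - g) + 1 := by omega
      rw [e4]
      have e5 : (J + 1) * (4 * ML l + H) = J * (4 * ML l + H) + (4 * ML l + H) := by ring
      have e6 : (J - g + 1) * MS l L = (J - g) * MS l L + MS l L := by ring
      omega
    · obtain ⟨hgJ, e, F, S, h1, h2, h3, h4, h5⟩ := key g' hc
      refine ⟨by omega, e, F, S, h1, h2.trans ?_, h3, h4, h5⟩
      have h6 := cnt_good (H := H) ha2u b3 hmid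
      have e4 : (J + 1 - (g' + 1)) = J - g' := by omega
      rw [e4]
      have e5 : (J + 1) * (4 * ML l + H) = J * (4 * ML l + H) + (4 * ML l + H) := by ring
      omega

end SSI

end HexObs
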