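import Pool.Agent.SSI.Cov

/-!
# SSI (self-similar limits): the bad windows of a good word have a small density (deterministic)
-/

set_option autoImplicit false

namespace HexObs

namespace SSI

open Finset TS SDN TIW NTA TIP NPR

/-- good chains of J long blocks behind all the grid points -/
def GoodL (κ : ℝ) (C b0 k l L : ℕ) (Bq : Set (List Bool)) (q J : ℕ) (t : List Bool) : Prop :=
  ∀ i : ℕ, i * ML L + MS l L * (J + 1) < t.length →
    ∃ g, g ≤ J ∧ q * (J - g) ≤ J ∧ ChL κ C b0 k l L (Fac Bq) J g (t.drop (i * ML L))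

variable {κ : ℝ} {C b0 k l L H : ℕ} {Bq : Set (List Bool)} {V : List Bool → ℝ} {r : ℕ}

/-- one chain behind a grid point: not short, few bad windows -/
lemma one_chain (hB : Bds κ C b0 k l L) (hV : AF r V) (hr : 8 * r ≤ 2 ^ L) {t : List Bool} (ht : t ∈ SA) {q J : ℕ}
    (hq : 1 ≤ q) (hG : GoodL κ C b0 k l L Bq q J t) {m b : ℝ} (hm : 0 < m) {Lm T0 : ℕ}
    (hup : ∀ x y : ℕ, x ≤ y → y ≤ t.length → (Lm : ℝ) ≤ (y : ℝ) - x → m * V (wd t x y) ≤ b * ((y : ℝ) - x))
    (hLT : Lm ≤ T0) (hTM : T0 ≤ MS l L * (J + 1)) (hT : b * T0 + m * (T0 / ML L) < m * (1 + J)) {i : ℕ}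
    (hi : i * ML L + MS l L * (J + 1) < t.length) :
    ∃ e : ℕ, T0 ≤ e ∧ e ≤ MS l L * J ∧
      (cnt H Bq t (i * ML L) (i * ML L + e) : ℝ) ≤ J * (4 * ML l + H) + (J : ℝ) / q * MS l L := by
  obtain ⟨g, hgJ, hqg, hch⟩ := hG i hi
  obtain ⟨u, hu⟩ : ∃ u, u = t.drop (i * ML L) := ⟨_, rfl⟩
  rw [← hu] at hch
  have huS : u ∈ SA := hu ▸ SA_drop ht _
  have hul : u.length = t.length - i * ML L := by rw [hu, List.length_drop]
  obtain ⟨-, e, F, S, h1, h2, h3, h4, h5⟩ := chain (H := H) hB hV hr J g u hch huS (by omega)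
  have hML : (0 : ℝ) < ML L := by
    have := NPR.ML_pos L
    exact_mod_cast (show 0 < ML L by omega)
  have e1 : MS l L * (J + 1) = MS l L * J + MS l L := by ring
  refine ⟨e, ?_, h1, ?_⟩
  · by_contra hlt
    push Not at hlt
    have a1 := hup (i * ML L) (i * ML L + T0) (by omega) (by omega) (by push_cast; rw [add_sub_cancel_left]; exact_mod_cast hLT)
    have a2 : wd t (i * ML L) (i * ML L + T0) = u.take e ++ (u.take T0).drop e := by
      have h6 := List.take_append_drop e (u.take T0)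
      rw [List.take_take, min_eq_left hlt.le] at h6
      rw [h6, hu]
      unfold wd
      rw [List.take_drop]
    have a3 : V (u.take e) ≤ V (wd t (i * ML L) (i * ML L + T0)) := by
      rw [a2]
      have h7 := hV.ge (u.take e) ((u.take T0).drop e)
      have h8 := hV.one ((u.take T0).drop e)
      linarith
    have a4 : (S : ℝ) ≤ T0 / ML L := by
      rw [le_div_iff₀ hML]
      have : ML L * S ≤ T0 := h5.trans hlt.le
      have h9 : ((ML L * S : ℕ) : ℝ) ≤ T0 := by exact_mod_cast this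
      push_cast at h9
      linarith
    have a5 : (J : ℝ) ≤ F + S := by exact_mod_cast h3
    have a6 := mul_le_mul_of_nonneg_left (h4.trans a3) hm.le
    have a7 := mul_le_mul_of_nonneg_left a4 hm.le
    have a8 := mul_le_mul_of_nonneg_left a5 hm.le
    push_cast at a1
    rw [add_sub_cancel_left] at a1
    linarith
  · have h6 := cnt_drop H Bq t (i * ML L) 0 e
    rw [← hu, Nat.add_zero] at h6
    rw [← h6]
    have h7 : ((cnt H Bq u 0 e : ℕ) : ℝ) ≤ ((J * (4 * ML l + H) + (J - g) * MS l L : ℕ) : ℝ) := by exact_mod_cast h2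
    refine h7.trans ?_
    push_cast
    have hq0 : (0 : ℝ) < q := by exact_mod_cast hq
    have h8 : (((J - g : ℕ)) : ℝ) ≤ J / q := by
      rw [le_div_iff₀ hq0]
      have h9 : ((q * (J - g) : ℕ) : ℝ) ≤ J := by exact_mod_cast hqg
      push_cast at h9
      push_cast
      linarith
    have h9 : (0 : ℝ) ≤ (MS l L : ℝ) := Nat.cast_nonneg _
    have h10 := mul_le_mul_of_nonneg_right h8 h9
    push_cast at h10
    linarith

/-- **the covering** -/
theorem cover (hB : Bds κ C b0 k l L) (hV : AF r V) (hr : 8 * r ≤ 2 ^ L) {t : List Bool} (ht : t ∈ SA) {q J : ℕ}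
    (hq : 1 ≤ q) (hG : GoodL κ C b0 k l L Bq q J t) {m b : ℝ} (hm : 0 < m) {Lm T0 : ℕ} (hT0 : 1 ≤ T0)
    (hup : ∀ x y : ℕ, x ≤ y → y ≤ t.length → (Lm : ℝ) ≤ (y : ℝ) - x → m * V (wd t x y) ≤ b * ((y : ℝ) - x))
    (hLT : Lm ≤ T0) (hTM : T0 ≤ MS l L * (J + 1)) (hT : b * T0 + m * (T0 / ML L) < m * (1 + J)) {ε : ℝ} (hε : 0 < ε)
    (hsm : (ML L : ℝ) + (J * (4 * ML l + H) + (J : ℝ) / q * MS l L) ≤ ε * T0) :
    ∀ (N x X : ℕ), X - x ≤ N → x ≤ X → X ≤ t.length →
      (cnt H Bq t x X : ℝ) ≤ ε * ((X : ℝ) - x) + (ML L + MS l L * (J + 1)) := by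
  intro N
  induction N with
  | zero =>
    intro x X h1 h2 h3
    have h4 : x = X := by omega
    subst h4
    have h5 := cnt_le H Bq t x x
    have h6 : cnt H Bq t x x = 0 := by omega
    rw [h6, sub_self]
    push_cast
    positivity
  | succ N ih =>
    intro x X h1 h2 h3
    have hML := NPR.ML_pos L
    have hML0 : (0 : ℝ) < ML L := by exact_mod_cast (show 0 < ML L by omega)
    -- the next grid point
    obtain ⟨i, hi⟩ : ∃ i, i = (x + ML L - 1) / ML L := ⟨_, rfl⟩
    have hi1 : x ≤ i * ML L := by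
      have h4 := Nat.div_add_mod (x + ML L - 1) (ML L)
      have h5 := Nat.mod_lt (x + ML L - 1) (show 0 < ML L by omega)
      rw [← hi] at h4
      have h6 : ML L * i = i * ML L := Nat.mul_comm _ _
      omega
    have hi2 : i * ML L < x + ML L := by
      have h4 := Nat.div_mul_le_self (x + ML L - 1) (ML L)
      rw [← hi] at h4
      omega
    rcases Nat.lt_or_ge (i * ML L + MS l L * (J + 1)) X with hX | hX
    · obtain ⟨e, he1, he2, he3⟩ := one_chain (H := H) hB hV hr ht hq hG hm hup hLT hTM hT (i := i) (by omega)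
      have e1 : MS l L * (J + 1) = MS l L * J + MS l L := by ring
      have heX : i * ML L + e ≤ X := by omega
      have h4 := ih (i * ML L + e) X (by omega) heX h3
      have h5 : cnt H Bq t x X = cnt H Bq t x (i * ML L) + (cnt H Bq t (i * ML L) (i * ML L + e) +
          cnt H Bq t (i * ML L + e) X) := by
        rw [← cnt_add H Bq t (Nat.le_add_right _ _) heX, ← cnt_add H Bq t hi1 (by omega)]
      have h6 : (cnt H Bq t x (i * ML L) : ℝ) ≤ ML L := by
        have h7 := cnt_le H Bq t x (i * ML L)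
        have h8 : cnt H Bq t x (i * ML L) ≤ ML L := by omega
        exact_mod_cast h8
      rw [h5]
      push_cast at h4 ⊢
      have h7 : (x : ℝ) ≤ i * ML L := by exact_mod_cast hi1
      have h8 : (T0 : ℝ) ≤ e := by exact_mod_cast he1
      have h9 := mul_le_mul_of_nonneg_left h8 hε.le
      have h10 := mul_le_mul_of_nonneg_left h7 hε.le
      linarith
    · have h4 := cnt_le H Bq t x X
      have h5 : cnt H Bq t x X ≤ ML L + MS l L * (J + 1) := by omega
      have h6 : (cnt H Bq t x X : ℝ) ≤ ((ML L + MS l L * (J + 1) : ℕ) : ℝ) := by exact_mod_cast h5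
      push_cast at h6
      have h7 : (0 : ℝ) ≤ (X : ℝ) - x := by
        have : (x : ℝ) ≤ X := by exact_mod_cast h2
        linarith
      have h8 : 0 ≤ ε * ((X : ℝ) - x) := mul_nonneg hε.le h7
      linarith

/-! ### words with a bad stretch -/

/-- a stretch of W letters with more than c bad windows -/
def BadW (H : ℕ) (Bq : Set (List Bool)) (W : ℕ) (c : ℝ) : Set (List Bool) :=
  {t | ∃ x, x + W + H ≤ t.length ∧ c < cnt H Bq t x (x + W)}

lemma cnt_app {t E : List Bool} {x y : ℕ} (h : y + H ≤ t.length) : cnt H Bq (t ++ E) x y = cnt H Bq t x y := by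
  classical
  unfold cnt
  congr 1
  refine Finset.filter_congr fun z hz => ?_
  rw [Finset.mem_Ico] at hz
  have e : wd (t ++ E) z (z + H) = wd t z (z + H) := by
    unfold wd
    rw [List.take_append_of_le_length (by omega)]
  rw [e]

lemma badW_app {W : ℕ} {c : ℝ} {A E : List Bool} (h : A ∈ BadW H Bq W c) : A ++ E ∈ BadW H Bq W c := by
  obtain ⟨x, h1, h2⟩ := h
  refine ⟨x, by rw [List.length_append]; omega, ?_⟩
  rwa [cnt_app (by omega)]

/-- stretches add up -/
lemma cnt_tile {t : List Bool} {W : ℕ} (hW : 1 ≤ W) {c : ℝ} (hc : 0 ≤ c) : ∀ (N Y : ℕ), Y ≤ N * W → Y + H ≤ t.length →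
    (∀ x, x + W ≤ Y → (cnt H Bq t x (x + W) : ℝ) ≤ c) → (cnt H Bq t 0 Y : ℝ) ≤ c / W * Y + W := by
  have hW0 : (0 : ℝ) < W := by exact_mod_cast hW
  intro N
  induction N with
  | zero =>
    intro Y h1 _ _
    have h2 : Y = 0 := by omega
    subst h2
    have h3 := cnt_le H Bq t 0 0
    have h4 : cnt H Bq t 0 0 = 0 := by omega
    rw [h4]
    simp
  | succ N ih =>
    intro Y h1 h2 h3
    rcases Nat.lt_or_ge Y W with h | h
    · have h4 := cnt_le H Bq t 0 Y
      have h5 : (cnt H Bq t 0 Y : ℝ) ≤ W := by exact_mod_cast (show cnt H Bq t 0 Y ≤ W by omega)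
      have h6 : 0 ≤ c / W * Y := by positivity
      linarith
    · have h4 := ih (Y - W) (by rw [Nat.succ_mul] at h1; omega) (by omega) (fun x hx => h3 x (by omega))
      have h5 := h3 (Y - W) (by omega)
      have h6 : cnt H Bq t 0 Y = cnt H Bq t 0 (Y - W) + cnt H Bq t (Y - W) (Y - W + W) := by
        rw [show Y - W + W = Y by omega]
        exact cnt_add H Bq t (Nat.zero_le _) (by omega)
      rw [h6]
      push_cast
      rw [Nat.cast_sub h] at h4
      have h7 : c / W * ((Y : ℝ) - W) = c / W * Y - c := by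
        field_simp
      rw [h7] at h4
      linarith

end SSI

end HexObs
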