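import Pool.Agent.SSI.Tame
import Pool.Agent.SSI.Rf
import Pool.Agent.IW.Crv
import Pool.Agent.SIM.LawS

/-!
# SSI (self-similar limits): the windows of the curve and the vertices of the walk
-/

set_option autoImplicit false

open MeasureTheory Filter Topology
open scoped Classical

namespace Pool.Agent.SSI

open Res Pool.Agent.IW.Res

open HexObs.SSI (dS HB LB PB Hr)

lemma curve_icurve {n : ℕ} (s : Fin n → Fin 3) : curve s = icurve n (Pool.Agent.IW.ext s) := by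
  ext u
  show ∑ j : Fin n, _ = ∑ j ∈ Finset.range n, _
  rw [Finset.sum_range]
  refine Finset.sum_congr rfl fun j _ => ?_
  rw [Pool.Agent.IW.ext_lt _ j.2]

/-- the curve is near the vertices -/
lemma crv_near {n : ℕ} (hn : 1 ≤ n) (s : Fin n → Fin 3) (u : unitInterval) :
    ‖curve s u * (((n : ℝ) ^ (3 / 4 : ℝ) : ℝ) : ℂ) - pos s ⌊(u : ℝ) * n⌋₊‖ ≤ 1 := by
  have hn0 : (0 : ℝ) < n := by exact_mod_cast hn
  have hs := NTSF.size_pos hn
  have hp : (0 : ℝ) < (n : ℝ) ^ (3 / 4 : ℝ) := Real.rpow_pos_of_pos hn0 _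
  have h1 := HexObs.SIM.crv_near hn s u
  have e1 : Pool.Agent.IW.tm n n le_rfl u = u := by
    apply Subtype.ext
    rw [Pool.Agent.IW.tm_coe, div_self hn0.ne', mul_one]
  have e2 : curve s u * (((n : ℝ) ^ (3 / 4 : ℝ) : ℝ) : ℂ) = (Pool.Agent.NTS.Res.size n : ℂ) * Pool.Agent.NTS.Res.curve s u := by
    rw [curve_icurve, Pool.Agent.IW.icurve_eq hn le_rfl s u, e1]
    have : (((n : ℝ) ^ (3 / 4 : ℝ) : ℝ) : ℂ) ≠ 0 := by exact_mod_cast hp.ne'
    push_cast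
    field_simp
  have hsc : (Pool.Agent.NTS.Res.size n : ℂ) ≠ 0 := by exact_mod_cast hs.ne'
  have e3 : (Pool.Agent.NTS.Res.size n : ℂ) * Pool.Agent.NTS.Res.curve s u - pos s ⌊(u : ℝ) * n⌋₊ =
      (Pool.Agent.NTS.Res.size n : ℂ) * (Pool.Agent.NTS.Res.curve s u -
        Pool.Agent.NTS.Res.pos s ⌊(u : ℝ) * n⌋₊ / Pool.Agent.NTS.Res.size n) := by
    have e4 : pos s ⌊(u : ℝ) * n⌋₊ = Pool.Agent.NTS.Res.pos s ⌊(u : ℝ) * n⌋₊ := rfl
    rw [e4, mul_sub, mul_div_cancel₀ _ hsc]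
  rw [e2, e3, norm_mul, Complex.norm_real, Real.norm_of_nonneg hs.le]
  calc Pool.Agent.NTS.Res.size n * ‖_‖ ≤ Pool.Agent.NTS.Res.size n * (1 / Pool.Agent.NTS.Res.size n) :=
        mul_le_mul_of_nonneg_left h1 hs.le
    _ = 1 := by field_simp

/-- the letter of the time t of a window -/
noncomputable def lt (n : ℕ) (x r t : ℝ) : ℕ := ⌊n * x + r * t⌋₊

/-- the first letter of the window -/
noncomputable def zz (n : ℕ) (x r T : ℝ) : ℕ := ⌊n * x - r * T⌋₊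

section

variable {n : ℕ} {x r T : ℝ}

lemma lt_mono (hr : 0 ≤ r) {u v : ℝ} (h : u ≤ v) : lt n x r u ≤ lt n x r v :=
  Nat.floor_le_floor (by nlinarith)

lemma zz_le (hr : 0 ≤ r) {u : ℝ} (hu : -T ≤ u) : zz n x r T ≤ lt n x r u := Nat.floor_le_floor (by nlinarith)

lemma lt_le (hr : 0 ≤ r) (_h0 : r * T ≤ n * x) {u : ℝ} (hu : u ≤ T) : n * x + r * u ≤ (zz n x r T + Hr T r : ℕ) - 2 ∧
    lt n x r u ≤ zz n x r T + Hr T r := by
  have h1 := Nat.lt_floor_add_one (n * x - r * T)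
  have h2 := Nat.lt_floor_add_one (2 * T * r)
  have h3 : n * x + r * u ≤ n * x + r * T := by nlinarith
  have h4 : n * x + r * u ≤ (zz n x r T + Hr T r : ℕ) - 2 := by
    unfold zz Hr
    push_cast
    linarith
  refine ⟨h4, ?_⟩
  unfold lt
  refine Nat.floor_le_of_le ?_
  linarith

/-- distances in a window and distances in the walk -/
lemma win_near (hn : 1 ≤ n) (s : Fin n → Fin 3) (hr : 0 < r) (h0 : r * T ≤ n * x) (h1 : zz n x r T + Hr T r ≤ n) {u v : ℝ}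
    (hu1 : -T ≤ u) (hu2 : u ≤ T) (hv1 : -T ≤ v) (hv2 : v ≤ T) :
    |‖win (curve s) x (r / n) v - win (curve s) x (r / n) u‖ * r ^ (3 / 4 : ℝ) - dS s (lt n x r u) (lt n x r v)| ≤ 2 := by
  have hn0 : (0 : ℝ) < n := by exact_mod_cast hn
  have hp : (0 : ℝ) < (n : ℝ) ^ (3 / 4 : ℝ) := Real.rpow_pos_of_pos hn0 _
  have hrp : (0 : ℝ) < r ^ (3 / 4 : ℝ) := Real.rpow_pos_of_pos hr _
  have hin : ∀ w : ℝ, -T ≤ w → w ≤ T → x + r / n * w ∈ Set.Icc (0 : ℝ) 1 := by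
    intro w hw1 hw2
    have e : x + r / n * w = (n * x + r * w) / n := by field_simp
    rw [e]
    constructor
    · apply div_nonneg _ hn0.le
      nlinarith
    · rw [div_le_one hn0]
      have h2 := (lt_le hr.le h0 hw2).1
      have h3 : ((zz n x r T + Hr T r : ℕ) : ℝ) ≤ n := by exact_mod_cast h1
      linarith
  have hfl : ∀ w : ℝ, ∀ hw : x + r / n * w ∈ Set.Icc (0 : ℝ) 1,
      ⌊((⟨x + r / n * w, hw⟩ : unitInterval) : ℝ) * n⌋₊ = lt n x r w := by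
    intro w hw
    unfold lt
    congr 1
    show (x + r / n * w) * n = _
    field_simp
  have key : win (curve s) x (r / n) v - win (curve s) x (r / n) u =
      (curve s ⟨x + r / n * v, hin v hv1 hv2⟩ - curve s ⟨x + r / n * u, hin u hu1 hu2⟩) / (((r / n) ^ (3 / 4 : ℝ) : ℝ) : ℂ) := by
    show (curve s (Set.projIcc 0 1 zero_le_one (x + r / n * v)) - curve s (Set.projIcc 0 1 zero_le_one x)) / _ -
      (curve s (Set.projIcc 0 1 zero_le_one (x + r / n * u)) - curve s (Set.projIcc 0 1 zero_le_one x)) / _ = _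
    rw [Set.projIcc_of_mem zero_le_one (hin v hv1 hv2), Set.projIcc_of_mem zero_le_one (hin u hu1 hu2), ← sub_div]
    congr 1
    ring
  have h2 := crv_near hn s ⟨x + r / n * v, hin v hv1 hv2⟩
  have h3 := crv_near hn s ⟨x + r / n * u, hin u hu1 hu2⟩
  rw [hfl v (hin v hv1 hv2)] at h2
  rw [hfl u (hin u hu1 hu2)] at h3
  have hdiv : (r / n) ^ (3 / 4 : ℝ) = r ^ (3 / 4 : ℝ) / (n : ℝ) ^ (3 / 4 : ℝ) := Real.div_rpow hr.le hn0.le _
  have e4 : ‖win (curve s) x (r / n) v - win (curve s) x (r / n) u‖ * r ^ (3 / 4 : ℝ) =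
      ‖curve s ⟨x + r / n * v, hin v hv1 hv2⟩ * (((n : ℝ) ^ (3 / 4 : ℝ) : ℝ) : ℂ) -
        curve s ⟨x + r / n * u, hin u hu1 hu2⟩ * (((n : ℝ) ^ (3 / 4 : ℝ) : ℝ) : ℂ)‖ := by
    rw [key, ← sub_mul, norm_div, norm_mul, Complex.norm_real, Complex.norm_real, Real.norm_of_nonneg hp.le, hdiv,
      Real.norm_of_nonneg (by positivity)]
    field_simp
  rw [e4]
  have e5 : dS s (lt n x r u) (lt n x r v) = ‖pos s (lt n x r v) - pos s (lt n x r u)‖ := rfl
  rw [e5]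
  refine (abs_norm_sub_norm_le _ _).trans ?_
  have e6 : ∀ a b c d : ℂ, a - b - (c - d) = (a - c) - (b - d) := fun a b c d => by ring
  rw [e6]
  exact (norm_sub_le _ _).trans (by linarith)

end

/-- **too fast** -/
theorem bh_hb {α M T : ℝ} (hα : 0 < α) (hα2 : α < 3 / 4) (hM : 0 < M) (h : ℝ) (hh : 0 < h) : ∃ r0 : ℝ, 1 ≤ r0 ∧
    ∀ (n : ℕ) (r x : ℝ) (s : Fin n → Fin 3), 1 ≤ n → r0 ≤ r → r * T ≤ n * x → zz n x r T + Hr T r ≤ n →
    win (curve s) x (r / n) ∈ BH (4 * M) α T h →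
      HB (M * r ^ (3 / 4 : ℝ)) r α (dS s) (zz n x r T) (zz n x r T + Hr T r) := by
  obtain ⟨r1, hr1⟩ : ∃ r1 : ℝ, r1 = (1 / (M * h ^ α)) ^ (4 / 3 : ℝ) := ⟨_, rfl⟩
  refine ⟨max 1 (max (2 / h) r1), le_max_left _ _, ?_⟩
  rintro n r x s hn hr h0 h1 ⟨u, v, h2, h3, h4, h5⟩
  have hr1' : 1 ≤ r := (le_max_left _ _).trans hr
  have hr2 : 2 / h ≤ r := (le_max_left _ _).trans ((le_max_right _ _).trans hr)
  have hr3 : r1 ≤ r := (le_max_right _ _).trans ((le_max_right _ _).trans hr)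
  have hr0 : 0 < r := by linarith
  have huv : 0 < v - u := by linarith
  have h6 := win_near hn s hr0 h0 h1 (u := u) (v := v) h2 (by linarith) (by linarith) h3
  have hvu : 0 < (v - u) ^ α := by positivity
  have h34 : 0 < r ^ (3 / 4 : ℝ) := by positivity
  have hrr : 1 / (M * h ^ α) ≤ r ^ (3 / 4 : ℝ) := by
    have h7 : ((1 / (M * h ^ α)) ^ (4 / 3 : ℝ)) ^ (3 / 4 : ℝ) = 1 / (M * h ^ α) := by
      rw [← Real.rpow_mul (by positivity)]
      norm_num
    rw [← h7, ← hr1]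
    exact Real.rpow_le_rpow (by rw [hr1]; positivity) hr3 (by norm_num)
  have hbig : 1 ≤ M * (v - u) ^ α * r ^ (3 / 4 : ℝ) := by
    rw [div_le_iff₀ (by positivity)] at hrr
    have h8 : h ^ α ≤ (v - u) ^ α := Real.rpow_le_rpow hh.le h4 hα.le
    calc 1 ≤ r ^ (3 / 4 : ℝ) * (M * h ^ α) := hrr
      _ ≤ r ^ (3 / 4 : ℝ) * (M * (v - u) ^ α) := by gcongr
      _ = _ := by ring
  have h7 : 2 ≤ r * (v - u) := by
    rw [div_le_iff₀ hh] at hr2
    nlinarith
  have hp0 : 0 ≤ n * x + r * u := by nlinarith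
  have hf1 := Nat.floor_le hp0
  have hf2 := Nat.lt_floor_add_one (n * x + r * u)
  have hp1 : 0 ≤ n * x + r * v := by nlinarith
  have hf3 := Nat.floor_le hp1
  have hf4 := Nat.lt_floor_add_one (n * x + r * v)
  have hij : lt n x r u < lt n x r v := by
    have : ((lt n x r u : ℕ) : ℝ) < lt n x r v := by
      unfold lt
      linarith
    exact_mod_cast this
  refine ⟨lt n x r u, lt n x r v, zz_le hr0.le h2, hij, (lt_le hr0.le h0 h3).2, ?_⟩
  have h8 : ((lt n x r v : ℕ) : ℝ) - lt n x r u ≤ 2 * (r * (v - u)) := by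
    unfold lt
    linarith
  have h9 : 0 ≤ ((lt n x r v : ℕ) : ℝ) - lt n x r u := by
    have : ((lt n x r u : ℕ) : ℝ) < lt n x r v := by exact_mod_cast hij
    linarith
  have h10 : ((((lt n x r v : ℕ) : ℝ) - lt n x r u) / r) ^ α ≤ 2 * (v - u) ^ α := by
    have h11 : (((lt n x r v : ℕ) : ℝ) - lt n x r u) / r ≤ 2 * (v - u) := by
      rw [div_le_iff₀ hr0]
      linarith
    refine (Real.rpow_le_rpow (by positivity) h11 hα.le).trans ?_
    rw [Real.mul_rpow (by norm_num) huv.le]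
    have h12 : (2 : ℝ) ^ α ≤ 2 ^ (1 : ℝ) := Real.rpow_le_rpow_of_exponent_le (by norm_num) (by linarith)
    rw [Real.rpow_one] at h12
    exact mul_le_mul_of_nonneg_right h12 hvu.le
  have h11 := (abs_le.1 h6).2
  have h12 : 4 * M * (v - u) ^ α * r ^ (3 / 4 : ℝ) < ‖win (curve s) x (r / n) v - win (curve s) x (r / n) u‖ * r ^ (3 / 4 : ℝ) :=
    mul_lt_mul_of_pos_right h5 h34
  calc M * r ^ (3 / 4 : ℝ) * ((((lt n x r v : ℕ) : ℝ) - lt n x r u) / r) ^ α ≤ M * r ^ (3 / 4 : ℝ) * (2 * (v - u) ^ α) := by gcongr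
    _ ≤ _ := by linarith

/-- **too slow** -/
theorem bl_lb {β c T : ℝ} (hβ : 3 / 4 < β) (hc : 0 < c) (h : ℝ) (hh : 0 < h) : ∃ r0 : ℝ, 1 ≤ r0 ∧
    ∀ (n : ℕ) (r x : ℝ) (s : Fin n → Fin 3), 1 ≤ n → r0 ≤ r → r * T ≤ n * x → zz n x r T + Hr T r ≤ n →
    win (curve s) x (r / n) ∈ BL (c / (2 * 2 ^ β)) β T h →
      LB (c * r ^ (3 / 4 : ℝ)) r β (dS s) (zz n x r T) (zz n x r T + Hr T r) := by
  have hβ0 : 0 < β := by linarith
  obtain ⟨c', hc'⟩ : ∃ c' : ℝ, c' = c / (2 * 2 ^ β) := ⟨_, rfl⟩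
  have hc'0 : 0 < c' := by rw [hc']; positivity
  obtain ⟨r1, hr1⟩ : ∃ r1 : ℝ, r1 = (2 / (c' * h ^ β)) ^ (4 / 3 : ℝ) := ⟨_, rfl⟩
  rw [← hc']
  refine ⟨max 1 (max (4 / h) r1), le_max_left _ _, ?_⟩
  rintro n r x s hn hr h0 h1 ⟨u, v, h2, h3, h4, h4', h5⟩
  have hr1' : 1 ≤ r := (le_max_left _ _).trans hr
  have hr2 : 4 / h ≤ r := (le_max_left _ _).trans ((le_max_right _ _).trans hr)
  have hr3 : r1 ≤ r := (le_max_right _ _).trans ((le_max_right _ _).trans hr)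
  have hr0 : 0 < r := by linarith
  have huv : 0 < v - u := by linarith
  have hvu : 0 < (v - u) ^ β := by positivity
  have h34 : 0 < r ^ (3 / 4 : ℝ) := by positivity
  have hrr : 2 / (c' * h ^ β) ≤ r ^ (3 / 4 : ℝ) := by
    have h7 : ((2 / (c' * h ^ β)) ^ (4 / 3 : ℝ)) ^ (3 / 4 : ℝ) = 2 / (c' * h ^ β) := by
      rw [← Real.rpow_mul (by positivity)]
      norm_num
    rw [← h7, ← hr1]
    exact Real.rpow_le_rpow (by rw [hr1]; positivity) hr3 (by norm_num)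
  have hbig : 2 ≤ c' * (v - u) ^ β * r ^ (3 / 4 : ℝ) := by
    rw [div_le_iff₀ (by positivity)] at hrr
    have h8 : h ^ β ≤ (v - u) ^ β := Real.rpow_le_rpow hh.le h4 hβ0.le
    calc 2 ≤ r ^ (3 / 4 : ℝ) * (c' * h ^ β) := hrr
      _ ≤ r ^ (3 / 4 : ℝ) * (c' * (v - u) ^ β) := by gcongr
      _ = _ := by ring
  have h7 : 4 ≤ r * (v - u) := by
    rw [div_le_iff₀ hh] at hr2
    nlinarith
  have hp0 : 0 ≤ n * x + r * u := by nlinarith
  have hf1 := Nat.floor_le hp0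
  have hf2 := Nat.lt_floor_add_one (n * x + r * u)
  have hp1 : 0 ≤ n * x + r * v := by nlinarith
  have hf3 := Nat.floor_le hp1
  have hf4 := Nat.lt_floor_add_one (n * x + r * v)
  obtain ⟨i, hi⟩ : ∃ i : ℕ, i = lt n x r u + 1 := ⟨_, rfl⟩
  obtain ⟨j, hj⟩ : ∃ j : ℕ, j = lt n x r v := ⟨_, rfl⟩
  have hi1 : n * x + r * u ≤ i := by
    rw [hi]
    push_cast
    exact hf2.le
  have hi2 : (i : ℝ) ≤ n * x + r * u + 1 := by
    rw [hi]
    push_cast
    have : ((lt n x r u : ℕ) : ℝ) ≤ n * x + r * u := hf1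
    linarith
  have hj1 : (j : ℝ) ≤ n * x + r * v := by rw [hj]; exact hf3
  have hj2 : n * x + r * v < j + 1 := by rw [hj]; exact hf4
  have hij : i < j := by
    have : (i : ℝ) < j := by linarith
    exact_mod_cast this
  refine ⟨i, j, ?_, hij, ?_, ?_, ?_⟩
  · rw [hi]
    exact (zz_le hr0.le h2).trans (Nat.le_succ _)
  · rw [hj]
    exact (lt_le hr0.le h0 h3).2
  · have : r * (v - u) ≤ r * 1 := mul_le_mul_of_nonneg_left h4' hr0.le
    linarith
  · intro l l' q1 q2 q3 q4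
    have hw : ∀ l : ℕ, i ≤ l → l ≤ j → ∃ w : ℝ, u ≤ w ∧ w ≤ v ∧ lt n x r w = l := by
      intro l p1 p2
      have p1' : (i : ℝ) ≤ l := by exact_mod_cast p1
      have p2' : (l : ℝ) ≤ j := by exact_mod_cast p2
      refine ⟨((l : ℝ) - n * x) / r, ?_, ?_, ?_⟩
      · rw [le_div_iff₀ hr0]
        linarith
      · rw [div_le_iff₀ hr0]
        linarith
      · unfold lt
        have e : (n : ℝ) * x + r * (((l : ℝ) - n * x) / r) = l := by
          field_simp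
          ring
        rw [e, Nat.floor_natCast]
    obtain ⟨w, w1, w2, w3⟩ := hw l q1 q2
    obtain ⟨w', w1', w2', w3'⟩ := hw l' q3 q4
    have h6 := win_near hn s hr0 h0 h1 (u := w) (v := w') (by linarith) (by linarith) (by linarith) (by linarith)
    rw [w3, w3'] at h6
    have h8 := (abs_le.1 h6).1
    have h9 := h5 w' w w1' w2' w1 w2
    have h10 : ‖win (curve s) x (r / n) w' - win (curve s) x (r / n) w‖ * r ^ (3 / 4 : ℝ) ≤ c' * (v - u) ^ β * r ^ (3 / 4 : ℝ) :=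
      mul_le_mul_of_nonneg_right h9.le h34.le
    have h11 : (v - u) ^ β ≤ 2 ^ β * (((j : ℝ) - i) / r) ^ β := by
      have h13 : 0 ≤ (j : ℝ) - i := by
        have : (i : ℝ) < j := by exact_mod_cast hij
        linarith
      rw [← Real.mul_rpow (by norm_num) (by positivity)]
      refine Real.rpow_le_rpow huv.le ?_ hβ0.le
      rw [← mul_div_assoc, le_div_iff₀ hr0]
      linarith
    calc dS s l l' ≤ 2 * (c' * (v - u) ^ β * r ^ (3 / 4 : ℝ)) := by linarith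
      _ ≤ 2 * (c' * (2 ^ β * (((j : ℝ) - i) / r) ^ β) * r ^ (3 / 4 : ℝ)) := by gcongr
      _ = c * r ^ (3 / 4 : ℝ) * (((j : ℝ) - i) / r) ^ β := by
          rw [hc']
          field_simp

/-- **a near touch** -/
theorem bp_pb {η e T : ℝ} (hη : 0 < η) (he : 0 < e) : ∃ r0 : ℝ, 1 ≤ r0 ∧
    ∀ (n : ℕ) (r x : ℝ) (s : Fin n → Fin 3), 1 ≤ n → r0 ≤ r → r * T ≤ n * x → zz n x r T + Hr T r ≤ n →
    win (curve s) x (r / n) ∈ BP η (e / 2) T →
      PB (η / 2 * r ^ (3 / 4 : ℝ)) (e * r ^ (3 / 4 : ℝ)) (dS s) (zz n x r T) (zz n x r T + Hr T r) := by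
  obtain ⟨r1, hr1⟩ : ∃ r1 : ℝ, r1 = (4 / η + 4 / e) ^ (4 / 3 : ℝ) := ⟨_, rfl⟩
  refine ⟨max 1 r1, le_max_left _ _, ?_⟩
  rintro n r x s hn hr h0 h1 ⟨u, w, v, h2, h3, h4, h5, h6, h7, h8⟩
  have hr1' : 1 ≤ r := (le_max_left _ _).trans hr
  have hr3 : r1 ≤ r := (le_max_right _ _).trans hr
  have hr0 : 0 < r := by linarith
  have h34 : 0 < r ^ (3 / 4 : ℝ) := by positivity
  have hrr : 4 / η + 4 / e ≤ r ^ (3 / 4 : ℝ) := by
    have h7 : ((4 / η + 4 / e) ^ (4 / 3 : ℝ)) ^ (3 / 4 : ℝ) = 4 / η + 4 / e := by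
      rw [← Real.rpow_mul (by positivity)]
      norm_num
    rw [← h7, ← hr1]
    exact Real.rpow_le_rpow (by rw [hr1]; positivity) hr3 (by norm_num)
  have hb1 : 4 ≤ η * r ^ (3 / 4 : ℝ) := by
    have : 4 / η ≤ r ^ (3 / 4 : ℝ) := le_trans (by have : 0 < 4 / e := by positivity
                                                   linarith) hrr
    rw [div_le_iff₀ hη] at this
    linarith
  have hb2 : 4 ≤ e * r ^ (3 / 4 : ℝ) := by
    have : 4 / e ≤ r ^ (3 / 4 : ℝ) := le_trans (by have : 0 < 4 / η := by positivity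
                                                   linarith) hrr
    rw [div_le_iff₀ he] at this
    linarith
  have d1 := win_near hn s hr0 h0 h1 (u := u) (v := w) h2 (by linarith) (by linarith) (by linarith)
  have d2 := win_near hn s hr0 h0 h1 (u := w) (v := v) (by linarith) (by linarith) (by linarith) h5
  have d3 := win_near hn s hr0 h0 h1 (u := u) (v := v) h2 (by linarith) (by linarith) h5
  refine ⟨lt n x r u, lt n x r w, lt n x r v, zz_le hr0.le h2, lt_mono hr0.le h3, lt_mono hr0.le h4,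
    (lt_le hr0.le h0 h5).2, ?_, ?_, ?_⟩
  · have := (abs_le.1 d1).2
    have h9 := mul_lt_mul_of_pos_right h6 h34
    linarith
  · have := (abs_le.1 d2).2
    have h9 := mul_lt_mul_of_pos_right h7 h34
    linarith
  · have := (abs_le.1 d3).1
    have h9 := mul_lt_mul_of_pos_right h8 h34
    linarith

end Pool.Agent.SSI
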