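import Pool.Agent.SSI.Hol

/-!
# SSI (self-similar limits): the class of the slow pieces, all scales at once, and the near touches

* `lowA` : a piece of j letters with a displacement of order at most j ^ β, β > 3 / 4;
* `pinB` : near touches.
-/

set_option autoImplicit false

namespace HexObs

namespace SSI

open Finset TS SDN TIW NTA TIP NTW NPR NPR.Fast

open scoped ENNReal

lemma dW_succ (t : List Bool) (i : ℕ) : 1 ≤ dW t i (i + 1) := by
  unfold dW
  have e : vx oo up t (i + 1) - vx oo up t i = dx up t i := by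
    have : vx oo up t (i + 1) = vx oo up t i + dx up t i := rfl
    rw [this, add_sub_cancel_left]
  have key : ∀ d ∈ dirs, 1 ≤ hn d := by decide
  rw [e]
  exact_mod_cast key _ (dx_mem up_dirs t i)

/-- the scale of a number of letters -/
lemma low_num {β : ℝ} (hβ : 3 / 4 < β) : ∃ (p : ℕ) (C1 : ℝ), 1 ≤ p ∧ 0 < C1 ∧ ∀ (L : ℕ) (h : ℝ), 0 < h → h ≤ PW.mZ (2 ^ L) →
    ∃ a : ℕ, a ≤ L ∧ 2 ^ L * (h / PW.mZ (2 ^ L)) ^ β ≤ C1 * (2 : ℝ) ^ ((L : ℝ) - a - (a / p : ℕ)) ∧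
      (PW.mZ (2 ^ (L - a)) / 8 ≤ h ∨ a = L) := by
  obtain ⟨cl, hcl, hlo⟩ := VF.mLow VF.sharpZ
  obtain ⟨cu, hcu, hup⟩ := mup_pos
  obtain ⟨p, hp⟩ := exists_nat_ge (1 / (4 / 3 * β - 1))
  have hκ : 0 < 4 / 3 * β - 1 := by linarith
  have hp0 : (0 : ℝ) < p := lt_of_lt_of_le (by positivity) hp
  have hp1 : 1 ≤ p := by exact_mod_cast hp0
  have hβ0 : 0 < β := by linarith
  obtain ⟨D, hD⟩ : ∃ D : ℝ, D = max 1 (cu * (2 : ℝ) ^ (4 / 3 : ℝ) / cl) := ⟨_, rfl⟩
  have hD1 : 1 ≤ D := by rw [hD]; exact le_max_left _ _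
  have hD0 : 0 < D := by linarith
  refine ⟨p, D ^ β, hp1, by positivity, fun L h hh hhL => ?_⟩
  have hmL : 0 < PW.mZ (2 ^ L) := mz_pos L
  -- the ratio
  have key : ∀ a : ℕ, a ≤ L → (a = 0 ∨ h < PW.mZ (2 ^ (L - (a - 1)))) → h / PW.mZ (2 ^ L) ≤ D * (2 : ℝ) ^ (-(4 / 3) * (a : ℝ)) := by
    intro a haL ha
    rcases ha with ha | ha
    · subst ha
      have h1 : h / PW.mZ (2 ^ L) ≤ 1 := (div_le_one hmL).2 hhL
      have h2 : (2 : ℝ) ^ (-(4 / 3) * ((0 : ℕ) : ℝ)) = 1 := by norm_num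
      rw [h2, mul_one]
      linarith
    · rcases Nat.eq_zero_or_pos a with h0 | h0
      · subst h0
        have h1 : h / PW.mZ (2 ^ L) ≤ 1 := (div_le_one hmL).2 hhL
        have h2 : (2 : ℝ) ^ (-(4 / 3) * ((0 : ℕ) : ℝ)) = 1 := by norm_num
        rw [h2, mul_one]
        linarith
      · have h1 := hup (L - (a - 1))
        have h2 := hlo L
        have h3 : ((L - (a - 1) : ℕ) : ℝ) = (L : ℝ) - a + 1 := by
          have : L - (a - 1) + a = L + 1 := by omega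
          have h4 : ((L - (a - 1) + a : ℕ) : ℝ) = ((L + 1 : ℕ) : ℝ) := by rw [this]
          push_cast at h4 ⊢
          linarith
        rw [h3] at h1
        have h5 : (2 : ℝ) ^ (4 / 3 * ((L : ℝ) - a + 1)) = 2 ^ (4 / 3 * (L : ℝ)) * (2 ^ (4 / 3 : ℝ) * 2 ^ (-(4 / 3) * (a : ℝ))) := by
          rw [← Real.rpow_add (by norm_num), ← Real.rpow_add (by norm_num)]
          congr 1
          ring
        rw [div_le_iff₀ hmL]
        have h6 : cu * (2 : ℝ) ^ (4 / 3 : ℝ) / cl ≤ D := by rw [hD]; exact le_max_right _ _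
        have h7 : (0 : ℝ) < 2 ^ (-(4 / 3) * (a : ℝ)) := by positivity
        calc h ≤ PW.mZ (2 ^ (L - (a - 1))) := ha.le
          _ ≤ cu * 2 ^ (4 / 3 * ((L : ℝ) - a + 1)) := h1
          _ = cu * (2 : ℝ) ^ (4 / 3 : ℝ) / cl * 2 ^ (-(4 / 3) * (a : ℝ)) * (cl * 2 ^ (4 / 3 * (L : ℝ))) := by
              rw [h5]
              field_simp
          _ ≤ D * 2 ^ (-(4 / 3) * (a : ℝ)) * PW.mZ (2 ^ L) := by
              refine mul_le_mul (mul_le_mul_of_nonneg_right h6 h7.le) h2 (by positivity) (by positivity)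
  have key2 : ∀ a : ℕ, h / PW.mZ (2 ^ L) ≤ D * (2 : ℝ) ^ (-(4 / 3) * (a : ℝ)) →
      2 ^ L * (h / PW.mZ (2 ^ L)) ^ β ≤ D ^ β * (2 : ℝ) ^ ((L : ℝ) - a - (a / p : ℕ)) := by
    intro a ha
    have h1 : (h / PW.mZ (2 ^ L)) ^ β ≤ (D * (2 : ℝ) ^ (-(4 / 3) * (a : ℝ))) ^ β :=
      Real.rpow_le_rpow (by positivity) ha hβ0.le
    rw [Real.mul_rpow hD0.le (by positivity), ← Real.rpow_mul (by norm_num)] at h1
    have h2 : (2 : ℝ) ^ (-(4 / 3) * (a : ℝ) * β) ≤ 2 ^ (-(a : ℝ) - (a / p : ℕ)) := by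
      refine Real.rpow_le_rpow_of_exponent_le (by norm_num) ?_
      have h3 : ((a / p : ℕ) : ℝ) ≤ (a : ℝ) / p := Nat.cast_div_le
      have h4 : (a : ℝ) / p ≤ (4 / 3 * β - 1) * a := by
        rw [div_le_iff₀ hp0]
        have h5 : 1 ≤ (4 / 3 * β - 1) * p := by
          rw [div_le_iff₀ hκ] at hp
          linarith
        have h6 : (0 : ℝ) ≤ a := Nat.cast_nonneg a
        nlinarith
      linarith
    calc 2 ^ L * (h / PW.mZ (2 ^ L)) ^ β ≤ 2 ^ L * (D ^ β * 2 ^ (-(a : ℝ) - (a / p : ℕ))) := by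
          refine mul_le_mul_of_nonneg_left (h1.trans ?_) (by positivity)
          exact mul_le_mul_of_nonneg_left h2 (by positivity)
      _ = D ^ β * (2 ^ (L : ℝ) * 2 ^ (-(a : ℝ) - (a / p : ℕ))) := by
          rw [Real.rpow_natCast]
          ring
      _ = _ := by
          rw [← Real.rpow_add (by norm_num)]
          congr 2
          ring
  -- the choice of a
  classical
  by_cases hex : ∃ a, a ≤ L ∧ PW.mZ (2 ^ (L - a)) / 8 ≤ h
  · obtain ⟨a, ⟨ha1, ha2⟩, ha3⟩ : ∃ a, (a ≤ L ∧ PW.mZ (2 ^ (L - a)) / 8 ≤ h) ∧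
        ∀ a', a' < a → ¬ (a' ≤ L ∧ PW.mZ (2 ^ (L - a')) / 8 ≤ h) :=
      ⟨Nat.find hex, Nat.find_spec hex, fun i hi => Nat.find_min hex hi⟩
    refine ⟨a, ha1, key2 a (key a ha1 ?_), Or.inl ha2⟩
    rcases Nat.eq_zero_or_pos a with h0 | h0
    · exact Or.inl h0
    · right
      have h1 := ha3 (a - 1) (by omega)
      rw [not_and, not_le] at h1
      have h2 := h1 (by omega)
      have h3 : 0 < PW.mZ (2 ^ (L - (a - 1))) := mz_pos _
      linarith
  · push Not at hex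
    refine ⟨L, le_rfl, key2 L (key L le_rfl ?_), Or.inr rfl⟩
    rcases Nat.eq_zero_or_pos L with h0 | h0
    · exact Or.inl h0
    · right
      have h2 := hex (L - 1) (by omega)
      have h3 : 0 < PW.mZ (2 ^ (L - (L - 1))) := mz_pos _
      linarith

/-- the terms of the sum over the scales -/
lemma low_term {A B X : ℝ} {p q' v0 a : ℕ} (hA : 0 ≤ A) (hB : 0 < B) (hp : 1 ≤ p) (hq : 2 * B ≤ 2 ^ q')
    (hX : X = A * B ^ 16 * 2 ^ (p * q') / 2 ^ (p * q' * v0)) :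
    A * B ^ (16 + a) / 2 ^ (p * q' * (a / p + v0)) ≤ X * (1 / 2) ^ a := by
  have h1 : B ^ a * 2 ^ a ≤ (2 : ℝ) ^ (q' * a) := by
    rw [← mul_pow, pow_mul]
    exact pow_le_pow_left₀ (by positivity) (by linarith) a
  have h2 : (2 : ℝ) ^ (q' * a) ≤ 2 ^ (p * q') * 2 ^ (p * q' * (a / p)) := by
    rw [← pow_add]
    refine pow_le_pow_right₀ (by norm_num) ?_
    have h3 := Nat.div_add_mod a p
    have h4 := Nat.mod_lt a (show 0 < p by omega)
    have h5 : a ≤ p + p * (a / p) := by omega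
    calc q' * a ≤ q' * (p + p * (a / p)) := Nat.mul_le_mul_left _ h5
      _ = _ := by ring
  have h3 : 0 < (2 : ℝ) ^ a := by positivity
  have h4 : 0 < (2 : ℝ) ^ (p * q' * (a / p)) := by positivity
  have h5 : 0 < (2 : ℝ) ^ (p * q' * v0) := by positivity
  have h6 := h1.trans h2
  rw [hX, mul_add (p * q'), pow_add, pow_add, one_div, inv_pow, ← div_eq_mul_inv, div_div, div_le_div_iff₀ (by positivity) (by positivity)]
  have h7 : 0 ≤ A * B ^ 16 * 2 ^ (p * q' * v0) := by positivity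
  calc A * (B ^ 16 * B ^ a) * (2 ^ (p * q' * v0) * 2 ^ a) = A * B ^ 16 * 2 ^ (p * q' * v0) * (B ^ a * 2 ^ a) := by ring
    _ ≤ A * B ^ 16 * 2 ^ (p * q' * v0) * (2 ^ (p * q') * 2 ^ (p * q' * (a / p))) := mul_le_mul_of_nonneg_left h6 h7
    _ = _ := by ring

/-- **slow pieces are rare**, all scales at once -/
theorem lowA {β : ℝ} (hβ : 3 / 4 < β) (δ : ℝ) (hδ : 0 < δ) : ∃ (c : ℝ), 0 < c ∧ ∀ L : ℕ,
    gf {t | t ∈ WL (L + 16) ∧ t ∈ Fac (BQ (LB (c * 2 ^ L) (PW.mZ (2 ^ L)) β))} ≤ ENNReal.ofReal δ * FK L := by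
  obtain ⟨p, C1, hp, hC1, hnum⟩ := low_num hβ
  obtain ⟨CF, hCF, hF⟩ := FK_add
  have hCF0 : 0 < CF := by linarith
  obtain ⟨B, hB, hK⟩ := extK
  have hB0 : 0 < B := by linarith
  obtain ⟨q', hq'⟩ := pow_unbounded_of_one_lt (2 * B) (one_lt_two : (1 : ℝ) < 2)
  have hq1 : 1 ≤ q' := by
    rcases Nat.eq_zero_or_pos q' with h0 | h0
    · subst h0
      rw [pow_zero] at hq'
      linarith
    · exact h0
  obtain ⟨A, hA, hK⟩ := hK (p * q')
  have hA0 : 0 < A := by linarith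
  obtain ⟨v1, hv1⟩ := pow_unbounded_of_one_lt (2 * (A * B ^ 16 * 2 ^ (p * q')) * CF ^ 16 / δ) (one_lt_two : (1 : ℝ) < 2)
  obtain ⟨v0, hv⟩ : ∃ v0, v0 = v1 + 1 := ⟨_, rfl⟩
  have hv0 : 2 * (A * B ^ 16 * 2 ^ (p * q')) * CF ^ 16 / δ < 2 ^ v0 :=
    hv1.trans_le (pow_le_pow_right₀ (by norm_num) (by omega))
  obtain ⟨X, hX⟩ : ∃ X : ℝ, X = A * B ^ 16 * 2 ^ (p * q') / 2 ^ (p * q' * v0) := ⟨_, rfl⟩
  have hX0 : 0 < X := by rw [hX]; positivity
  have hXδ : 2 * X * CF ^ 16 ≤ δ := by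
    rw [div_lt_iff₀ hδ] at hv0
    have h1 : (2 : ℝ) ^ v0 ≤ 2 ^ (p * q' * v0) := by
      refine pow_le_pow_right₀ (by norm_num) ?_
      calc v0 = 1 * v0 := (one_mul _).symm
        _ ≤ p * q' * v0 := Nat.mul_le_mul_right _ (by nlinarith)
    rw [hX, mul_div_assoc', div_mul_eq_mul_div, div_le_iff₀ (by positivity)]
    have h2 := mul_le_mul_of_nonneg_left h1 hδ.le
    linarith
  obtain ⟨c, hc⟩ : ∃ c : ℝ, c = 1 / (2 ^ (v0 + 1) * C1) := ⟨_, rfl⟩
  have hc0 : 0 < c := by rw [hc]; positivity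
  refine ⟨c, hc0, fun L => ?_⟩
  obtain ⟨S, hS⟩ : ∃ S : ℕ → Set (List Bool), S = fun a => {t | t ∈ WL (L + 16) ∧ a ≤ L ∧ a / p + v0 ≤ L - a ∧
      t ∈ Fac (Slo (L - a - (a / p + v0)) (PW.mZ (2 ^ (L - a)) / 8))} := ⟨_, rfl⟩
  have hsub : {t | t ∈ WL (L + 16) ∧ t ∈ Fac (BQ (LB (c * 2 ^ L) (PW.mZ (2 ^ L)) β))} ⊆ ⋃ a ∈ range (L + 1), S a := by
    rintro t ⟨ht, htB⟩
    obtain ⟨i, j, -, hij, hj, hjs, hall⟩ := fac_BQ (wp_LB _ _ _) htB
    have hij' : (0 : ℝ) < (j : ℝ) - i := by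
      have : (i : ℝ) < j := by exact_mod_cast hij
      linarith
    obtain ⟨a, haL, ha1, ha2⟩ := hnum L ((j : ℝ) - i) hij' hjs
    have hd : ∀ l l' : ℕ, i ≤ l → l ≤ j → i ≤ l' → l' ≤ j →
        dW t l l' ≤ (1 / 2 ^ (v0 + 1)) * (2 : ℝ) ^ ((L : ℝ) - a - (a / p : ℕ)) := by
      intro l l' q1 q2 q3 q4
      refine (hall l l' q1 q2 q3 q4).trans ?_
      calc c * 2 ^ L * (((j : ℝ) - i) / PW.mZ (2 ^ L)) ^ β = c * (2 ^ L * (((j : ℝ) - i) / PW.mZ (2 ^ L)) ^ β) := by ring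
        _ ≤ c * (C1 * (2 : ℝ) ^ ((L : ℝ) - a - (a / p : ℕ))) := mul_le_mul_of_nonneg_left ha1 hc0.le
        _ = _ := by
            rw [hc]
            field_simp
    have hcase : a + a / p + v0 ≤ L := by
      by_contra hcon
      push Not at hcon
      have h1 := hd i (i + 1) le_rfl hij.le (by omega) hij
      have h2 := dW_succ t i
      have h3 : (2 : ℝ) ^ ((L : ℝ) - a - (a / p : ℕ)) ≤ 2 ^ v0 := by
        rw [← Real.rpow_natCast 2 v0]
        refine Real.rpow_le_rpow_of_exponent_le (by norm_num) ?_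
        have h4 : (L : ℝ) ≤ ((a + a / p + v0 : ℕ) : ℝ) := by exact_mod_cast hcon.le
        push_cast at h4 ⊢
        linarith
      have h5 : (1 / 2 ^ (v0 + 1)) * (2 : ℝ) ^ ((L : ℝ) - a - (a / p : ℕ)) ≤ (1 / 2 ^ (v0 + 1)) * 2 ^ v0 :=
        mul_le_mul_of_nonneg_left h3 (by positivity)
      have h6 : (1 / 2 ^ (v0 + 1)) * (2 : ℝ) ^ v0 = 1 / 2 := by
        rw [pow_succ]
        field_simp
      linarith
    rw [Set.mem_iUnion₂]
    refine ⟨a, mem_range.2 (by omega), ?_⟩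
    rw [hS]
    refine ⟨ht, haL, by omega, t.take i, wd t i j, t.drop j, ?_, ?_, ?_⟩
    · unfold wd
      have e1 := List.take_append_drop i (t.take j)
      rw [List.take_take, min_eq_left hij.le] at e1
      rw [← List.append_assoc, e1, List.take_append_drop]
    · intro l hl
      have hlen : (wd t i j).length = j - i := by
        unfold wd
        rw [List.length_drop, List.length_take]
        omega
      have e1 : t = t.take i ++ (wd t i j ++ t.drop j) := by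
        unfold wd
        have e1 := List.take_append_drop i (t.take j)
        rw [List.take_take, min_eq_left hij.le] at e1
        rw [← List.append_assoc, e1, List.take_append_drop]
      have e2 := fac_hn (t.take i) (wd t i j) (t.drop j) (i := 0) (j := l) (Nat.zero_le _) hl
      rw [← e1] at e2
      have e3 : (t.take i).length = i := by
        rw [List.length_take]
        omega
      rw [e3, Nat.add_zero] at e2
      have e4 : vx oo up (wd t i j) 0 = oo := rfl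
      have e5 : vx oo up (wd t i j) l - oo = vx oo up (wd t i j) l := sub_zero _
      rw [e4, e5] at e2
      rw [← e2]
      have h1 := hd i (i + l) le_rfl hij.le (by omega) (by omega)
      unfold dW at h1
      have h3 : (2 : ℝ) ^ ((L : ℝ) - a - (a / p : ℕ)) = 2 ^ v0 * 2 ^ (L - a - (a / p + v0)) := by
        rw [← pow_add, ← Real.rpow_natCast 2 (v0 + (L - a - (a / p + v0)))]
        congr 1
        have h4 : a + a / p + (v0 + (L - a - (a / p + v0))) = L := by omega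
        have h5 : ((a + a / p + (v0 + (L - a - (a / p + v0))) : ℕ) : ℝ) = L := by rw [h4]
        rw [Nat.cast_add, Nat.cast_add] at h5
        linarith
      rw [h3] at h1
      have h6 : (1 / 2 ^ (v0 + 1)) * (2 ^ v0 * (2 : ℝ) ^ (L - a - (a / p + v0))) = 2 ^ (L - a - (a / p + v0)) / 2 := by
        rw [pow_succ]
        field_simp
      rw [h6] at h1
      have h7 : (0 : ℝ) < 2 ^ (L - a - (a / p + v0)) := by positivity
      have h8 : ((hn (vx oo up t (i + l) - vx oo up t i) : ℤ) : ℝ) ≤ 6 * 2 ^ (L - a - (a / p + v0)) := by linarith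
      exact_mod_cast h8
    · have hlen : (wd t i j).length = j - i := by
        unfold wd
        rw [List.length_drop, List.length_take]
        omega
      rw [hlen, Nat.cast_sub hij.le]
      rcases ha2 with h | h
      · exact h
      · exfalso
        have h0 := Nat.zero_le (a / p)
        omega
  refine (gf_mono hsub).trans ((SDN.MainA.gf_bU _ _).trans ?_)
  have hterm : ∀ a ∈ range (L + 1), gf (S a) ≤ ENNReal.ofReal (X * (1 / 2) ^ a) * FK (L + 16) := by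
    intro a ha
    have hSa : S a = {t | t ∈ WL (L + 16) ∧ a ≤ L ∧ a / p + v0 ≤ L - a ∧
      t ∈ Fac (Slo (L - a - (a / p + v0)) (PW.mZ (2 ^ (L - a)) / 8))} := by rw [hS]
    rw [hSa]
    by_cases hc1 : a ≤ L ∧ a / p + v0 ≤ L - a
    · refine (gf_mono ?_).trans ((hK (L + 16) (L - a) (a / p + v0) (by omega) hc1.2).trans ?_)
      · rintro t ⟨h1, -, -, h2⟩
        exact ⟨h1, h2⟩
      · rw [show L + 16 - (L - a) = 16 + a by omega]
        refine mul_le_mul' (ENNReal.ofReal_le_ofReal ?_) le_rfl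
        exact low_term hA0.le hB0 hp hq'.le hX
    · have h3 : {t | t ∈ WL (L + 16) ∧ a ≤ L ∧ a / p + v0 ≤ L - a ∧
          t ∈ Fac (Slo (L - a - (a / p + v0)) (PW.mZ (2 ^ (L - a)) / 8))} = ∅ := by
        rw [Set.eq_empty_iff_forall_notMem]
        rintro t ⟨-, h1, h2, -⟩
        exact hc1 ⟨h1, h2⟩
      rw [h3, NTF.gf_emp]
      exact zero_le
  refine (sum_le_sum hterm).trans ?_
  rw [← Finset.sum_mul, ← ENNReal.ofReal_sum_of_nonneg (fun i _ => by positivity), ← Finset.mul_sum]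
  calc ENNReal.ofReal (X * ∑ i ∈ range (L + 1), (1 / 2) ^ i) * FK (L + 16)
      ≤ ENNReal.ofReal (X * 2) * (ENNReal.ofReal (CF ^ 16) * FK L) := by
        refine mul_le_mul' (ENNReal.ofReal_le_ofReal ?_) (hF L 16)
        exact mul_le_mul_of_nonneg_left (sum_geometric_two_le (L + 1)) hX0.le
    _ = ENNReal.ofReal (X * 2 * CF ^ 16) * FK L := by
        rw [← mul_assoc, ← ENNReal.ofReal_mul (by positivity)]
    _ ≤ _ := by
        refine mul_le_mul' (ENNReal.ofReal_le_ofReal ?_) le_rfl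
        linarith

/-- **near touches are rare**, symmetric form -/
theorem pinB (η δ : ℝ) (hη : 0 < η) (hδ : 0 < δ) : ∃ (e : ℝ) (L0 : ℕ), 0 < e ∧ ∀ L, L0 ≤ L →
    gf {t | t ∈ WL (L + 16) ∧ t ∈ Fac (BQ (PB (η * 2 ^ L) (e * 2 ^ L)))} ≤ ENNReal.ofReal δ * FK L := by
  obtain ⟨e, L0, he, h⟩ := pinA η δ hη hδ
  refine ⟨e, L0, he, fun L hL => (gf_mono ?_).trans (h L hL)⟩
  rintro t ⟨h1, X, Q, Y, h2, i, l, j, h3, h4, h5, h6, h7, h8, h9⟩
  exact ⟨h1, X, Q, Y, h2, i, l, j, h4, h5, h6, h7, h9⟩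

end SSI

end HexObs
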