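import Pool.Agent.SSI.RtO
import Pool.Agent.SSI.Low
import Pool.Agent.IW.Rev
import Pool.Agent.TIP.RevM
import Pool.Agent.PW.E1d

/-!
# SSI (self-similar limits): the density of the bad windows of a walk

* `cB` : the number of the bad windows;
* `dens_w` : words; `dens_s` : the walks `saw n`.
-/

set_option autoImplicit false

namespace HexObs

namespace SSI

open Finset TS SDN TIW NTA TIP NTW NPR NPR.Fast

open Pool.Agent.IW (rvw rvw_app rvw_mem split_last Pn_rvw)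

open scoped ENNReal

open Classical in
/-- the number of the bad windows with H letters -/
noncomputable def cB (B : (ℕ → ℕ → ℝ) → ℕ → ℕ → Prop) (d : ℕ → ℕ → ℝ) (n H : ℕ) : ℕ :=
  ((range (n + 1 - H)).filter fun z => B d z (z + H)).card

lemma dW_rvw {n : ℕ} (hn0 : 0 < n) {t : List Bool} (ht : t.length = n) {x y : ℕ} (hx : x ≤ n) (hy : y ≤ n) :
    dW t x y = dW (rvw t) (n - y) (n - x) := by
  obtain ⟨s, b, rfl, hs⟩ := split_last hn0 ht
  rw [rvw_app]
  obtain ⟨c, hc, hf⟩ := TIP.RevM.rev_frame s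
  have hc' : nrm c = 1 := mem_dirs.1 hc
  have e1 : ∀ i, i ≤ n → vx oo up (s ++ [b]) i = vx oo up s i := fun i hi => vx_append (by omega)
  have e2 : ∀ i, i ≤ n → vx oo up (rev s ++ [b]) i = vx oo up (rev s) i := fun i hi => vx_append (by rw [rev_length]; omega)
  unfold dW
  rw [e1 x hx, e1 y hy, e2 _ (Nat.sub_le _ _), e2 _ (Nat.sub_le _ _)]
  have h1 := hf (n - x) (by omega)
  have h2 := hf (n - y) (by omega)
  rw [show s.length + 1 - (n - x) = x by omega] at h1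
  rw [show s.length + 1 - (n - y) = y by omega] at h2
  rw [h1, h2, add_sub_add_left_eq_sub, ← mulE_sub, hn_mulE hc', ← neg_sub, hn_neg]

/-- a bad window is a word with a factor in the class -/
lemma win_fac {B : (ℕ → ℕ → ℝ) → ℕ → ℕ → Prop} (hB : WP B) {t : List Bool} {z H : ℕ} (hz : z + H ≤ t.length)
    (h : B (dW t) z (z + H)) : wd t z (z + H) ∈ Fac (BQ B) := by
  have hlen : (wd t z (z + H)).length = H := by
    unfold wd
    rw [List.length_drop, List.length_take]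
    omega
  have e1 : t = t.take z ++ (wd t z (z + H) ++ t.drop (z + H)) := by
    unfold wd
    have e1 := List.take_append_drop z (t.take (z + H))
    rw [List.take_take, min_eq_left (Nat.le_add_right _ _)] at e1
    rw [← List.append_assoc, e1, List.take_append_drop]
  refine ⟨[], wd t z (z + H), [], by simp, ?_⟩
  show B (dW (wd t z (z + H))) 0 (wd t z (z + H)).length
  rw [hlen]
  refine hB.shift' (dW (wd t z (z + H))) (dW t) z 0 H ?_ h
  intro x y hx hy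
  have h2 := dW_fac (t.take z) (wd t z (z + H)) (t.drop (z + H)) (i := x) (j := y) (by omega) (by omega)
  rw [← e1] at h2
  rw [h2]
  have e3 : (t.take z).length = z := by
    rw [List.length_take]
    omega
  rw [e3]

/-- the bad windows of a word and of the reversed word -/
lemma cB_le {B : (ℕ → ℕ → ℝ) → ℕ → ℕ → Prop} (hB : WP B) {n H : ℕ} (hn0 : 0 < n) (hn3 : 3 ≤ n) {t : List Bool} (ht : t.length = n) :
    cB B (dW t) n H ≤ cnt H (BQ B) t 0 (3 * n / 4) + cnt H (BQ B) (rvw t) 0 (3 * n / 4) := by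
  classical
  have hlr : (rvw t).length = n := by
    obtain ⟨s, b, rfl, hs⟩ := split_last hn0 ht
    rw [rvw_app, List.length_append, rev_length]
    simpa using hs
  unfold cB cnt
  have hsub : ((range (n + 1 - H)).filter fun z => B (dW t) z (z + H)) ⊆
      ((Ico 0 (3 * n / 4)).filter fun z => wd t z (z + H) ∈ Fac (BQ B)) ∪
        (((Ico 0 (3 * n / 4)).filter fun z => wd (rvw t) z (z + H) ∈ Fac (BQ B)).image fun z => n - H - z) := by
    intro z hz
    rw [Finset.mem_filter, Finset.mem_range] at hz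
    obtain ⟨hz1, hz2⟩ := hz
    rw [Finset.mem_union]
    rcases Nat.lt_or_ge z (3 * n / 4) with h | h
    · left
      rw [Finset.mem_filter, Finset.mem_Ico]
      exact ⟨⟨Nat.zero_le _, h⟩, win_fac hB (by omega) hz2⟩
    · right
      rw [Finset.mem_image]
      refine ⟨n - (z + H), ?_, by omega⟩
      rw [Finset.mem_filter, Finset.mem_Ico]
      refine ⟨⟨Nat.zero_le _, by omega⟩, win_fac hB (by omega) ?_⟩
      have h3 := hB.rev (dW t) (dW (rvw t)) n z (z + H) (by omega) (fun x y hx hy => dW_rvw hn0 ht hx hy) hz2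
      rwa [show n - (z + H) + H = n - z by omega]
  refine (Finset.card_le_card hsub).trans ((Finset.card_union_le _ _).trans ?_)
  exact Nat.add_le_add_left Finset.card_image_le _

/-- **the density of the bad windows, words** -/
theorem dens_w (hRT : RT) {ε : ℝ} (hε : 0 < ε) : ∃ (δ θ : ℝ) (c0 L0 : ℕ), 0 < δ ∧ 0 < θ ∧ ∀ (L H : ℕ)
    (B : (ℕ → ℕ → ℝ) → ℕ → ℕ → Prop), WP B → L0 ≤ L → (H : ℝ) ≤ θ * PW.mZ (2 ^ L) →
    gf {t | t ∈ WL (L + 16) ∧ t ∈ Fac (BQ B)} ≤ ENNReal.ofReal δ * FK L → ∀ k n : ℕ, L + c0 ≤ k → TIP.Sc k n →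
    TOG.Pn n {t | ε * n < (cB B (dW t) n H : ℝ)} ≤ ε := by
  obtain ⟨δ, θ, c0, L0, hδ, hθ, h⟩ := hRT (ε / 2) (by positivity)
  refine ⟨δ, θ, c0 + 2, L0, hδ, hθ, fun L H B hB hL hH hBq k n hk hsc => ?_⟩
  have hn0 : 0 < n := by
    have h1 := hsc.1
    have h2 := mz_pos k
    have : (0 : ℝ) < n := lt_of_lt_of_le h2 h1
    exact_mod_cast this
  have hn3 : 3 ≤ n := by
    have h1 := mz_low 0 k
    have h2 := mz_one 0
    rw [Nat.zero_add] at h1
    have h3 : (2 : ℝ) ^ 2 ≤ 2 ^ k := pow_le_pow_right₀ (by norm_num) (by omega)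
    have h4 : (4 : ℝ) ≤ n := by
      refine le_trans ?_ (h1.trans hsc.1)
      nlinarith
    have h5 : 4 ≤ n := by exact_mod_cast h4
    omega
  have h1 := h L H (BQ B) hL hH hBq k n (by omega) hsc
  obtain ⟨C, hC⟩ : ∃ C : Set (List Bool), C = {t | ε / 2 * n < (cnt H (BQ B) t 0 (3 * n / 4) : ℝ)} := ⟨_, rfl⟩
  rw [← hC] at h1
  have h2 : TOG.Pn n {t | rvw t ∈ C} ≤ ε / 2 := by
    rw [Pn_rvw hn0 C]
    exact h1
  have h3 := (TIP.pn_union hn0 C {t | rvw t ∈ C}).trans (add_le_add h1 h2)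
  rw [add_halves] at h3
  refine (Pn_mono fun t ht htb => ?_).trans h3
  by_contra hcon
  rw [Set.mem_union, not_or, hC] at hcon
  obtain ⟨q1, q2⟩ := hcon
  have q1' : (cnt H (BQ B) t 0 (3 * n / 4) : ℝ) ≤ ε / 2 * n := not_lt.1 q1
  have q2' : (cnt H (BQ B) (rvw t) 0 (3 * n / 4) : ℝ) ≤ ε / 2 * n := not_lt.1 q2
  have q3 := cB_le (H := H) hB hn0 hn3 ht.1
  have q4 : (cB B (dW t) n H : ℝ) ≤ (cnt H (BQ B) t 0 (3 * n / 4) : ℝ) + (cnt H (BQ B) (rvw t) 0 (3 * n / 4) : ℝ) := by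
    exact_mod_cast q3
  have htb' : ε * n < (cB B (dW t) n H : ℝ) := htb
  linarith

/-! ### the walks -/

open Pool.Agent.NTS.Res (saw)

/-- the distance of two vertices of a walk -/
noncomputable def dS {n : ℕ} (s : Fin n → Fin 3) (i j : ℕ) : ℝ :=
  ‖Pool.Agent.NTS.Res.pos s j - Pool.Agent.NTS.Res.pos s i‖

lemma dS_rot {n : ℕ} (s : Fin n → Fin 3) : dS (NTSF.rot s) = dS s := by
  funext i j
  unfold dS
  rw [NTSF.pos_rot, NTSF.pos_rot, ← mul_sub, norm_mul, NTSF.om_norm, one_mul]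

lemma dS_le {n : ℕ} (t : List Bool) {i j : ℕ} (hi : i ≤ n) (hj : j ≤ n) : dS (NTF.sw n t) i j ≤ dW t i j := by
  unfold dS dW
  rw [NTSF.pos_sw n t i hi, NTSF.pos_sw n t j hj, ← NTF.JJ_sub]
  exact PWd.norm_le_hn _

lemma dW_le {n : ℕ} (t : List Bool) {i j : ℕ} (hi : i ≤ n) (hj : j ≤ n) : dW t i j ≤ 2 * dS (NTF.sw n t) i j := by
  unfold dS dW
  rw [NTSF.pos_sw n t i hi, NTSF.pos_sw n t j hj, ← NTF.JJ_sub]
  exact PWd.hn_le_norm _

/-- the proportion of a property of the distances -/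
lemma prop_dS {n : ℕ} (hn0 : 0 < n) {c : ℝ} (P : (ℕ → ℕ → ℝ) → Prop) {C : Set (List Bool)}
    (hPC : ∀ t ∈ SawN n, P (dS (NTF.sw n t)) → t ∈ C) (h : TOG.Pn n C ≤ c) :
    haveI : DecidablePred fun s : Fin n → Fin 3 => P (dS s) := Classical.decPred _
    (((saw n).filter fun s => P (dS s)).card : ℝ) ≤ c * ((saw n).card : ℝ) := by
  classical
  have h1 := NTSF.card_saw hn0 (fun s : Fin n → Fin 3 => P (dS s)) (fun s => by rw [dS_rot])
  have h2 := Pool.Agent.IW.card_saw_eq hn0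
  have h2' : 2 * ((saw n).card : ℝ) = 3 * (cS n : ℝ) := h2
  have hc : 0 < (cS n : ℝ) := Pool.Agent.IW.cS_pos hn0
  have h3 : ({t | t ∈ SawN n ∧ P (dS (NTF.sw n t))}.ncard : ℝ) ≤ c * cS n := by
    have h4 : ({t | t ∈ SawN n ∧ P (dS (NTF.sw n t))}.ncard : ℝ) ≤ ({t | t ∈ SawN n ∧ t ∈ C}.ncard : ℝ) := by
      have h6 : {t | t ∈ SawN n ∧ P (dS (NTF.sw n t))} ⊆ {t | t ∈ SawN n ∧ t ∈ C} := fun t ht => ⟨ht.1, hPC t ht.1 ht.2⟩
      have h7 : {t | t ∈ SawN n ∧ t ∈ C}.Finite := (Pool.Agent.IW.fin_SawN n).subset fun t ht => ht.1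
      exact_mod_cast Set.ncard_le_ncard h6 h7
    have h5 : ({t | t ∈ SawN n ∧ t ∈ C}.ncard : ℝ) ≤ c * cS n := by
      unfold TOG.Pn at h
      rwa [div_le_iff₀ hc] at h
    exact h4.trans h5
  have h4 : 2 * (((saw n).filter fun s => P (dS s)).card : ℝ) = 3 * ({t | t ∈ SawN n ∧ P (dS (NTF.sw n t))}.ncard : ℝ) := by
    exact_mod_cast h1
  have h5 : c * (2 * ((saw n).card : ℝ)) = c * (3 * (cS n : ℝ)) := by rw [h2']
  convert_to (((saw n).filter fun s => P (dS s)).card : ℝ) ≤ c * ((saw n).card : ℝ)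
  linarith

/-- the mean number of the bad windows -/
theorem dens_s (hRT : RT) {ε : ℝ} (hε : 0 < ε) : ∃ (δ θ : ℝ) (c0 L0 : ℕ), 0 < δ ∧ 0 < θ ∧ ∀ (L H : ℕ)
    (B B' : (ℕ → ℕ → ℝ) → ℕ → ℕ → Prop), WP B → L0 ≤ L → (H : ℝ) ≤ θ * PW.mZ (2 ^ L) →
    gf {t | t ∈ WL (L + 16) ∧ t ∈ Fac (BQ B)} ≤ ENNReal.ofReal δ * FK L → ∀ k n : ℕ, L + c0 ≤ k → TIP.Sc k n →
    (∀ t ∈ SawN n, ∀ z, z + H ≤ n → B' (dS (NTF.sw n t)) z (z + H) → B (dW t) z (z + H)) →
    ∑ s ∈ saw n, (cB B' (dS s) n H : ℝ) ≤ ε * n * ((saw n).card : ℝ) := by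
  classical
  obtain ⟨δ, θ, c0, L0, hδ, hθ, h⟩ := dens_w hRT (ε := ε / 4) (by positivity)
  refine ⟨δ, θ, c0, L0, hδ, hθ, fun L H B B' hB hL hH hBq k n hk hsc hBB => ?_⟩
  have hn0 : 0 < n := by
    have h1 := hsc.1
    have h2 := mz_pos k
    have : (0 : ℝ) < n := lt_of_lt_of_le h2 h1
    exact_mod_cast this
  have hnR : (1 : ℝ) ≤ n := by exact_mod_cast hn0
  have h1 := h L H B hB hL hH hBq k n hk hsc
  have h2 := prop_dS hn0 (P := fun d => ε / 4 * n < (cB B' d n H : ℝ)) (fun t ht hP => by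
    have hP' : ε / 4 * n < (cB B' (dS (NTF.sw n t)) n H : ℝ) := hP
    refine lt_of_lt_of_le hP' ?_
    have h7 : cB B' (dS (NTF.sw n t)) n H ≤ cB B (dW t) n H := by
      unfold cB
      refine Finset.card_le_card fun z hz => ?_
      rw [Finset.mem_filter, Finset.mem_range] at hz ⊢
      exact ⟨hz.1, hBB t ht z (by omega) hz.2⟩
    exact_mod_cast h7) h1
  have h3 : ∀ s : Fin n → Fin 3, (cB B' (dS s) n H : ℝ) ≤ 2 * n := by
    intro s
    have h4 : cB B' (dS s) n H ≤ n + 1 := by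
      unfold cB
      exact (Finset.card_filter_le _ _).trans (by rw [card_range]; omega)
    have h5 : (cB B' (dS s) n H : ℝ) ≤ ((n + 1 : ℕ) : ℝ) := by exact_mod_cast h4
    push_cast at h5
    linarith
  have h4 : ∀ s ∈ saw n, (cB B' (dS s) n H : ℝ) ≤ ε / 4 * n + (if ε / 4 * n < (cB B' (dS s) n H : ℝ) then 2 * (n : ℝ) else 0) := by
    intro s _
    split_ifs with h5
    · have := h3 s
      have : 0 ≤ ε / 4 * n := by positivity
      linarith [h3 s]
    · push Not at h5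
      linarith
  refine (Finset.sum_le_sum h4).trans ?_
  rw [Finset.sum_add_distrib, Finset.sum_const, nsmul_eq_mul, ← Finset.sum_filter, Finset.sum_const, nsmul_eq_mul]
  have h5 : (((saw n).filter fun s => ε / 4 * n < (cB B' (dS s) n H : ℝ)).card : ℝ) ≤ ε / 4 * ((saw n).card : ℝ) := by
    convert h2
  have h6 := mul_le_mul_of_nonneg_right h5 (show (0 : ℝ) ≤ 2 * n by positivity)
  have h7 : 0 ≤ ε * n * ((saw n).card : ℝ) := by positivity
  linarith

end SSI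

end HexObs
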