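import Pool.Agent.SSI.Lb
import Pool.Agent.NPR.Eng

/-!
# SSI (self-similar limits): the engine for long blocks (after NPR/Eng of helper22)
-/

set_option autoImplicit false

namespace HexObs

namespace SSI

open Finset TS SDN TIW NTA TIP NPR

open scoped ENNReal

/-- a chain of J long blocks from the start of u, exactly g of them counted, each of these with a middle outside QQ -/
def ChL (κ : ℝ) (C b0 k l L : ℕ) (QQ : Set (List Bool)) : ℕ → ℕ → List Bool → Prop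
  | 0, g, _ => g = 0
  | J + 1, g, u => ∃ j ∈ nxL κ C b0 k l L u, ChL κ C b0 k l L QQ J g (u.drop j) ∨
      (lm l L u ∉ QQ ∧ ∃ g', g = g' + 1 ∧ ChL κ C b0 k l L QQ J g' (u.drop j))

/-- **the engine for long blocks**: rare middles; μ = L - l, at most J / q middles in QQ -/
def ETL (κ : ℝ) (C b0 k : ℕ) : Prop := ∀ μ q : ℕ, ∃ (δ B : ℝ) (l0 : ℕ), 0 < δ ∧ 1 ≤ B ∧ ∀ (l : ℕ) (QQ : Set (List Bool)), l0 ≤ l →
  gf {t | t ∈ WL (l + μ + 16) ∧ t ∈ Fac QQ} ≤ ENNReal.ofReal δ * FK (l + μ) → ∀ K J s : ℕ, l + μ + 16 ≤ K →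
  gf {t | t ∈ WL K ∧ s + MS l (l + μ) * (J + 1) < t.length ∧
      ¬ ∃ g, g ≤ J ∧ q * (J - g) ≤ J ∧ ChL κ C b0 k l (l + μ) QQ J g (t.drop s)} ≤
    ENNReal.ofReal (B ^ (K - l) / 4 ^ J) * FK K

lemma sum_ixL {D E : ℝ} {r k l L b0 : ℕ} (hD : 1 ≤ D) (hE : 1 ≤ E) (hr : 2 * E ≤ 2 ^ r) (hkL : k ≤ l) (hl : l ≤ L) :
    ∑ i ∈ Ix b0 k l, ar D r l i.1 i.2.1 * ar D r l i.1 i.2.2 * E ^ (L + 4 - i.1) ≤
      E ^ (L - l) * (8 * (D ^ 2 * (E ^ (k + 4) * 2 ^ k))) := by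
  have hE0 : 0 < E := by linarith
  have h := sum_ix (b0 := b0) hD hE hr hkL
  calc ∑ i ∈ Ix b0 k l, ar D r l i.1 i.2.1 * ar D r l i.1 i.2.2 * E ^ (L + 4 - i.1)
      = E ^ (L - l) * ∑ i ∈ Ix b0 k l, ar D r l i.1 i.2.1 * ar D r l i.1 i.2.2 * E ^ (l + 4 - i.1) := by
        rw [Finset.mul_sum]
        refine Finset.sum_congr rfl fun i hi => ?_
        have hi1 : i.1 ≤ l := by
          simp only [Ix, mem_filter, mem_product, mem_range] at hi
          omega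
        rw [show L + 4 - i.1 = (L - l) + (l + 4 - i.1) by omega, pow_add]
        ring
    _ ≤ _ := mul_le_mul_of_nonneg_left h (by positivity)

/-! ### the weight of the chains -/

open Classical in
/-- the sum over the chains of J blocks from the start of u, normalised, weight z for a middle in QQ -/
noncomputable def WtL (κ : ℝ) (C b0 k l L : ℕ) (QQ : Set (List Bool)) (z : ℝ≥0∞) : ℕ → List Bool → ℝ≥0∞
  | 0, _ => 1
  | J + 1, u => ∑ j ∈ nxL κ C b0 k l L u, ENNReal.ofReal (1 / uw κ (lbL κ C b0 k l L u)) *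
      ((if lm l L u ∈ QQ then z else 1) * WtL κ C b0 k l L QQ z J (u.drop j))

lemma WtL_low {κ : ℝ} {C b0 k l L : ℕ} {QQ : Set (List Bool)} {z : ℝ≥0∞} (hκ : 0 < κ) (hz : 1 ≤ z)
    (hS : ∀ u ∈ SA, MS l L < u.length → uw κ (lbL κ C b0 k l L u) ≤ ((nxL κ C b0 k l L u).card : ℝ) ∧
      ∀ j ∈ nxL κ C b0 k l L u, j ≤ MS l L) (J : ℕ) : ∀ u ∈ SA, MS l L * (J + 1) < u.length →
      ∃ g, g ≤ J ∧ ChL κ C b0 k l L QQ J g u ∧ z ^ (J - g) ≤ WtL κ C b0 k l L QQ z J u := by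
  classical
  induction J with
  | zero =>
    intro u _ _
    exact ⟨0, le_rfl, rfl, by simp [WtL]⟩
  | succ J ih =>
    intro u hu hl
    have hl' : MS l L < u.length := by nlinarith
    obtain ⟨h1, h2⟩ := hS u hu hl'
    obtain ⟨N, hN⟩ : ∃ N, N = nxL κ C b0 k l L u := ⟨_, rfl⟩
    rw [← hN] at h1 h2
    obtain ⟨w, hw⟩ : ∃ w, w = uw κ (lbL κ C b0 k l L u) := ⟨_, rfl⟩
    have hw0 : 0 < w := hw ▸ uw_pos hκ _
    rw [← hw] at h1
    have hne : N.Nonempty := by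
      rw [← Finset.card_pos]
      have : (0 : ℝ) < N.card := lt_of_lt_of_le hw0 h1
      exact_mod_cast this
    have h3 : ∀ j ∈ N, ∃ g, g ≤ J ∧ ChL κ C b0 k l L QQ J g (u.drop j) ∧ z ^ (J - g) ≤ WtL κ C b0 k l L QQ z J (u.drop j) := by
      intro j hj
      have h4 := h2 j hj
      refine ih (u.drop j) (SA_drop hu j) ?_
      rw [List.length_drop]
      have e1 : MS l L * (J + 1 + 1) = MS l L * (J + 1) + MS l L := by ring
      omega
    choose! g hg1 hg2 hg3 using h3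
    obtain ⟨j, hj, hmax⟩ := N.exists_max_image g hne
    obtain ⟨zq, hzq⟩ : ∃ zq : ℝ≥0∞, zq = if lm l L u ∈ QQ then z else 1 := ⟨_, rfl⟩
    have h5 : zq * z ^ (J - g j) ≤ WtL κ C b0 k l L QQ z (J + 1) u := by
      have e1 : WtL κ C b0 k l L QQ z (J + 1) u = ∑ j ∈ N, ENNReal.ofReal (1 / w) *
        (zq * WtL κ C b0 k l L QQ z J (u.drop j)) := by
        rw [hN, hw, hzq]
        rfl
      rw [e1]
      have h6 : ∀ i ∈ N, ENNReal.ofReal (1 / w) * (zq * z ^ (J - g j)) ≤ ENNReal.ofReal (1 / w) *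
          (zq * WtL κ C b0 k l L QQ z J (u.drop i)) := by
        intro i hi
        refine mul_le_mul_right (mul_le_mul_right ((pow_le_pow_right₀ hz ?_).trans (hg3 i hi)) _) _
        have := hmax i hi
        omega
      refine le_trans ?_ (Finset.sum_le_sum h6)
      rw [Finset.sum_const, nsmul_eq_mul, ← mul_assoc]
      have h7 : (1 : ℝ≥0∞) ≤ (N.card : ℝ≥0∞) * ENNReal.ofReal (1 / w) := by
        rw [← ENNReal.ofReal_natCast, ← ENNReal.ofReal_mul (by positivity), ← ENNReal.ofReal_one]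
        refine ENNReal.ofReal_le_ofReal ?_
        rw [mul_one_div, le_div_iff₀ hw0]
        linarith
      calc zq * z ^ (J - g j) = 1 * (zq * z ^ (J - g j)) := (one_mul _).symm
        _ ≤ _ := mul_le_mul_left h7 _
    by_cases hm : lm l L u ∈ QQ
    · refine ⟨g j, (hg1 j hj).trans (by omega), ?_, ?_⟩
      · exact ⟨j, hN ▸ hj, Or.inl (hg2 j hj)⟩
      · refine le_trans (le_of_eq ?_) h5
        rw [hzq, if_pos hm, ← pow_succ']
        congr 1
        have := hg1 j hj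
        omega
    · refine ⟨g j + 1, by have := hg1 j hj; omega, ?_, ?_⟩
      · exact ⟨j, hN ▸ hj, Or.inr ⟨hm, g j, rfl, hg2 j hj⟩⟩
      · refine le_trans (le_of_eq ?_) h5
        rw [hzq, if_neg hm, one_mul]
        congr 1
        omega


/-! ### the constants -/

/-- everything about one scale L -/
structure EL (κ : ℝ) (C b0 k l L : ℕ) (QQ : Set (List Bool)) (D A B E Cc z : ℝ) (r : ℕ) : Prop where
  hκ : 0 < κ
  lL : l ≤ L
  D1 : 1 ≤ D
  A0 : 0 ≤ A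
  B1 : 1 ≤ B
  E1 : 1 ≤ E
  C1 : 1 ≤ Cc
  z1 : 1 ≤ z
  AD : A * B ^ (L + 4 - l) ≤ D
  r1 : 2 * E ≤ 2 ^ r
  bk : b0 + k ≤ l
  fk : ∀ K i : ℕ, FK (K + i) ≤ ENNReal.ofReal (E ^ i) * FK K
  rat : ∀ K b : ℕ, b ≤ K → ENNReal.ofReal (1 / uw κ b) * FK K ≤ ENNReal.ofReal (Cc * E ^ (K - b)) * xw b ^ 2
  stp : ∀ u : List Bool, u ∈ SA → MS l L < u.length →
    uw κ (lbL κ C b0 k l L u) ≤ ((nxL κ C b0 k l L u).card : ℝ) ∧ lbL κ C b0 k l L u + k ≤ l ∧
    (lbL κ C b0 k l L u = 0 ∨ b0 ≤ lbL κ C b0 k l L u) ∧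
    ∀ j ∈ nxL κ C b0 k l L u, 1 ≤ j ∧ a2 l L u ≤ j ∧ j ≤ MS l L ∧ j ≤ a2 l L u + 3 * ML l ∧
      ∃ f' f'' : Bool, (f' = false ∧ f'' = false ∧ lbL κ C b0 k l L u + k = l ∨ f' = !f'' ∧ lbL κ C b0 k l L u + k < l) ∧
        u.drop j ∈ StB (κ / 4) κ C (4 * C) b0 l (lbL κ C b0 k l L u) f'' ∧
        (∀ (b : ℕ) (f : Bool), u ∈ StB (κ / 4) κ C (4 * C) b0 l b f →
          u.take j ∈ PC (κ / 4) (4 * C) (L + 4) b (lbL κ C b0 k l L u) ∧
          (f = true → u.take j ∈ PFS (κ / 4) κ C (4 * C) b0 l (L + 4) b (lbL κ C b0 k l L u)) ∧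
          (f' = true → u.take j ∈ PFE (κ / 4) κ C (4 * C) b0 l (L + 4) b (lbL κ C b0 k l L u)) ∧
          ∀ QQ, lm l L u ∈ QQ → u.take j ∈ PCQ (κ / 4) (4 * C) (L + 4) b (lbL κ C b0 k l L u) QQ) ∧
        ∀ (K : ℕ) (A : List Bool), A ++ u ∈ WL K → A ++ u.take j ∈ PC (κ / 4) (4 * C) K 0 (lbL κ C b0 k l L u) ∧
          (f' = true → A ++ u.take j ∈ PFE (κ / 4) κ C (4 * C) b0 l K 0 (lbL κ C b0 k l L u))
  pl : ∀ K b b' : ℕ, b ≤ K → b' ≤ K → gf (PC (κ / 4) (4 * C) K b b') * (xw b * xw b') ≤ ENNReal.ofReal D * FK K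
  fe : ∀ K b b' : ℕ, l ≤ K → b ≤ l → b' ≤ l → (b' = 0 ∨ b0 ≤ b') → gf (PFE (κ / 4) κ C (4 * C) b0 l K b b') *
    (xw b * xw b') ≤ ENNReal.ofReal (A * B ^ (K - l) / (2 : ℝ) ^ (3 * r * (l - b'))) * FK K
  fs : ∀ K b b' : ℕ, l ≤ K → b ≤ l → b' ≤ l → (b = 0 ∨ b0 ≤ b) → gf (PFS (κ / 4) κ C (4 * C) b0 l K b b') *
    (xw b * xw b') ≤ ENNReal.ofReal (A * B ^ (K - l) / (2 : ℝ) ^ (3 * r * (l - b))) * FK K
  two : ∀ b b' : ℕ, b ≤ l → b' ≤ l → gf (PCQ (κ / 4) (4 * C) (L + 4) b b' QQ) * (xw b * xw b') ≤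
    ENNReal.ofReal ((D / z) ^ 3) * FK (L + 4)

/-- the pieces of one block; q: the middle is in QQ -/
def PbL (κ : ℝ) (C b0 l L b : ℕ) (f : Bool) (QQ : Set (List Bool)) (i : (ℕ × Bool × Bool) × Bool) : Set (List Bool) :=
  {p | p ∈ PC (κ / 4) (4 * C) (L + 4) b i.1.1 ∧ (f = true → p ∈ PFS (κ / 4) κ C (4 * C) b0 l (L + 4) b i.1.1) ∧
    (i.1.2.1 = true → p ∈ PFE (κ / 4) κ C (4 * C) b0 l (L + 4) b i.1.1) ∧
    (i.2 = true → p ∈ PCQ (κ / 4) (4 * C) (L + 4) b i.1.1 QQ)}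

/-- the rests behind J blocks less -/
def QbL (κ : ℝ) (C b0 l L K J b : ℕ) (f : Bool) : Set (List Bool) :=
  {u | u ∈ StB (κ / 4) κ C (4 * C) b0 l b f ∧ (∃ A, A ++ u ∈ WL K) ∧ MS l L * (J + 1) < u.length}

variable {κ : ℝ} {C b0 k l L : ℕ} {QQ : Set (List Bool)} {D A B E Cc z : ℝ} {r : ℕ}

/-- a bound with a flag or without -/
lemma EL.fl (h : EL κ C b0 k l L QQ D A B E Cc z r) {x F : ℝ≥0∞} {b : ℕ} {f : Bool} (h1 : x ≤ ENNReal.ofReal D * F)
    (h2 : f = true → x ≤ ENNReal.ofReal (A * B ^ (L + 4 - l) / (2 : ℝ) ^ (3 * r * (l - b))) * F) :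
    x ≤ ENNReal.ofReal (ar D r l b f ^ 3) * F := by
  have hD := h.D1
  have hD3 : D ≤ D ^ 3 := by nlinarith [sq_nonneg D, mul_self_nonneg (D - 1)]
  cases f
  · rw [ar_cube_false]
    exact h1.trans (mul_le_mul_left (ENNReal.ofReal_le_ofReal hD3) _)
  · rw [ar_cube]
    refine (h2 rfl).trans (mul_le_mul_left (ENNReal.ofReal_le_ofReal ?_) _)
    exact div_le_div_of_nonneg_right (h.AD.trans hD3) (by positivity)

lemma EL.mass (h : EL κ C b0 k l L QQ D A B E Cc z r) {b : ℕ} {f : Bool} (hb : b ≤ l) (hb0 : b = 0 ∨ b0 ≤ b)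
    {i : (ℕ × Bool × Bool) × Bool} (hi : i.1.1 ≤ l) (hi0 : i.1.1 = 0 ∨ b0 ≤ i.1.1) :
    (if i.2 = true then ENNReal.ofReal z else 1) * gf (PbL κ C b0 l L b f QQ i) * (xw b * xw i.1.1) ≤
      ENNReal.ofReal (ar D r l b f * ar D r l i.1.1 i.1.2.1 * D) * FK (L + 4) := by
  obtain ⟨⟨b', f', f''⟩, q⟩ := i
  simp only at hi hi0 ⊢
  have hlL := h.lL
  have hD := h.D1
  have hD0 : 0 < D := by linarith
  have hz0 : 0 < z := by linarith [h.z1]
  have hD3 : D ≤ D ^ 3 := by nlinarith [sq_nonneg D, mul_self_nonneg (D - 1)]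
  have h0 : gf (PbL κ C b0 l L b f QQ ((b', f', f''), q)) * (xw b * xw b') ≤ ENNReal.ofReal D * FK (L + 4) :=
    (mul_le_mul_left (gf_mono fun p hp => hp.1) _).trans (h.pl (L + 4) b b' (by omega) (by omega))
  have h1 : gf (PbL κ C b0 l L b f QQ ((b', f', f''), q)) * (xw b * xw b') ≤
      ENNReal.ofReal (ar D r l b f ^ 3) * FK (L + 4) := by
    refine h.fl h0 fun hf => ?_
    have h2 := h.fs (L + 4) b b' (by omega) hb hi hb0
    rw [show L + 4 - l = L + 4 - l by omega] at h2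
    exact (mul_le_mul_left (gf_mono fun p hp => hp.2.1 hf) _).trans h2
  have h3 : gf (PbL κ C b0 l L b f QQ ((b', f', f''), q)) * (xw b * xw b') ≤
      ENNReal.ofReal (ar D r l b' f' ^ 3) * FK (L + 4) := by
    refine h.fl h0 fun hf => ?_
    have h2 := h.fe (L + 4) b b' (by omega) hb hi hi0
    rw [show L + 4 - l = L + 4 - l by omega] at h2
    exact (mul_le_mul_left (gf_mono fun p hp => hp.2.2.1 hf) _).trans h2
  have ha := (ar_pos hD0 r l b f).le
  have ha' := (ar_pos hD0 r l b' f').le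
  cases q
  · simp only [Bool.false_eq_true, if_false, one_mul]
    exact cube_bd ha ha' hD0.le h1 h3 (h0.trans (mul_le_mul_left (ENNReal.ofReal_le_ofReal hD3) _))
  · simp only [if_true]
    have h4 : gf (PbL κ C b0 l L b f QQ ((b', f', f''), true)) * (xw b * xw b') ≤
        ENNReal.ofReal ((D / z) ^ 3) * FK (L + 4) :=
      (mul_le_mul_left (gf_mono fun p hp => hp.2.2.2 rfl) _).trans (h.two b b' hb hi)
    have h5 := cube_bd ha ha' (by positivity) h1 h3 h4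
    calc ENNReal.ofReal z * gf (PbL κ C b0 l L b f QQ ((b', f', f''), true)) * (xw b * xw b')
        = ENNReal.ofReal z * (gf (PbL κ C b0 l L b f QQ ((b', f', f''), true)) * (xw b * xw b')) := by ring
      _ ≤ ENNReal.ofReal z * (ENNReal.ofReal (ar D r l b f * ar D r l b' f' * (D / z)) * FK (L + 4)) := mul_le_mul_right h5 _
      _ = _ := by
          rw [← mul_assoc, ← ENNReal.ofReal_mul hz0.le]
          congr 2
          field_simp

/-- the growth per block -/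
noncomputable def LmL (D E Cc : ℝ) (k μ : ℕ) : ℝ := 2 * (D * Cc * (E ^ μ * (8 * (D ^ 2 * (E ^ (k + 4) * 2 ^ k)))))

/-- one block -/
theorem EL.step (h : EL κ C b0 k l L QQ D A B E Cc z r) (K J : ℕ) (G : ℝ≥0∞)
    (hG : ∀ (b : ℕ) (f : Bool), b ≤ l → (b = 0 ∨ b0 ≤ b) →
      NPR.SW (QbL κ C b0 l L K J b f) (WtL κ C b0 k l L QQ (ENNReal.ofReal z) J) * xw b ≤ ENNReal.ofReal (ar D r l b f) * G)
    (b : ℕ) (f : Bool) (hb : b ≤ l) (hb0 : b = 0 ∨ b0 ≤ b) :
    NPR.SW (QbL κ C b0 l L K (J + 1) b f) (WtL κ C b0 k l L QQ (ENNReal.ofReal z) (J + 1)) * xw b ≤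
      ENNReal.ofReal (ar D r l b f) * (ENNReal.ofReal (LmL D E Cc k (L - l)) * G) := by
  classical
  have hlL := h.lL
  have hD := h.D1
  have hD0 : 0 < D := by linarith
  have hE0 : 0 < E := by linarith [h.E1]
  have hC0 : 0 < Cc := by linarith [h.C1]
  have hkL : k ≤ l := by have := h.bk; omega
  obtain ⟨I, hI⟩ : ∃ I : Finset ((ℕ × Bool × Bool) × Bool), I = (Ix b0 k l) ×ˢ univ := ⟨_, rfl⟩
  have h1 : NPR.SW (QbL κ C b0 l L K (J + 1) b f) (WtL κ C b0 k l L QQ (ENNReal.ofReal z) (J + 1)) ≤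
      ∑ i ∈ I, (ENNReal.ofReal (1 / uw κ i.1.1) * (if i.2 = true then ENNReal.ofReal z else 1)) *
        (gf (PbL κ C b0 l L b f QQ i) * NPR.SW (QbL κ C b0 l L K J i.1.1 i.1.2.2) (WtL κ C b0 k l L QQ (ENNReal.ofReal z) J)) := by
    refine block (N := fun u => nxL κ C b0 k l L u) (ω := fun u j => ENNReal.ofReal (1 / uw κ (lbL κ C b0 k l L u)) *
      ((if lm l L u ∈ QQ then ENNReal.ofReal z else 1) * WtL κ C b0 k l L QQ (ENNReal.ofReal z) J (u.drop j)))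
      (P := PbL κ C b0 l L b f QQ) (Q := fun i => QbL κ C b0 l L K J i.1.1 i.1.2.2) ?_
    rintro u ⟨hu, ⟨A1, hA1⟩, hl⟩ j hj
    have huS : u ∈ SA := by
      have h2 := SA_drop hA1.1 A1.length
      rwa [List.drop_left' rfl] at h2
    have e1 : MS l L * (J + 1 + 1) = MS l L * (J + 1) + MS l L := by ring
    obtain ⟨-, h3, h4, h5⟩ := h.stp u huS (by omega)
    obtain ⟨-, -, h6, h7, f', f'', hff, hst, hpc, -⟩ := h5 j hj
    obtain ⟨p1, p2, p3, p4⟩ := hpc b f hu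
    refine ⟨by omega, ((lbL κ C b0 k l L u, f', f''), decide (lm l L u ∈ QQ)), ?_, ?_, ?_, ?_⟩
    · rw [hI]
      simp only [Ix, mem_product, mem_filter, mem_range, mem_univ, and_true]
      exact ⟨by omega, h4, hff⟩
    · refine ⟨p1, p2, p3, fun hq => p4 QQ ?_⟩
      simpa using hq
    · refine ⟨hst, ⟨A1 ++ u.take j, ?_⟩, ?_⟩
      · rw [List.append_assoc, List.take_append_drop]
        exact hA1
      · rw [List.length_drop]
        omega
    · refine le_of_eq ?_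
      simp only [decide_eq_true_eq]
      ring
  have h8 : ∀ i ∈ I, (ENNReal.ofReal (1 / uw κ i.1.1) * (if i.2 = true then ENNReal.ofReal z else 1)) *
        (gf (PbL κ C b0 l L b f QQ i) * NPR.SW (QbL κ C b0 l L K J i.1.1 i.1.2.2) (WtL κ C b0 k l L QQ (ENNReal.ofReal z) J)) * xw b ≤
      ENNReal.ofReal (ar D r l b f) * G * ENNReal.ofReal (D * Cc *
        (ar D r l i.1.1 i.1.2.1 * ar D r l i.1.1 i.1.2.2 * E ^ (L + 4 - i.1.1))) := by
    intro i hi
    have hi1 : i.1 ∈ Ix b0 k l := by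
      rw [hI] at hi
      exact (mem_product.1 hi).1
    have hi2 : i.1.1 ≤ l ∧ (i.1.1 = 0 ∨ b0 ≤ i.1.1) := by
      simp only [Ix, mem_filter, mem_product, mem_range] at hi1
      exact ⟨by omega, hi1.2.1⟩
    refine (piece_bd (xw_ne_zero _) (xw_ne_top _) (h.mass hb hb0 hi2.1 hi2.2) (hG i.1.1 i.1.2.2 hi2.1 hi2.2)
      (h.rat (L + 4) i.1.1 (by omega))).trans (le_of_eq ?_)
    have a1 := (ar_pos hD0 r l b f).le
    have a2 := (ar_pos hD0 r l i.1.1 i.1.2.1).le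
    have a3 := (ar_pos hD0 r l i.1.1 i.1.2.2).le
    have a4 : 0 ≤ E ^ (L + 4 - i.1.1) := by positivity
    have e2 : ENNReal.ofReal (ar D r l b f * ar D r l i.1.1 i.1.2.1 * D) * (ENNReal.ofReal (ar D r l i.1.1 i.1.2.2) *
        (ENNReal.ofReal (Cc * E ^ (L + 4 - i.1.1)) * G)) = (ENNReal.ofReal (ar D r l b f * ar D r l i.1.1 i.1.2.1 * D) *
        ENNReal.ofReal (ar D r l i.1.1 i.1.2.2) * ENNReal.ofReal (Cc * E ^ (L + 4 - i.1.1))) * G := by ring
    have e3 : ENNReal.ofReal (ar D r l b f) * G * ENNReal.ofReal (D * Cc * (ar D r l i.1.1 i.1.2.1 *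
        ar D r l i.1.1 i.1.2.2 * E ^ (L + 4 - i.1.1))) = (ENNReal.ofReal (ar D r l b f) * ENNReal.ofReal (D * Cc *
        (ar D r l i.1.1 i.1.2.1 * ar D r l i.1.1 i.1.2.2 * E ^ (L + 4 - i.1.1)))) * G := by ring
    rw [e2, e3, ← ENNReal.ofReal_mul (by positivity), ← ENNReal.ofReal_mul (by positivity), ← ENNReal.ofReal_mul a1]
    congr 2
    ring
  calc NPR.SW (QbL κ C b0 l L K (J + 1) b f) (WtL κ C b0 k l L QQ (ENNReal.ofReal z) (J + 1)) * xw b
      ≤ (∑ i ∈ I, (ENNReal.ofReal (1 / uw κ i.1.1) * (if i.2 = true then ENNReal.ofReal z else 1)) *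
        (gf (PbL κ C b0 l L b f QQ i) * NPR.SW (QbL κ C b0 l L K J i.1.1 i.1.2.2) (WtL κ C b0 k l L QQ (ENNReal.ofReal z) J))) * xw b :=
        mul_le_mul_left h1 _
    _ ≤ ∑ i ∈ I, ENNReal.ofReal (ar D r l b f) * G * ENNReal.ofReal (D * Cc *
        (ar D r l i.1.1 i.1.2.1 * ar D r l i.1.1 i.1.2.2 * E ^ (L + 4 - i.1.1))) := by
        rw [Finset.sum_mul]
        exact Finset.sum_le_sum h8
    _ = ENNReal.ofReal (ar D r l b f) * G * ENNReal.ofReal (∑ i ∈ I, D * Cc *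
        (ar D r l i.1.1 i.1.2.1 * ar D r l i.1.1 i.1.2.2 * E ^ (L + 4 - i.1.1))) := by
        rw [← Finset.mul_sum, ENNReal.ofReal_sum_of_nonneg]
        intro i _
        have a2 := (ar_pos hD0 r l i.1.1 i.1.2.1).le
        have a3 := (ar_pos hD0 r l i.1.1 i.1.2.2).le
        positivity
    _ ≤ ENNReal.ofReal (ar D r l b f) * G * ENNReal.ofReal (LmL D E Cc k (L - l)) := by
        refine mul_le_mul_right (ENNReal.ofReal_le_ofReal ?_) _
        rw [hI, Finset.sum_product]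
        simp only [Finset.sum_const, nsmul_eq_mul]
        have e5 : ((univ : Finset Bool).card : ℝ) = 2 := by
          have : (univ : Finset Bool).card = 2 := rfl
          rw [this]
          norm_num
        rw [e5, ← Finset.mul_sum, ← Finset.mul_sum]
        unfold LmL
        have h9 := sum_ixL (b0 := b0) hD h.E1 h.r1 hkL h.lL
        have h10 : 0 ≤ D * Cc := by positivity
        nlinarith [mul_le_mul_of_nonneg_left h9 h10]
    _ = _ := by ring

/-- the first rest -/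
theorem EL.base (h : EL κ C b0 k l L QQ D A B E Cc z r) (K : ℕ) (hK : l ≤ K) (b : ℕ) (f : Bool) (hb : b ≤ l)
    (hb0 : b = 0 ∨ b0 ≤ b) : NPR.SW (QbL κ C b0 l L K 0 b f) (WtL κ C b0 k l L QQ (ENNReal.ofReal z) 0) * xw b ≤
      ENNReal.ofReal (ar D r l b f) * (ENNReal.ofReal (D * B ^ (K + 3 - l)) * FK (K + 3)) := by
  have hlL := h.lL
  have hD := h.D1
  have hD0 : 0 < D := by linarith
  have hB := h.B1
  have hB0 : 0 < B := by linarith
  have hBp : (1 : ℝ) ≤ B ^ (K + 3 - l) := one_le_pow₀ hB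
  have x0 : xw 0 = 1 := by unfold xw; simp
  have e0 : NPR.SW (QbL κ C b0 l L K 0 b f) (WtL κ C b0 k l L QQ (ENNReal.ofReal z) 0) = gf (QbL κ C b0 l L K 0 b f) := by
    rw [← SW_one]
    rfl
  have hW : ∀ u ∈ QbL κ C b0 l L K 0 b f, u ∈ WL (K + 3) := by
    rintro u ⟨-, ⟨A1, hA1⟩, -⟩
    have h2 := NgC.drop_box hA1 (a := A1.length) (by rw [List.length_append]; omega)
    rwa [List.drop_left' rfl] at h2
  have hAD : A ≤ D := by
    have := h.AD
    have h4 : (1 : ℝ) ≤ B ^ (L + 4 - l) := one_le_pow₀ hB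
    nlinarith [h.A0]
  rw [e0]
  cases f
  · have h1 := h.pl (K + 3) b 0 (by omega) (by omega)
    rw [x0, mul_one] at h1
    refine (mul_le_mul_left (gf_mono ?_) _).trans (h1.trans ?_)
    · intro u hu
      obtain ⟨S, hS, hSu, -⟩ := hu.1
      obtain ⟨R, hR⟩ := hSu.trans (List.take_prefix _ _)
      refine ⟨hW u hu, S, hS, R, [], ?_, ?_⟩
      · simp [GE]
      · rw [List.append_nil, hR]
    · rw [← mul_assoc, ← ENNReal.ofReal_mul (ar_pos hD0 r l b false).le]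
      refine mul_le_mul_left (ENNReal.ofReal_le_ofReal ?_) _
      unfold ar
      simp only [Bool.false_eq_true, if_false]
      have : 1 ≤ D * B ^ (K + 3 - l) := by nlinarith
      nlinarith
  · have h1 := h.fs (K + 3) b 0 (by omega) hb (by omega) hb0
    rw [x0, mul_one] at h1
    refine (mul_le_mul_left (gf_mono ?_) _).trans (h1.trans ?_)
    · intro u hu
      obtain ⟨S, hS, hSu, hQ⟩ := hu.1
      obtain ⟨Q, hQf, hSQ, hQu⟩ := hQ rfl
      obtain ⟨R, hR⟩ := hQu.trans (List.take_prefix _ _)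
      obtain ⟨R', hR'⟩ := hSQ
      refine ⟨hW u hu, [], ?_, R, Q, hQf, ?_, S, hS, R', hR'.symm⟩
      · simp [GE]
      · rw [List.append_nil, hR]
    · rw [← mul_assoc, ← ENNReal.ofReal_mul (ar_pos hD0 r l b true).le]
      refine mul_le_mul_left (ENNReal.ofReal_le_ofReal ?_) _
      unfold ar
      simp only [if_true]
      have e1 : (2 : ℝ) ^ (3 * r * (l - b)) = 2 ^ (r * (l - b)) * (2 ^ (r * (l - b))) ^ 2 := by
        rw [← pow_mul, ← pow_add]
        congr 1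
        ring
      obtain ⟨X, hX⟩ : ∃ X : ℝ, X = 2 ^ (r * (l - b)) := ⟨_, rfl⟩
      have hX1 : 1 ≤ X := by rw [hX]; exact one_le_pow₀ (by norm_num)
      have hX0 : 0 < X := by linarith
      rw [e1, ← hX]
      obtain ⟨Y, hY⟩ : ∃ Y : ℝ, Y = B ^ (K + 3 - l) := ⟨_, rfl⟩
      rw [← hY] at hBp ⊢
      have hY0 : 0 < Y := by linarith
      calc A * Y / (X * X ^ 2) ≤ D * Y / (X * X ^ 2) :=
            div_le_div_of_nonneg_right (mul_le_mul_of_nonneg_right hAD hY0.le) (by positivity)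
        _ ≤ D * Y / X := by
            refine div_le_div_of_nonneg_left (by positivity) hX0 ?_
            nlinarith [one_le_pow₀ hX1 (n := 2)]
        _ ≤ D * (D * Y) / X := div_le_div_of_nonneg_right (by nlinarith [mul_pos hD0 hY0]) hX0.le
        _ = _ := by ring

/-- all the rests -/
theorem EL.rests (h : EL κ C b0 k l L QQ D A B E Cc z r) (K : ℕ) (hK : l ≤ K) (J : ℕ) : ∀ (b : ℕ) (f : Bool), b ≤ l →
    (b = 0 ∨ b0 ≤ b) → NPR.SW (QbL κ C b0 l L K J b f) (WtL κ C b0 k l L QQ (ENNReal.ofReal z) J) * xw b ≤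
      ENNReal.ofReal (ar D r l b f) * (ENNReal.ofReal (LmL D E Cc k (L - l) ^ J) * (ENNReal.ofReal (D * B ^ (K + 3 - l)) * FK (K + 3))) := by
  have hLm : 0 ≤ LmL D E Cc k (L - l) := by
    have := h.D1
    have := h.E1
    have := h.C1
    unfold LmL
    positivity
  induction J with
  | zero =>
    intro b f hb hb0
    rw [pow_zero, ENNReal.ofReal_one, one_mul]
    exact h.base K hK b f hb hb0
  | succ J ih =>
    intro b f hb hb0
    refine (h.step K J _ ih b f hb hb0).trans (le_of_eq ?_)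
    rw [pow_succ', ENNReal.ofReal_mul hLm]
    ring

/-- the first pieces -/
def P1L (κ : ℝ) (C b0 l K : ℕ) (i : ℕ × Bool × Bool) : Set (List Bool) :=
  {p | p ∈ PC (κ / 4) (4 * C) K 0 i.1 ∧ (i.2.1 = true → p ∈ PFE (κ / 4) κ C (4 * C) b0 l K 0 i.1)}

lemma EL.mass1 (h : EL κ C b0 k l L QQ D A B E Cc z r) {K : ℕ} (hK : l ≤ K) {i : ℕ × Bool × Bool} (hi : i.1 ≤ l)
    (hi0 : i.1 = 0 ∨ b0 ≤ i.1) :
    gf (P1L κ C b0 l K i) * xw i.1 ≤ ENNReal.ofReal (ar D r l i.1 i.2.1 * (D * B ^ (K - l))) * FK K := by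
  obtain ⟨b, f, g⟩ := i
  simp only at hi hi0 ⊢
  have hlL := h.lL
  have hD := h.D1
  have hD0 : 0 < D := by linarith
  have hB := h.B1
  have hB0 : 0 < B := by linarith
  have hBp : (1 : ℝ) ≤ B ^ (K - l) := one_le_pow₀ hB
  have x0 : xw 0 = 1 := by unfold xw; simp
  have hAD : A ≤ D := by
    have := h.AD
    have h4 : (1 : ℝ) ≤ B ^ (L + 4 - l) := one_le_pow₀ hB
    nlinarith [h.A0]
  cases f
  · have h1 := h.pl K 0 b (by omega) (by omega)
    rw [x0, one_mul] at h1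
    refine (mul_le_mul_left (gf_mono fun p hp => hp.1) _).trans (h1.trans ?_)
    refine mul_le_mul_left (ENNReal.ofReal_le_ofReal ?_) _
    unfold ar
    simp only [Bool.false_eq_true, if_false]
    have : 1 ≤ D * B ^ (K - l) := by nlinarith
    nlinarith
  · have h1 := h.fe K 0 b hK (by omega) hi hi0
    rw [x0, one_mul] at h1
    refine (mul_le_mul_left (gf_mono fun p hp => hp.2 rfl) _).trans (h1.trans ?_)
    refine mul_le_mul_left (ENNReal.ofReal_le_ofReal ?_) _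
    unfold ar
    simp only [if_true]
    have e1 : (2 : ℝ) ^ (3 * r * (l - b)) = 2 ^ (r * (l - b)) * (2 ^ (r * (l - b))) ^ 2 := by
      rw [← pow_mul, ← pow_add]
      congr 1
      ring
    obtain ⟨X, hX⟩ : ∃ X : ℝ, X = 2 ^ (r * (l - b)) := ⟨_, rfl⟩
    have hX1 : 1 ≤ X := by rw [hX]; exact one_le_pow₀ (by norm_num)
    have hX0 : 0 < X := by linarith
    rw [e1, ← hX]
    obtain ⟨Y, hY⟩ : ∃ Y : ℝ, Y = B ^ (K - l) := ⟨_, rfl⟩
    rw [← hY] at hBp ⊢
    have hY0 : 0 < Y := by linarith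
    calc A * Y / (X * X ^ 2) ≤ D * Y / (X * X ^ 2) :=
          div_le_div_of_nonneg_right (mul_le_mul_of_nonneg_right hAD hY0.le) (by positivity)
      _ ≤ D * Y / X := by
          refine div_le_div_of_nonneg_left (by positivity) hX0 ?_
          nlinarith [one_le_pow₀ hX1 (n := 2)]
      _ ≤ D * (D * Y) / X := div_le_div_of_nonneg_right (by nlinarith [mul_pos hD0 hY0]) hX0.le
      _ = _ := by ring

/-- the first block behind s -/
theorem EL.first (h : EL κ C b0 k l L QQ D A B E Cc z r) {K : ℕ} (hK : l ≤ K) (J s : ℕ) :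
    NPR.SW {t | t ∈ WL K ∧ s + MS l L * (J + 2) < t.length} (fun t => WtL κ C b0 k l L QQ (ENNReal.ofReal z) (J + 1) (t.drop s)) ≤
      ENNReal.ofReal (z * (D ^ 2 * B ^ (K - l) * B ^ (K + 3 - l) * (E ^ (K - l) * E ^ 3 * Cc) *
        (E ^ (L - l) * (8 * (D ^ 2 * (E ^ (k + 4) * 2 ^ k))))) * LmL D E Cc k (L - l) ^ J) * FK K := by
  classical
  have hlL := h.lL
  have hD := h.D1
  have hD0 : 0 < D := by linarith
  have hE := h.E1
  have hE0 : 0 < E := by linarith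
  have hB0 : 0 < B := by linarith [h.B1]
  have hz0 : 0 < z := by linarith [h.z1]
  have hC0 : 0 < Cc := by linarith [h.C1]
  have hkL : k ≤ l := by have := h.bk; omega
  have hLm : 0 ≤ LmL D E Cc k (L - l) := by
    unfold LmL
    positivity
  have hz1 : (1 : ℝ≥0∞) ≤ ENNReal.ofReal z := by
    rw [← ENNReal.ofReal_one]
    exact ENNReal.ofReal_le_ofReal h.z1
  have h1 : NPR.SW {t | t ∈ WL K ∧ s + MS l L * (J + 2) < t.length}
      (fun t => WtL κ C b0 k l L QQ (ENNReal.ofReal z) (J + 1) (t.drop s)) ≤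
      ∑ i ∈ Ix b0 k l, (ENNReal.ofReal (1 / uw κ i.1) * ENNReal.ofReal z) *
        (gf (P1L κ C b0 l K i) * NPR.SW (QbL κ C b0 l L K J i.1 i.2.2) (WtL κ C b0 k l L QQ (ENNReal.ofReal z) J)) := by
    have e0 : NPR.SW {t | t ∈ WL K ∧ s + MS l L * (J + 2) < t.length}
        (fun t => WtL κ C b0 k l L QQ (ENNReal.ofReal z) (J + 1) (t.drop s)) =
        NPR.SW {t | t ∈ WL K ∧ s + MS l L * (J + 2) < t.length} (fun t => ∑ j ∈ (nxL κ C b0 k l L (t.drop s)).image (s + ·),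
          ENNReal.ofReal (1 / uw κ (lbL κ C b0 k l L (t.drop s))) *
          ((if lm l L (t.drop s) ∈ QQ then ENNReal.ofReal z else 1) *
            WtL κ C b0 k l L QQ (ENNReal.ofReal z) J (t.drop j))) := by
      congr 1
      funext t
      rw [Finset.sum_image (fun x _ y _ hxy => by simpa using hxy)]
      simp only [WtL, List.drop_drop]
    rw [e0]
    refine block (P := P1L κ C b0 l K) (Q := fun i => QbL κ C b0 l L K J i.1 i.2.2) ?_
    rintro t ⟨ht, hl⟩ j' hj'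
    obtain ⟨j, hj, rfl⟩ := Finset.mem_image.1 hj'
    obtain ⟨u, hu⟩ : ∃ u, u = t.drop s := ⟨_, rfl⟩
    obtain ⟨A1, hA1⟩ : ∃ A1, A1 = t.take s := ⟨_, rfl⟩
    have htu : A1 ++ u = t := by rw [hA1, hu, List.take_append_drop]
    have hAl : A1.length = s := by
      rw [hA1, List.length_take]
      omega
    have hul : u.length = t.length - s := by rw [hu, List.length_drop]
    have huS : u ∈ SA := hu ▸ SA_drop ht.1 s
    have e1 : MS l L * (J + 2) = MS l L * (J + 1) + MS l L := by ring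
    obtain ⟨-, h3, h4, h5⟩ := h.stp u huS (by omega)
    rw [← hu] at hj ⊢
    obtain ⟨-, -, h6, h7, f', f'', hff, hst, -, hpf⟩ := h5 j hj
    obtain ⟨p1, p2⟩ := hpf K A1 (htu ▸ ht)
    have e2 : t.take (s + j) = A1 ++ u.take j := by
      rw [← htu, List.take_append, hAl]
      rw [List.take_of_length_le (by omega : A1.length ≤ s + j)]
      congr 2
      omega
    have e3 : t.drop (s + j) = u.drop j := by
      rw [hu, List.drop_drop]
    refine ⟨by omega, (lbL κ C b0 k l L u, f', f''), ?_, ?_, ?_, ?_⟩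
    · simp only [Ix, mem_product, mem_filter, mem_range, mem_univ, and_true]
      exact ⟨by omega, h4, hff⟩
    · rw [e2]
      exact ⟨p1, p2⟩
    · rw [e3]
      refine ⟨hst, ⟨A1 ++ u.take j, ?_⟩, ?_⟩
      · rw [List.append_assoc, List.take_append_drop, htu]
        exact ht
      · rw [List.length_drop]
        omega
    · rw [e3]
      simp only
      have h9 : (if lm l L u ∈ QQ then ENNReal.ofReal z else 1) ≤ ENNReal.ofReal z := by
        split_ifs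
        · exact le_rfl
        · exact hz1
      calc ENNReal.ofReal (1 / uw κ (lbL κ C b0 k l L u)) * ((if lm l L u ∈ QQ then ENNReal.ofReal z else 1) *
            WtL κ C b0 k l L QQ (ENNReal.ofReal z) J (u.drop j))
          ≤ ENNReal.ofReal (1 / uw κ (lbL κ C b0 k l L u)) * (ENNReal.ofReal z *
            WtL κ C b0 k l L QQ (ENNReal.ofReal z) J (u.drop j)) := mul_le_mul_right (mul_le_mul_left h9 _) _
        _ = _ := by ring
  obtain ⟨G, hGd⟩ : ∃ G : ℝ≥0∞, G = ENNReal.ofReal (LmL D E Cc k (L - l) ^ J) * (ENNReal.ofReal (D * B ^ (K + 3 - l)) * FK (K + 3)) :=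
    ⟨_, rfl⟩
  have h8 : ∀ i ∈ Ix b0 k l, (ENNReal.ofReal (1 / uw κ i.1) * ENNReal.ofReal z) *
        (gf (P1L κ C b0 l K i) * NPR.SW (QbL κ C b0 l L K J i.1 i.2.2) (WtL κ C b0 k l L QQ (ENNReal.ofReal z) J)) ≤
      G * ENNReal.ofReal (z * (D * B ^ (K - l)) * (Cc * E ^ (K - l)) *
        (ar D r l i.1 i.2.1 * ar D r l i.1 i.2.2 * E ^ (L + 4 - i.1))) := by
    intro i hi1
    have hi2 : i.1 ≤ l ∧ (i.1 = 0 ∨ b0 ≤ i.1) := by
      simp only [Ix, mem_filter, mem_product, mem_range] at hi1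
      exact ⟨by omega, hi1.2.1⟩
    have a2 := (ar_pos hD0 r l i.1 i.2.1).le
    have a3 := (ar_pos hD0 r l i.1 i.2.2).le
    have a4 : 0 ≤ E ^ (L + 4 - i.1) := by positivity
    have m1 : ENNReal.ofReal z * gf (P1L κ C b0 l K i) * (1 * xw i.1) ≤
        ENNReal.ofReal (z * (ar D r l i.1 i.2.1 * (D * B ^ (K - l)))) * FK K := by
      rw [one_mul, mul_assoc, ENNReal.ofReal_mul hz0.le, mul_assoc]
      exact mul_le_mul_right (h.mass1 hK hi2.1 hi2.2) _
    have m2 := h.rests K hK J i.1 i.2.2 hi2.1 hi2.2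
    rw [← hGd] at m2
    have m3 := piece_bd (xw_ne_zero _) (xw_ne_top _) m1 m2 (h.rat K i.1 (by omega))
    rw [mul_one] at m3
    refine m3.trans ?_
    have e2 : ENNReal.ofReal (z * (ar D r l i.1 i.2.1 * (D * B ^ (K - l)))) * (ENNReal.ofReal (ar D r l i.1 i.2.2) *
        (ENNReal.ofReal (Cc * E ^ (K - i.1)) * G)) = G * (ENNReal.ofReal (z * (ar D r l i.1 i.2.1 * (D * B ^ (K - l)))) *
        ENNReal.ofReal (ar D r l i.1 i.2.2) * ENNReal.ofReal (Cc * E ^ (K - i.1))) := by ring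
    rw [e2, ← ENNReal.ofReal_mul (by positivity), ← ENNReal.ofReal_mul (by positivity)]
    refine mul_le_mul_right (ENNReal.ofReal_le_ofReal ?_) _
    have h10 : E ^ (K - i.1) ≤ E ^ (K - l) * E ^ (L + 4 - i.1) := by
      rw [← pow_add]
      exact pow_le_pow_right₀ hE (by omega)
    calc z * (ar D r l i.1 i.2.1 * (D * B ^ (K - l))) * ar D r l i.1 i.2.2 * (Cc * E ^ (K - i.1))
        = (z * (ar D r l i.1 i.2.1 * (D * B ^ (K - l))) * ar D r l i.1 i.2.2 * Cc) * E ^ (K - i.1) := by ring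
      _ ≤ (z * (ar D r l i.1 i.2.1 * (D * B ^ (K - l))) * ar D r l i.1 i.2.2 * Cc) * (E ^ (K - l) * E ^ (L + 4 - i.1)) :=
          mul_le_mul_of_nonneg_left h10 (by positivity)
      _ = _ := by ring
  refine h1.trans ((Finset.sum_le_sum h8).trans ?_)
  rw [← Finset.mul_sum, ← ENNReal.ofReal_sum_of_nonneg (fun i _ => by
    have a2 := (ar_pos hD0 r l i.1 i.2.1).le
    have a3 := (ar_pos hD0 r l i.1 i.2.2).le
    positivity), ← Finset.mul_sum]
  have h9 := sum_ixL (b0 := b0) hD h.E1 h.r1 hkL h.lL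
  have hF := h.fk K 3
  calc G * ENNReal.ofReal (z * (D * B ^ (K - l)) * (Cc * E ^ (K - l)) *
        ∑ i ∈ Ix b0 k l, ar D r l i.1 i.2.1 * ar D r l i.1 i.2.2 * E ^ (L + 4 - i.1))
      ≤ (ENNReal.ofReal (LmL D E Cc k (L - l) ^ J) * (ENNReal.ofReal (D * B ^ (K + 3 - l)) * (ENNReal.ofReal (E ^ 3) * FK K))) *
        ENNReal.ofReal (z * (D * B ^ (K - l)) * (Cc * E ^ (K - l)) * (E ^ (L - l) * (8 * (D ^ 2 * (E ^ (k + 4) * 2 ^ k))))) := by
        rw [hGd]
        refine mul_le_mul' (mul_le_mul_right (mul_le_mul_right hF _) _) (ENNReal.ofReal_le_ofReal ?_)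
        exact mul_le_mul_of_nonneg_left h9 (by positivity)
    _ = (ENNReal.ofReal (LmL D E Cc k (L - l) ^ J) * ENNReal.ofReal (D * B ^ (K + 3 - l)) * ENNReal.ofReal (E ^ 3) *
        ENNReal.ofReal (z * (D * B ^ (K - l)) * (Cc * E ^ (K - l)) * (E ^ (L - l) * (8 * (D ^ 2 * (E ^ (k + 4) * 2 ^ k)))))) * FK K := by ring
    _ = _ := by
        rw [← ENNReal.ofReal_mul (by positivity), ← ENNReal.ofReal_mul (by positivity),
          ← ENNReal.ofReal_mul (by positivity)]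
        congr 2
        ring

/-! ### the theorem -/

/-- the bound for one scale -/
theorem EL.fin (h : EL κ C b0 k l L QQ D A B E Cc z r) {y : ℝ} {q : ℕ} (hy1 : 4 ≤ y) (hyL : 4 * LmL D E Cc k (L - l) ≤ y)
    (hz : z = y ^ q)
    {K : ℕ} (hK : L + 1 ≤ K) (J s : ℕ) :
    gf {t | t ∈ WL K ∧ s + MS l L * (J + 1) < t.length ∧ ¬ ∃ g, g ≤ J ∧ q * (J - g) ≤ J ∧ ChL κ C b0 k l L QQ J g (t.drop s)} ≤
      ENNReal.ofReal (((z * (D ^ 2 * B ^ 3 * E ^ 3 * Cc * (E ^ (L - l) * (8 * (D ^ 2 * (E ^ (k + 4) * 2 ^ k))))) + 1) * (B ^ 2 * E)) ^ (K - l) /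
        4 ^ J) * FK K := by
  have hlL := h.lL
  have hD := h.D1
  have hD0 : 0 < D := by linarith
  have hE := h.E1
  have hE0 : 0 < E := by linarith
  have hB := h.B1
  have hB0 : 0 < B := by linarith
  have hz0 : 0 < z := by linarith [h.z1]
  have hC0 : 0 < Cc := by linarith [h.C1]
  have hy0 : 0 < y := by linarith
  have hLm : 0 ≤ LmL D E Cc k (L - l) := by
    unfold LmL
    positivity
  have hz1 : (1 : ℝ≥0∞) ≤ ENNReal.ofReal z := by
    rw [← ENNReal.ofReal_one]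
    exact ENNReal.ofReal_le_ofReal h.z1
  rcases J with _ | J
  · have e : {t | t ∈ WL K ∧ s + MS l L * (0 + 1) < t.length ∧ ¬ ∃ g, g ≤ 0 ∧ q * (0 - g) ≤ 0 ∧ ChL κ C b0 k l L QQ 0 g (t.drop s)} = ∅ := by
      ext t
      simp only [Set.mem_setOf_eq, Set.mem_empty_iff_false, iff_false, not_and, not_not]
      intro _ _
      exact ⟨0, le_rfl, by simp, rfl⟩
    rw [e]
    unfold gf
    simp
  · obtain ⟨T, hT⟩ : ∃ T, T = {t | t ∈ WL K ∧ s + MS l L * (J + 1 + 1) < t.length ∧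
      ¬ ∃ g, g ≤ J + 1 ∧ q * (J + 1 - g) ≤ J + 1 ∧ ChL κ C b0 k l L QQ (J + 1) g (t.drop s)} := ⟨_, rfl⟩
    rw [← hT]
    have h1 : ∀ t ∈ T, ENNReal.ofReal (y ^ (J + 1)) ≤ WtL κ C b0 k l L QQ (ENNReal.ofReal z) (J + 1) (t.drop s) := by
      intro t ht
      rw [hT] at ht
      obtain ⟨h2, h3, h4⟩ := ht
      obtain ⟨g, hg, hch, hw⟩ := WtL_low (QQ := QQ) h.hκ hz1 (fun u hu hl => by
        obtain ⟨a1, -, -, a4⟩ := h.stp u hu hl
        exact ⟨a1, fun j hj => by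
          obtain ⟨-, -, a5, -⟩ := a4 j hj
          exact a5⟩) (J + 1) (t.drop s) (SA_drop h2.1 s) (by rw [List.length_drop]; omega)
      refine le_trans ?_ hw
      have h5 : ¬ q * (J + 1 - g) ≤ J + 1 := fun h6 => h4 ⟨g, hg, h6, hch⟩
      rw [← ENNReal.ofReal_pow hz0.le, hz, ← pow_mul]
      exact ENNReal.ofReal_le_ofReal (pow_le_pow_right₀ (by linarith) (by omega))
    have h6 : gf T * ENNReal.ofReal (y ^ (J + 1)) ≤ ENNReal.ofReal (z * (D ^ 2 * B ^ (K - l) * B ^ (K + 3 - l) *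
        (E ^ (K - l) * E ^ 3 * Cc) * (E ^ (L - l) * (8 * (D ^ 2 * (E ^ (k + 4) * 2 ^ k))))) * LmL D E Cc k (L - l) ^ J) * FK K := by
      refine (NPR.SW_const h1).trans ((NPR.SW_mono ?_ fun _ _ => le_rfl).trans (h.first (by omega) J s))
      intro t ht
      rw [hT] at ht
      exact ⟨ht.1, ht.2.1⟩
    have hyp : 0 < y ^ (J + 1) := by positivity
    have h7 : gf T = gf T * ENNReal.ofReal (y ^ (J + 1)) * ENNReal.ofReal (1 / y ^ (J + 1)) := by
      rw [mul_assoc, ← ENNReal.ofReal_mul hyp.le, mul_one_div, div_self hyp.ne', ENNReal.ofReal_one, mul_one]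
    rw [h7]
    refine (mul_le_mul_left h6 _).trans ?_
    rw [mul_assoc, mul_comm (FK K), ← mul_assoc, ← ENNReal.ofReal_mul (by positivity)]
    refine mul_le_mul_left (ENNReal.ofReal_le_ofReal ?_) _
    obtain ⟨n, hn⟩ : ∃ n, n = K - l := ⟨_, rfl⟩
    have hn1 : 1 ≤ n := by omega
    have hn3 : K + 3 - l = n + 3 := by omega
    rw [hn3, ← hn]
    obtain ⟨N, hN⟩ : ∃ N, N = z * (D ^ 2 * B ^ 3 * E ^ 3 * Cc * (E ^ (L - l) * (8 * (D ^ 2 * (E ^ (k + 4) * 2 ^ k))))) := ⟨_, rfl⟩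
    have hN0 : 0 ≤ N := by rw [hN]; positivity
    rw [← hN]
    have e1 : z * (D ^ 2 * B ^ n * B ^ (n + 3) * (E ^ n * E ^ 3 * Cc) * (E ^ (L - l) * (8 * (D ^ 2 * (E ^ (k + 4) * 2 ^ k))))) *
        LmL D E Cc k (L - l) ^ J * (1 / y ^ (J + 1)) = N * (B ^ 2 * E) ^ n * (LmL D E Cc k (L - l) ^ J / y ^ (J + 1)) := by
      rw [hN, mul_pow, pow_add B n 3, ← pow_mul B 2 n, mul_comm 2 n, pow_mul B n 2]
      ring
    rw [e1]
    have h8 : LmL D E Cc k (L - l) ^ J / y ^ (J + 1) ≤ 1 / 4 ^ (J + 1) := by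
      rw [div_le_div_iff₀ hyp (by positivity), one_mul]
      calc LmL D E Cc k (L - l) ^ J * 4 ^ (J + 1) = (4 * LmL D E Cc k (L - l)) ^ J * 4 := by
            rw [mul_pow, pow_succ]
            ring
        _ ≤ y ^ J * y := mul_le_mul (pow_le_pow_left₀ (by positivity) hyL J) hy1 (by norm_num) (by positivity)
        _ = y ^ (J + 1) := (pow_succ _ _).symm
    have h9 : N ≤ (N + 1) ^ n := by
      calc N ≤ (N + 1) ^ 1 := by linarith
        _ ≤ (N + 1) ^ n := pow_le_pow_right₀ (by linarith) hn1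
    have h10 : 0 < (B ^ 2 * E) ^ n := by positivity
    calc N * (B ^ 2 * E) ^ n * (LmL D E Cc k (L - l) ^ J / y ^ (J + 1)) ≤ (N + 1) ^ n * (B ^ 2 * E) ^ n * (1 / 4 ^ (J + 1)) :=
          mul_le_mul (mul_le_mul_of_nonneg_right h9 h10.le) h8 (by positivity) (by positivity)
      _ = _ := by
          rw [mul_pow (N + 1)]
          ring

/-- **the engine for long blocks**: μ = L - l; at most J / q middles are in QQ -/
theorem etL_of {κ : ℝ} {C : ℕ} (hκ : 0 < κ) (h1 : StepL κ C) (h2 : PlainM) (h3 : TwoE) (h4 : FlagE κ C) (h5 : FlagS κ C) :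
    ∃ k0 b00 : ℕ, ∀ k b0 : ℕ, k0 ≤ k → b00 ≤ b0 → ETL κ C b0 k := by
  have hη : 0 < κ / 4 := by positivity
  obtain ⟨k0, b1, -, -, hst⟩ := h1
  obtain ⟨E, Cc, hE, hCc, hfk, hrat⟩ := ratio hκ
  obtain ⟨r, hr⟩ : ∃ r : ℕ, 2 * E ≤ 2 ^ r := by
    obtain ⟨r, hr⟩ := pow_unbounded_of_one_lt (2 * E) (by norm_num : (1 : ℝ) < 2)
    exact ⟨r, hr.le⟩
  obtain ⟨C0, hC0, hpl⟩ := h2 (κ / 4) (4 * C) hη
  obtain ⟨C1, c, hC1, hc, htw⟩ := h3 (κ / 4) (4 * C) hη
  obtain ⟨Be, be, hBe, hbe, hfe⟩ := h4 (κ / 4) (4 * C) (3 * r) hη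
  obtain ⟨Bs, bs, hBs, hbs, hfs⟩ := h5 (κ / 4) (4 * C) (3 * r) hη
  refine ⟨k0, max b1 (max be bs), fun k b0 hk hb μ q => ?_⟩
  have hb1 : b1 ≤ b0 := (le_max_left _ _).trans hb
  have hb2 : be ≤ b0 := ((le_max_left _ _).trans (le_max_right _ _)).trans hb
  have hb3 : bs ≤ b0 := ((le_max_right _ _).trans (le_max_right _ _)).trans hb
  obtain ⟨Ae, hAe, hfe'⟩ := hfe b0 hb2
  obtain ⟨As, hAs, hfs'⟩ := hfs b0 hb3
  obtain ⟨B, hB⟩ : ∃ B, B = max Be Bs := ⟨_, rfl⟩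
  have hB1 : 1 ≤ B := hB ▸ hBe.trans (le_max_left _ _)
  obtain ⟨A, hA⟩ : ∃ A, A = Ae + As := ⟨_, rfl⟩
  have hA0 : 0 ≤ A := by rw [hA]; linarith
  obtain ⟨D, hD⟩ : ∃ D, D = 1 + C0 + C1 + A * B ^ (μ + 4) := ⟨_, rfl⟩
  have hAB : 0 ≤ A * B ^ (μ + 4) := by positivity
  have hD1 : 1 ≤ D := by rw [hD]; linarith
  have hD0 : 0 < D := by linarith
  have hLm : 0 ≤ LmL D E Cc k μ := by
    unfold LmL
    positivity
  obtain ⟨y, hy⟩ : ∃ y, y = 4 * (LmL D E Cc k μ + 1) := ⟨_, rfl⟩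
  have hy4 : 4 ≤ y := by rw [hy]; linarith
  obtain ⟨z, hz⟩ : ∃ z, z = y ^ q := ⟨_, rfl⟩
  have hz1 : 1 ≤ z := by rw [hz]; exact one_le_pow₀ (by linarith)
  have hz0 : 0 < z := by linarith
  obtain ⟨δ, hδ⟩ : ∃ δ : ℝ, δ = (1 / z ^ 3) ^ c⁻¹ := ⟨_, rfl⟩
  have hzz : (1 : ℝ) ≤ z ^ 3 := one_le_pow₀ hz1
  have hδ0 : 0 < δ := by rw [hδ]; positivity
  have hδ1 : δ ≤ 1 := by
    rw [hδ]
    refine Real.rpow_le_one (by positivity) ?_ (by positivity)
    rw [div_le_one (by positivity)]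
    exact hzz
  have hδc : δ ^ c = 1 / z ^ 3 := by
    rw [hδ]
    exact Real.rpow_inv_rpow (by positivity) hc.ne'
  refine ⟨δ, (z * (D ^ 2 * B ^ 3 * E ^ 3 * Cc * (E ^ μ * (8 * (D ^ 2 * (E ^ (k + 4) * 2 ^ k))))) + 1) * (B ^ 2 * E), b0 + k,
    hδ0, ?_, fun l QQ hl hQQ K J s hK => ?_⟩
  · have h6 : 0 ≤ z * (D ^ 2 * B ^ 3 * E ^ 3 * Cc * (E ^ μ * (8 * (D ^ 2 * (E ^ (k + 4) * 2 ^ k))))) := by positivity
    have h7 : 1 ≤ B ^ 2 * E := by
      have := one_le_pow₀ hB1 (n := 2)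
      nlinarith
    nlinarith
  · obtain ⟨L, hL⟩ : ∃ L, L = l + μ := ⟨_, rfl⟩
    have hμ : L - l = μ := by omega
    rw [← hL] at hQQ ⊢
    have hEH : EL κ C b0 k l L QQ D A B E Cc z r := by
      refine ⟨hκ, by omega, hD1, hA0, hB1, hE, hCc, hz1, by rw [hD, show L + 4 - l = μ + 4 by omega]; linarith, hr, hl, hfk,
        hrat, hst k b0 l L hk hb1 hl (by omega), ?_, ?_, ?_, ?_⟩
      · intro K b b' hb hb'
        exact (hpl K b b' hb hb').trans (mul_le_mul_left (ENNReal.ofReal_le_ofReal (by rw [hD]; linarith)) _)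
      · intro K b b' hLK hb hb' hb0
        refine (hfe' K l b b' hLK (by omega) hb hb' hb0).trans (mul_le_mul_left (ENNReal.ofReal_le_ofReal ?_) _)
        refine div_le_div_of_nonneg_right (mul_le_mul (by rw [hA]; linarith) ?_ (by positivity) hA0) (by positivity)
        exact pow_le_pow_left₀ (by linarith) (hB ▸ le_max_left _ _) _
      · intro K b b' hLK hb hb' hb0
        refine (hfs' K l b b' hLK (by omega) hb hb' hb0).trans (mul_le_mul_left (ENNReal.ofReal_le_ofReal ?_) _)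
        refine div_le_div_of_nonneg_right (mul_le_mul (by rw [hA]; linarith) ?_ (by positivity) hA0) (by positivity)
        exact pow_le_pow_left₀ (by linarith) (hB ▸ le_max_right _ _) _
      · intro b b' hb hb'
        have h6 : gf {t | t ∈ WL (L + 4 + 12) ∧ t ∈ Fac QQ} ≤ ENNReal.ofReal δ * FK (L + 4) := by
          rw [show L + 4 + 12 = L + 16 by omega]
          exact hQQ.trans (mul_le_mul_right (FK_mono (by omega)) _)
        refine (htw (L + 4) QQ δ hδ0 hδ1 h6 b b' (by omega) (by omega)).trans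
          (mul_le_mul_left (ENNReal.ofReal_le_ofReal ?_) _)
        rw [hδc, div_pow, mul_one_div]
        refine div_le_div_of_nonneg_right ?_ (by positivity)
        have hD3 : D ≤ D ^ 3 := by nlinarith [sq_nonneg D, mul_self_nonneg (D - 1)]
        have : C1 ≤ D := by rw [hD]; linarith
        linarith
    have h7 := hEH.fin (q := q) hy4 (by rw [hy, hμ]; linarith) hz (K := K) (by omega) J s
    rw [hμ] at h7
    exact h7

end SSI

end HexObs
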