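import Pool.Agent.SSI.Crv
import Pool.Agent.SSI.RtF

/-!
# SSI (self-similar limits): the estimates for the laws of the windows, rows E1, E2, E3
-/

set_option autoImplicit false

open MeasureTheory Filter Topology
open scoped Classical

namespace Pool.Agent.SSI

open Res Pool.Agent.IW.Res

open HexObs.SSI (dS HB LB PB Hr cB)

/-! ### the measure of the time interval -/

lemma vol_sub (a b : ℝ) : (volume : Measure unitInterval) {x | a ≤ (x : ℝ) ∧ (x : ℝ) ≤ b} ≤ ENNReal.ofReal (b - a) := by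
  rw [← volume_image_subtype_coe measurableSet_Icc, ← Real.volume_Icc]
  refine measure_mono ?_
  rintro _ ⟨x, hx, rfl⟩
  exact hx

lemma cont_win {n : ℕ} (hn : 1 ≤ n) (γ : C(unitInterval, ℂ)) :
    Continuous fun p : unitInterval × unitInterval => win γ p.1 ((n : ℝ) ^ (-(p.2 : ℝ))) := by
  have hn0 : (0 : ℝ) < n := by exact_mod_cast hn
  refine ContinuousMap.continuous_of_continuous_uncurry _ ?_
  have h1 : Continuous fun q : (unitInterval × unitInterval) × ℝ => (n : ℝ) ^ (-(q.1.2 : ℝ)) :=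
    (Real.continuous_const_rpow hn0.ne').comp (by fun_prop)
  have h2 : Continuous fun q : (unitInterval × unitInterval) × ℝ => ((n : ℝ) ^ (-(q.1.2 : ℝ))) ^ (3 / 4 : ℝ) :=
    h1.rpow_const fun q => Or.inr (by norm_num)
  show Continuous fun q : (unitInterval × unitInterval) × ℝ =>
    (γ (Set.projIcc 0 1 zero_le_one ((q.1.1 : ℝ) + (n : ℝ) ^ (-(q.1.2 : ℝ)) * q.2)) -
      γ (Set.projIcc 0 1 zero_le_one (q.1.1 : ℝ))) / ((((n : ℝ) ^ (-(q.1.2 : ℝ))) ^ (3 / 4 : ℝ) : ℝ) : ℂ)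
  refine Continuous.div ?_ (Complex.continuous_ofReal.comp h2) fun q => ?_
  · refine (γ.continuous.comp (continuous_projIcc.comp ?_)).sub (γ.continuous.comp (continuous_projIcc.comp ?_))
    · exact (by fun_prop : Continuous fun q : (unitInterval × unitInterval) × ℝ => (q.1.1 : ℝ)).add (h1.mul continuous_snd)
    · fun_prop
  · have : (0 : ℝ) < ((n : ℝ) ^ (-(q.1.2 : ℝ))) ^ (3 / 4 : ℝ) := by positivity
    exact_mod_cast this.ne'

lemma emp_apply {n : ℕ} (hn : 1 ≤ n) (s : Fin n → Fin 3) {S : Set C(ℝ, ℂ)} (hS : MeasurableSet S) :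
    emp s S = (volume : Measure (unitInterval × unitInterval)) {p | win (curve s) p.1 ((n : ℝ) ^ (-(p.2 : ℝ))) ∈ S} :=
  Measure.map_apply (cont_win hn (curve s)).measurable hS

lemma emp_prob {n : ℕ} (hn : 1 ≤ n) (s : Fin n → Fin 3) : IsProbabilityMeasure (emp s) :=
  Measure.isProbabilityMeasure_map (cont_win hn (curve s)).measurable.aemeasurable

/-- **one scale** -/
theorem one_scale {Bad : Set C(ℝ, ℂ)} {B' : ℝ → (ℕ → ℕ → ℝ) → ℕ → ℕ → Prop} {T r0 : ℝ}
    (h1 : ∀ (n : ℕ) (r x : ℝ) (s : Fin n → Fin 3), 1 ≤ n → r0 ≤ r → r * T ≤ n * x → zz n x r T + Hr T r ≤ n →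
      win (curve s) x (r / n) ∈ Bad → B' r (dS s) (zz n x r T) (zz n x r T + Hr T r)) {n : ℕ} (hn : 1 ≤ n) {r : ℝ} (hr : r0 ≤ r)
    (hr1 : 0 ≤ r * T) (s : Fin n → Fin 3) :
    (volume : Measure unitInterval) {x | win (curve s) (x : ℝ) (r / n) ∈ Bad} ≤
      ENNReal.ofReal ((cB (B' r) (dS s) n (Hr T r) : ℝ) / n + (r * T + Hr T r) / n) := by
  have hn0 : (0 : ℝ) < n := by exact_mod_cast hn
  obtain ⟨F, hF⟩ : ∃ F : Finset ℕ, F = (Finset.range (n + 1 - Hr T r)).filter fun z => B' r (dS s) z (z + Hr T r) := ⟨_, rfl⟩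
  have hFc : cB (B' r) (dS s) n (Hr T r) = F.card := by
    rw [hF]
    unfold cB
    congr
  have hsub : {x : unitInterval | win (curve s) (x : ℝ) (r / n) ∈ Bad} ⊆
      (⋃ z ∈ F, {x : unitInterval | ((z : ℝ) + r * T) / n ≤ (x : ℝ) ∧ (x : ℝ) ≤ ((z : ℝ) + r * T + 1) / n}) ∪
        ({x : unitInterval | 0 ≤ (x : ℝ) ∧ (x : ℝ) ≤ r * T / n} ∪
          {x : unitInterval | 1 - (Hr T r : ℝ) / n ≤ (x : ℝ) ∧ (x : ℝ) ≤ 1}) := by
    intro x hx
    rcases le_or_gt (r * T) (n * (x : ℝ)) with h2 | h2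
    · rcases Nat.lt_or_ge n (zz n x r T + Hr T r) with h3 | h3
      · right
        right
        refine ⟨?_, x.2.2⟩
        have h4 := Nat.floor_le (show 0 ≤ n * (x : ℝ) - r * T by linarith)
        have h5 : (n : ℝ) < ((zz n x r T + Hr T r : ℕ) : ℝ) := by exact_mod_cast h3
        push_cast at h5
        have h6 : ((zz n x r T : ℕ) : ℝ) ≤ n * (x : ℝ) - r * T := h4
        rw [sub_le_iff_le_add, ← sub_le_iff_le_add', le_div_iff₀ hn0]
        linarith
      · left
        rw [Set.mem_iUnion₂]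
        have h4 := Nat.floor_le (show 0 ≤ n * (x : ℝ) - r * T by linarith)
        have h5 := Nat.lt_floor_add_one (n * (x : ℝ) - r * T)
        refine ⟨zz n x r T, ?_, ?_, ?_⟩
        · rw [hF, Finset.mem_filter, Finset.mem_range]
          exact ⟨by omega, h1 n r x s hn hr h2 h3 hx⟩
        · rw [div_le_iff₀ hn0]
          have h6 : ((zz n x r T : ℕ) : ℝ) ≤ n * (x : ℝ) - r * T := h4
          linarith
        · rw [le_div_iff₀ hn0]
          have h6 : n * (x : ℝ) - r * T < ((zz n x r T : ℕ) : ℝ) + 1 := h5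
          linarith
    · right
      left
      refine ⟨x.2.1, ?_⟩
      rw [le_div_iff₀ hn0]
      linarith
  refine (measure_mono hsub).trans ((measure_union_le _ _).trans ?_)
  have a1 : (volume : Measure unitInterval) (⋃ z ∈ F, {x : unitInterval | ((z : ℝ) + r * T) / n ≤ (x : ℝ) ∧
      (x : ℝ) ≤ ((z : ℝ) + r * T + 1) / n}) ≤ ENNReal.ofReal ((cB (B' r) (dS s) n (Hr T r) : ℝ) / n) := by
    refine (measure_biUnion_finset_le _ _).trans ?_
    have h2 : ∀ z ∈ F, (volume : Measure unitInterval) {x : unitInterval | ((z : ℝ) + r * T) / n ≤ (x : ℝ) ∧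
        (x : ℝ) ≤ ((z : ℝ) + r * T + 1) / n} ≤ ENNReal.ofReal (1 / n) := by
      intro z _
      refine (vol_sub _ _).trans (ENNReal.ofReal_le_ofReal (le_of_eq ?_))
      field_simp
      ring
    refine (Finset.sum_le_sum h2).trans ?_
    rw [Finset.sum_const, nsmul_eq_mul, hFc, ← ENNReal.ofReal_natCast, ← ENNReal.ofReal_mul (Nat.cast_nonneg _)]
    refine ENNReal.ofReal_le_ofReal (le_of_eq ?_)
    ring
  have a2 := vol_sub 0 (r * T / n)
  have a3 := vol_sub (1 - (Hr T r : ℝ) / n) 1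
  refine (add_le_add a1 ((measure_union_le _ _).trans (add_le_add a2 a3))).trans (le_of_eq ?_)
  have e1 : (0 : ℝ) ≤ (Hr T r : ℝ) / n := by positivity
  have e2 : (0 : ℝ) ≤ r * T / n := by positivity
  have e3 : (0 : ℝ) ≤ (cB (B' r) (dS s) n (Hr T r) : ℝ) / n := by positivity
  rw [← ENNReal.ofReal_add (by linarith) (by linarith), ← ENNReal.ofReal_add e3 (by linarith)]
  congr 1
  ring

/-- **all scales** -/
theorem est_gen {Bad : Set C(ℝ, ℂ)} (hopen : IsOpen Bad) {B' : ℝ → (ℕ → ℕ → ℝ) → ℕ → ℕ → Prop} {T ε : ℝ} (hT : 1 / 2 ≤ T)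
    (hε : 0 < ε)
    (h1 : ∃ r0 : ℝ, 1 ≤ r0 ∧ ∀ (n : ℕ) (r x : ℝ) (s : Fin n → Fin 3), 1 ≤ n → r0 ≤ r → r * T ≤ n * x →
      zz n x r T + Hr T r ≤ n → win (curve s) x (r / n) ∈ Bad → B' r (dS s) (zz n x r T) (zz n x r T + Hr T r))
    (h2 : ∃ r0 cn : ℝ, 1 ≤ r0 ∧ 0 < cn ∧ ∀ (r : ℝ) (n : ℕ), r0 ≤ r → cn * r ≤ n →
      ∑ s ∈ saw n, (cB (B' r) (dS s) n (Hr T r) : ℝ) ≤ ε * n * ((saw n).card : ℝ)) :
    ∃ n0 : ℕ, ∀ n : ℕ, n0 ≤ n → mean n (fun s => (emp s).real Bad) ≤ 3 * ε := by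
  obtain ⟨r1, hr1, h1⟩ := h1
  obtain ⟨r2, c2, hr2, hc2, h2⟩ := h2
  obtain ⟨R, hR⟩ : ∃ R : ℝ, R = max r1 r2 := ⟨_, rfl⟩
  have hR1 : r1 ≤ R := by rw [hR]; exact le_max_left _ _
  have hR2 : r2 ≤ R := by rw [hR]; exact le_max_right _ _
  have hR0 : 1 ≤ R := hr1.trans hR1
  obtain ⟨c, hc⟩ : ∃ c : ℝ, c = max c2 ((3 * T + 4) / ε) + 1 := ⟨_, rfl⟩
  have hcc2 : c2 ≤ c := by rw [hc]; linarith [le_max_left c2 ((3 * T + 4) / ε)]
  have hcT : (3 * T + 4) / ε ≤ c := by rw [hc]; linarith [le_max_right c2 ((3 * T + 4) / ε)]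
  have hc1 : 1 ≤ c := by
    rw [hc]
    linarith [le_max_left c2 ((3 * T + 4) / ε)]
  have hT0 : 0 < T := by linarith
  -- n large
  obtain ⟨n0, hn0⟩ := exists_nat_ge (Real.exp ((Real.log R + Real.log c) / ε + 1))
  refine ⟨n0, fun n hn => ?_⟩
  have hnE : Real.exp ((Real.log R + Real.log c) / ε + 1) ≤ n := hn0.trans (by exact_mod_cast hn)
  have hlR : 0 ≤ Real.log R := Real.log_nonneg hR0
  have hlc : 0 ≤ Real.log c := Real.log_nonneg hc1
  have hnpos : (0 : ℝ) < n := lt_of_lt_of_le (Real.exp_pos _) hnE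
  have hn1 : 1 ≤ n := by exact_mod_cast hnpos
  have hlog : (Real.log R + Real.log c) / ε + 1 ≤ Real.log n := by
    rw [Real.le_log_iff_exp_le hnpos]
    exact hnE
  have hlog0 : 0 < Real.log n := by
    have : 0 ≤ (Real.log R + Real.log c) / ε := by positivity
    linarith
  have hlog1 : (Real.log R + Real.log c) / Real.log n ≤ ε := by
    rw [div_le_iff₀ hlog0]
    have h3 := mul_le_mul_of_nonneg_left hlog hε.le
    have h4 : ε * ((Real.log R + Real.log c) / ε + 1) = Real.log R + Real.log c + ε := by field_simp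
    rw [h4] at h3
    linarith
  have hcard : (0 : ℝ) < ((saw n).card : ℝ) := by exact_mod_cast (NTSF.saw_nonempty n).card_pos
  -- the sum over the walks, one scale
  have hone : ∀ y : unitInterval, ¬ (y : ℝ) ≤ Real.log c / Real.log n → ¬ 1 - Real.log R / Real.log n ≤ (y : ℝ) →
      ∑ s ∈ saw n, (volume : Measure unitInterval) {x | win (curve s) (x : ℝ) ((n : ℝ) ^ (-(y : ℝ))) ∈ Bad} ≤
        ENNReal.ofReal (2 * ε * ((saw n).card : ℝ)) := by
    intro y hy1 hy2
    push Not at hy1 hy2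
    obtain ⟨r, hr⟩ : ∃ r : ℝ, r = (n : ℝ) ^ (1 - (y : ℝ)) := ⟨_, rfl⟩
    have hr0 : 0 < r := by rw [hr]; positivity
    have hrn : r / n = (n : ℝ) ^ (-(y : ℝ)) := by
      rw [hr, Real.rpow_sub hnpos, Real.rpow_one, Real.rpow_neg hnpos.le]
      field_simp
    have hRr : R ≤ r := by
      rw [← Real.log_le_log_iff (by linarith) hr0, hr, Real.log_rpow hnpos]
      have h3 : (y : ℝ) + Real.log R / Real.log n < 1 := by linarith
      have h4 := mul_lt_mul_of_pos_right h3 hlog0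
      rw [add_mul, div_mul_cancel₀ _ hlog0.ne'] at h4
      linarith
    have hcr : c * r ≤ n := by
      rw [← Real.log_le_log_iff (by positivity) hnpos, Real.log_mul (by linarith) hr0.ne', hr, Real.log_rpow hnpos]
      rw [div_lt_iff₀ hlog0] at hy1
      linarith
    have h3 := h2 r n (hR2.trans hRr) ((mul_le_mul_of_nonneg_right hcc2 hr0.le).trans hcr)
    have h4 : (r * T + Hr T r) / n ≤ ε := by
      rw [div_le_iff₀ hnpos]
      have h5 : (Hr T r : ℝ) ≤ (2 * T + 4) * r := by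
        unfold Hr
        push_cast
        have h6 := Nat.floor_le (show 0 ≤ 2 * T * r by positivity)
        nlinarith
      have h6 : (3 * T + 4) * r ≤ ε * n := by
        rw [div_le_iff₀ hε] at hcT
        calc (3 * T + 4) * r ≤ c * ε * r := mul_le_mul_of_nonneg_right hcT hr0.le
          _ = ε * (c * r) := by ring
          _ ≤ ε * n := mul_le_mul_of_nonneg_left hcr hε.le
      linarith
    have h5 : ∀ s ∈ saw n, (volume : Measure unitInterval) {x | win (curve s) (x : ℝ) ((n : ℝ) ^ (-(y : ℝ))) ∈ Bad} ≤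
        ENNReal.ofReal ((cB (B' r) (dS s) n (Hr T r) : ℝ) / n + ε) := by
      intro s _
      rw [← hrn]
      refine (one_scale h1 hn1 (hR1.trans hRr) (by positivity) s).trans (ENNReal.ofReal_le_ofReal ?_)
      linarith
    refine (Finset.sum_le_sum h5).trans ?_
    rw [← ENNReal.ofReal_sum_of_nonneg fun s _ => by positivity]
    refine ENNReal.ofReal_le_ofReal ?_
    rw [Finset.sum_add_distrib, ← Finset.sum_div, Finset.sum_const, nsmul_eq_mul]
    have h6 : (∑ s ∈ saw n, (cB (B' r) (dS s) n (Hr T r) : ℝ)) / n ≤ ε * ((saw n).card : ℝ) := by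
      rw [div_le_iff₀ hnpos]
      linarith
    linarith
  -- the bad scales
  obtain ⟨G, hG⟩ : ∃ G : Set unitInterval, G = {y : unitInterval | 0 ≤ (y : ℝ) ∧ (y : ℝ) ≤ Real.log c / Real.log n} ∪
    {y : unitInterval | 1 - Real.log R / Real.log n ≤ (y : ℝ) ∧ (y : ℝ) ≤ 1} := ⟨_, rfl⟩
  have hGm : MeasurableSet G := by
    rw [hG]
    refine MeasurableSet.union ?_ ?_
    · exact (measurableSet_le measurable_const measurable_subtype_coe).inter
        (measurableSet_le measurable_subtype_coe measurable_const)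
    · exact (measurableSet_le measurable_const measurable_subtype_coe).inter
        (measurableSet_le measurable_subtype_coe measurable_const)
  have hGv : (volume : Measure unitInterval) G ≤ ENNReal.ofReal ε := by
    rw [hG]
    refine (measure_union_le _ _).trans ((add_le_add (vol_sub _ _) (vol_sub _ _)).trans ?_)
    rw [← ENNReal.ofReal_add (by have : 0 ≤ Real.log c / Real.log n := by positivity
                                 linarith) (by have : 0 ≤ Real.log R / Real.log n := by positivity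
                                               linarith)]
    refine ENNReal.ofReal_le_ofReal ?_
    rw [add_div] at hlog1
    linarith
  have hmeas : ∀ s : Fin n → Fin 3, MeasurableSet {p : unitInterval × unitInterval |
      win (curve s) p.1 ((n : ℝ) ^ (-(p.2 : ℝ))) ∈ Bad} := fun s =>
    (cont_win hn1 (curve s)).measurable hopen.measurableSet
  have hsum : ∑ s ∈ saw n, (emp s) Bad ≤ ENNReal.ofReal (3 * ε * ((saw n).card : ℝ)) := by
    have e1 : ∑ s ∈ saw n, (emp s) Bad = ∫⁻ y : unitInterval, ∑ s ∈ saw n,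
        (volume : Measure unitInterval) {x | win (curve s) (x : ℝ) ((n : ℝ) ^ (-(y : ℝ))) ∈ Bad} := by
      rw [lintegral_finsetSum _ fun s _ => by
        exact measurable_measure_prodMk_right (hmeas s)]
      refine Finset.sum_congr rfl fun s _ => ?_
      rw [emp_apply hn1 s hopen.measurableSet]
      have e2 : (volume : Measure (unitInterval × unitInterval)) = (volume : Measure unitInterval).prod volume := rfl
      rw [e2, Measure.prod_apply_symm (hmeas s)]
      rfl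
    rw [e1]
    have e2 : ∀ y : unitInterval, ∑ s ∈ saw n,
        (volume : Measure unitInterval) {x | win (curve s) (x : ℝ) ((n : ℝ) ^ (-(y : ℝ))) ∈ Bad} ≤
          G.indicator (fun _ => ENNReal.ofReal ((saw n).card : ℝ)) y + ENNReal.ofReal (2 * ε * ((saw n).card : ℝ)) := by
      intro y
      by_cases hy : y ∈ G
      · rw [Set.indicator_of_mem hy]
        refine le_trans ?_ le_self_add
        refine (Finset.sum_le_sum fun s _ => prob_le_one).trans (le_of_eq ?_)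
        rw [Finset.sum_const, nsmul_eq_mul, mul_one, ENNReal.ofReal_natCast]
      · rw [Set.indicator_of_notMem hy, zero_add]
        rw [hG, Set.mem_union, not_or] at hy
        exact hone y (fun h => hy.1 ⟨y.2.1, h⟩) (fun h => hy.2 ⟨h, y.2.2⟩)
    refine (lintegral_mono e2).trans ?_
    rw [lintegral_add_right _ measurable_const, lintegral_indicator_const hGm, lintegral_const, measure_univ, mul_one]
    have e3 : ENNReal.ofReal ((saw n).card : ℝ) * (volume : Measure unitInterval) G ≤ ENNReal.ofReal (ε * ((saw n).card : ℝ)) := by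
      rw [mul_comm ε, ENNReal.ofReal_mul hcard.le]
      exact mul_le_mul_right hGv _
    refine (add_le_add e3 le_rfl).trans (le_of_eq ?_)
    rw [← ENNReal.ofReal_add (by positivity) (by positivity)]
    congr 1
    ring
  unfold mean
  rw [div_le_iff₀ hcard]
  have h3 : ∑ s ∈ saw n, (emp s).real Bad = (∑ s ∈ saw n, (emp s) Bad).toReal := by
    rw [ENNReal.toReal_sum fun s _ => by
      have := emp_prob hn1 s
      exact measure_ne_top _ _]
    rfl
  rw [h3]
  exact ENNReal.toReal_le_of_le_ofReal (by positivity) hsum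

/-! ### the three rows -/

lemma bh_open (M α T h : ℝ) : IsOpen (BH M α T h) := by
  have e : BH M α T h = ⋃ (u : ℝ) (v : ℝ) (_ : -T ≤ u ∧ v ≤ T ∧ h ≤ v - u), {γ : C(ℝ, ℂ) | M * (v - u) ^ α < ‖γ v - γ u‖} := by
    ext γ
    simp only [Set.mem_iUnion]
    constructor
    · rintro ⟨u, v, h1, h2, h3, h4⟩
      exact ⟨u, v, ⟨h1, h2, h3⟩, h4⟩
    · rintro ⟨u, v, ⟨h1, h2, h3⟩, h4⟩
      exact ⟨u, v, h1, h2, h3, h4⟩
  rw [e]
  refine isOpen_iUnion fun u => isOpen_iUnion fun v => isOpen_iUnion fun _ => ?_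
  exact isOpen_lt continuous_const (((continuous_eval_const v).sub (continuous_eval_const u)).norm)

lemma bp_open (η e T : ℝ) : IsOpen (BP η e T) := by
  have e : BP η e T = ⋃ (u : ℝ) (w : ℝ) (v : ℝ) (_ : -T ≤ u ∧ u ≤ w ∧ w ≤ v ∧ v ≤ T), {γ : C(ℝ, ℂ) | η < ‖γ w - γ u‖ ∧
      η < ‖γ v - γ w‖ ∧ ‖γ v - γ u‖ < e} := by
    ext γ
    simp only [Set.mem_iUnion]
    constructor
    · rintro ⟨u, w, v, h1, h2, h3, h4, h5⟩
      exact ⟨u, w, v, ⟨h1, h2, h3, h4⟩, h5⟩
    · rintro ⟨u, w, v, ⟨h1, h2, h3, h4⟩, h5⟩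
      exact ⟨u, w, v, h1, h2, h3, h4, h5⟩
  rw [e]
  refine isOpen_iUnion fun u => isOpen_iUnion fun w => isOpen_iUnion fun v => isOpen_iUnion fun _ => ?_
  exact (isOpen_lt continuous_const (((continuous_eval_const w).sub (continuous_eval_const u)).norm)).inter
    ((isOpen_lt continuous_const (((continuous_eval_const v).sub (continuous_eval_const w)).norm)).inter
      (isOpen_lt (((continuous_eval_const v).sub (continuous_eval_const u)).norm) continuous_const))

lemma bl_open (c β T h : ℝ) : IsOpen (BL c β T h) := by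
  have e : BL c β T h = ⋃ (u : ℝ) (v : ℝ) (_ : -T ≤ u ∧ v ≤ T ∧ h ≤ v - u ∧ v - u ≤ 1), {γ : C(ℝ, ℂ) |
      ∀ w w' : ℝ, u ≤ w → w ≤ v → u ≤ w' → w' ≤ v → ‖γ w - γ w'‖ < c * (v - u) ^ β} := by
    ext γ
    simp only [Set.mem_iUnion]
    constructor
    · rintro ⟨u, v, h1, h2, h3, h4, h5⟩
      exact ⟨u, v, ⟨h1, h2, h3, h4⟩, h5⟩
    · rintro ⟨u, v, ⟨h1, h2, h3, h4⟩, h5⟩
      exact ⟨u, v, h1, h2, h3, h4, h5⟩
  rw [e]
  refine isOpen_iUnion fun u => isOpen_iUnion fun v => isOpen_iUnion fun _ => ?_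
  have e2 : {γ : C(ℝ, ℂ) | ∀ w w' : ℝ, u ≤ w → w ≤ v → u ≤ w' → w' ≤ v → ‖γ w - γ w'‖ < c * (v - u) ^ β} =
      {γ : C(ℝ, ℂ) | ∀ p ∈ Set.Icc u v ×ˢ Set.Icc u v, ‖γ p.1 - γ p.2‖ < c * (v - u) ^ β} := by
    ext γ
    constructor
    · rintro h ⟨w, w'⟩ ⟨⟨h1, h2⟩, h3, h4⟩
      exact h w w' h1 h2 h3 h4
    · intro h w w' h1 h2 h3 h4
      exact h (w, w') ⟨⟨h1, h2⟩, h3, h4⟩
  rw [e2]
  have hK : IsCompact (Set.Icc u v ×ˢ Set.Icc u v) := isCompact_Icc.prod isCompact_Icc
  rw [isOpen_iff_mem_nhds]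
  intro γ hγ
  have hcont : Continuous fun q : C(ℝ, ℂ) × (ℝ × ℝ) => ‖q.1 q.2.1 - q.1 q.2.2‖ := by
    have h1 : Continuous fun q : C(ℝ, ℂ) × (ℝ × ℝ) => q.1 q.2.1 :=
      ContinuousEval.continuous_eval.comp (by fun_prop : Continuous fun q : C(ℝ, ℂ) × (ℝ × ℝ) => (q.1, q.2.1))
    have h2 : Continuous fun q : C(ℝ, ℂ) × (ℝ × ℝ) => q.1 q.2.2 :=
      ContinuousEval.continuous_eval.comp (by fun_prop : Continuous fun q : C(ℝ, ℂ) × (ℝ × ℝ) => (q.1, q.2.2))
    exact (h1.sub h2).norm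
  have hop : IsOpen {q : C(ℝ, ℂ) × (ℝ × ℝ) | ‖q.1 q.2.1 - q.1 q.2.2‖ < c * (v - u) ^ β} :=
    isOpen_lt hcont continuous_const
  have hsub : {γ} ×ˢ (Set.Icc u v ×ˢ Set.Icc u v) ⊆ {q : C(ℝ, ℂ) × (ℝ × ℝ) | ‖q.1 q.2.1 - q.1 q.2.2‖ < c * (v - u) ^ β} := by
    rintro ⟨γ', p⟩ ⟨h1, h2⟩
    rw [Set.mem_singleton_iff] at h1
    have h3 : γ' = γ := h1
    rw [h3]
    exact hγ p h2
  obtain ⟨U, V, hU, hV, h1, h2, h3⟩ := generalized_tube_lemma isCompact_singleton hK hop hsub
  filter_upwards [hU.mem_nhds (h1 rfl)] with γ' hγ' p hp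
  have h4 : (γ', p) ∈ U ×ˢ V := ⟨hγ', h2 hp⟩
  exact h3 h4

/-- a larger T -/
lemma bh_T {M α T T' h : ℝ} (hT : T ≤ T') : BH M α T h ⊆ BH M α T' h := by
  rintro γ ⟨u, v, h1, h2, h3⟩
  exact ⟨u, v, by linarith, by linarith, h3⟩

lemma bl_T {c β T T' h : ℝ} (hT : T ≤ T') : BL c β T h ⊆ BL c β T' h := by
  rintro γ ⟨u, v, h1, h2, h3⟩
  exact ⟨u, v, by linarith, by linarith, h3⟩

lemma bp_T {η e T T' : ℝ} (hT : T ≤ T') : BP η e T ⊆ BP η e T' := by
  rintro γ ⟨u, w, v, h1, h2, h3, h4, h5⟩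
  exact ⟨u, w, v, by linarith, h2, h3, by linarith, h5⟩

lemma mean_mono {n : ℕ} (hn : 1 ≤ n) {S S' : Set C(ℝ, ℂ)} (h : S ⊆ S') :
    mean n (fun s => (emp s).real S) ≤ mean n (fun s => (emp s).real S') := by
  unfold mean
  refine div_le_div_of_nonneg_right (Finset.sum_le_sum fun s _ => ?_) (Nat.cast_nonneg _)
  have := emp_prob hn s
  exact measureReal_mono h

/-- **row E1** -/
theorem estH : EstH := by
  intro α T ε hα hα2 hT hε
  obtain ⟨M, hM, h2⟩ := HexObs.SSI.rfH HexObs.SSI.rt (T := max T 1) (ε := ε / 3) (α := α)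
    (by have := le_max_right T 1; linarith) (by positivity) hα hα2
  refine ⟨4 * M, by positivity, fun h hh => ?_⟩
  obtain ⟨n0, h3⟩ := est_gen (bh_open (4 * M) α (max T 1) h) (T := max T 1) (by have := le_max_right T 1; linarith)
    (by positivity) (bh_hb hα hα2 hM h hh) h2
  refine ⟨n0 + 1, fun n hn => ?_⟩
  have h4 := h3 n (by omega)
  have h5 : 3 * (ε / 3) = ε := by ring
  rw [h5] at h4
  exact (mean_mono (by omega) (bh_T (le_max_left _ _))).trans h4

/-- **row E2** -/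
theorem estL : EstL := by
  intro β T ε hβ hT hε
  obtain ⟨c, hc, h2⟩ := HexObs.SSI.rfL HexObs.SSI.rt (T := max T 1) (ε := ε / 3) (β := β)
    (by have := le_max_right T 1; linarith) (by positivity) hβ
  refine ⟨c / (2 * 2 ^ β), by positivity, fun h hh => ?_⟩
  obtain ⟨n0, h3⟩ := est_gen (bl_open (c / (2 * 2 ^ β)) β (max T 1) h) (T := max T 1) (by have := le_max_right T 1; linarith)
    (by positivity) (bl_lb hβ hc h hh) h2
  refine ⟨n0 + 1, fun n hn => ?_⟩
  have h4 := h3 n (by omega)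
  have h5 : 3 * (ε / 3) = ε := by ring
  rw [h5] at h4
  exact (mean_mono (by omega) (bl_T (le_max_left _ _))).trans h4

/-- **row E3** -/
theorem estP : EstP := by
  intro η T ε hη hT hε
  obtain ⟨e, he, h2⟩ := HexObs.SSI.rfP HexObs.SSI.rt (T := max T 1) (ε := ε / 3) (η := η / 2)
    (by have := le_max_right T 1; linarith) (by positivity) (by positivity)
  refine ⟨e / 2, by positivity, ?_⟩
  obtain ⟨n0, h3⟩ := est_gen (bp_open η (e / 2) (max T 1)) (T := max T 1) (by have := le_max_right T 1; linarith)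
    (by positivity) (bp_pb hη he) h2
  refine ⟨n0 + 1, fun n hn => ?_⟩
  have h4 := h3 n (by omega)
  have h5 : 3 * (ε / 3) = ε := by ring
  rw [h5] at h4
  exact (mean_mono (by omega) (bp_T (le_max_left _ _))).trans h4

end Pool.Agent.SSI
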