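import Pool.Agent.SSI.Est

/-!
# SSI (self-similar limits): good walks (a diagonal argument)

* `Pr n p` : the proportion of the walks of `saw n` with the property p;
* `diag` : the diagonal argument;
* `good_sets` : sets of walks of proportion at least 1 - ε whose laws of windows obey all the estimates.
-/

set_option autoImplicit false

open MeasureTheory Filter Topology
open scoped Classical

namespace Pool.Agent.SSI

open Res Pool.Agent.IW.Res

/-- the proportion -/
noncomputable def Pr (n : ℕ) (p : (Fin n → Fin 3) → Prop) : ℝ := (((saw n).filter p).card : ℝ) / ((saw n).card : ℝ)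

lemma card_pos' (n : ℕ) : (0 : ℝ) < ((saw n).card : ℝ) := by exact_mod_cast (NTSF.saw_nonempty n).card_pos

lemma Pr_nonneg (n : ℕ) (p : (Fin n → Fin 3) → Prop) : 0 ≤ Pr n p := div_nonneg (Nat.cast_nonneg _) (Nat.cast_nonneg _)

lemma Pr_mono {n : ℕ} {p q : (Fin n → Fin 3) → Prop} (h : ∀ s ∈ saw n, p s → q s) : Pr n p ≤ Pr n q := by
  unfold Pr
  refine div_le_div_of_nonneg_right ?_ (Nat.cast_nonneg _)
  have h1 : (saw n).filter p ⊆ (saw n).filter q := by
    intro s hs
    rw [Finset.mem_filter] at hs ⊢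
    exact ⟨hs.1, h s hs.1 hs.2⟩
  exact_mod_cast Finset.card_le_card h1

lemma Pr_not (n : ℕ) (p : (Fin n → Fin 3) → Prop) : Pr n p + Pr n (fun s => ¬ p s) = 1 := by
  unfold Pr
  rw [← add_div, div_eq_one_iff_eq (card_pos' n).ne']
  have h := Finset.card_filter_add_card_filter_not (s := saw n) p
  rw [← Nat.cast_add]
  refine congrArg _ ?_
  convert h

lemma Pr_or (n : ℕ) (p q : (Fin n → Fin 3) → Prop) : Pr n (fun s => p s ∨ q s) ≤ Pr n p + Pr n q := by
  unfold Pr
  rw [← add_div]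
  refine div_le_div_of_nonneg_right ?_ (Nat.cast_nonneg _)
  have h1 : ((saw n).filter fun s => p s ∨ q s) ⊆ (saw n).filter p ∪ (saw n).filter q := by
    intro s hs
    rw [Finset.mem_filter] at hs
    rw [Finset.mem_union, Finset.mem_filter, Finset.mem_filter]
    rcases hs.2 with h | h
    · exact Or.inl ⟨hs.1, h⟩
    · exact Or.inr ⟨hs.1, h⟩
  have h3 := (Finset.card_le_card h1).trans (Finset.card_union_le _ _)
  rw [← Nat.cast_add]
  refine Nat.cast_le.2 (le_trans (le_of_eq ?_) h3)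
  congr

lemma Pr_ex (n : ℕ) (F : Finset ℕ) (p : ℕ → (Fin n → Fin 3) → Prop) :
    Pr n (fun s => ∃ i ∈ F, p i s) ≤ ∑ i ∈ F, Pr n (p i) := by
  induction F using Finset.induction_on with
  | empty =>
    rw [Finset.sum_empty]
    unfold Pr
    simp
  | insert a F ha ih =>
    rw [Finset.sum_insert ha]
    refine le_trans (Pr_mono (q := fun s => p a s ∨ ∃ i ∈ F, p i s) ?_) ((Pr_or n _ _).trans (add_le_add le_rfl ih))
    rintro s _ ⟨i, hi, hp⟩
    rw [Finset.mem_insert] at hi
    rcases hi with rfl | hi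
    · exact Or.inl hp
    · exact Or.inr ⟨i, hi, hp⟩

/-- Markov -/
lemma Pr_markov {n : ℕ} {f : (Fin n → Fin 3) → ℝ} (hf : ∀ s, 0 ≤ f s) {a b : ℝ} (ha : 0 < a) (h : mean n f ≤ a * b) :
    Pr n (fun s => a < f s) ≤ b := by
  have hc := card_pos' n
  unfold mean at h
  unfold Pr
  rw [div_le_iff₀ hc] at h ⊢
  have h1 : ((((saw n).filter fun s => a < f s).card : ℝ)) * a ≤ ∑ s ∈ saw n, f s := by
    calc ((((saw n).filter fun s => a < f s).card : ℝ)) * a = ∑ s ∈ (saw n).filter fun s => a < f s, a := by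
          rw [Finset.sum_const, nsmul_eq_mul]
      _ ≤ ∑ s ∈ (saw n).filter fun s => a < f s, f s :=
          Finset.sum_le_sum fun s hs => (Finset.mem_filter.1 hs).2.le
      _ ≤ ∑ s ∈ saw n, f s := Finset.sum_le_sum_of_subset_of_nonneg (Finset.filter_subset _ _) fun s _ _ => hf s
  have h2 : ((((saw n).filter fun s => a < f s).card : ℝ)) * a ≤ b * ((saw n).card : ℝ) * a := by linarith
  exact le_of_mul_le_mul_right h2 ha

/-- **the diagonal argument** -/
theorem diag {ε : ℝ} {p : ℕ → ℝ} (hp : ∀ N : ℕ, ∑ i ∈ Finset.range N, p i ≤ ε) (hp0 : ∀ i, 0 ≤ p i)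
    {A : ℕ → ℕ → (n : ℕ) → (Fin n → Fin 3) → Prop} (hA : ∀ i g g' n s, g ≤ g' → A i g' n s → A i g n s)
    (hev : ∀ i g, ∀ᶠ n in atTop, Pr n (fun s => ¬ A i g n s) ≤ p i) :
    ∃ G : (n : ℕ) → (Fin n → Fin 3) → Prop, (∀ n, 1 - ε ≤ Pr n (G n)) ∧ ∀ i g, ∀ᶠ n in atTop, ∀ s, G n s → A i g n s := by
  have h1 : ∀ i g, ∃ N : ℕ, ∀ n, N ≤ n → Pr n (fun s => ¬ A i g n s) ≤ p i := fun i g => eventually_atTop.1 (hev i g)
  choose N hN using h1
  -- the times
  obtain ⟨M, hM⟩ : ∃ M : ℕ → ℕ → ℕ, M = fun i g => N i g + i + g := ⟨_, rfl⟩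
  refine ⟨fun n s => ∀ i g, M i g ≤ n → A i g n s, fun n => ?_, fun i g => ?_⟩
  · have h2 := Pr_not n (fun s => ∀ i g, M i g ≤ n → A i g n s)
    have h3 : Pr n (fun s => ¬ ∀ i g, M i g ≤ n → A i g n s) ≤ ε := by
      -- the largest g for every i
      refine le_trans (Pr_mono (q := fun s => ∃ i ∈ Finset.range (n + 1), (∃ g, M i g ≤ n) ∧ ¬ A i (sSup {g | M i g ≤ n}) n s) ?_)
        ((Pr_ex n _ _).trans ((Finset.sum_le_sum fun i _ => ?_).trans (hp (n + 1))))
      · rintro s _ hs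
        push Not at hs
        obtain ⟨i, g, hg, hAs⟩ := hs
        have hbd : BddAbove {g | M i g ≤ n} := ⟨n, fun g' hg' => by
          rw [hM] at hg'
          have : N i g' + i + g' ≤ n := hg'
          omega⟩
        refine ⟨i, ?_, ⟨g, hg⟩, fun hc => hAs (hA i g _ n s (le_csSup hbd hg) hc)⟩
        rw [Finset.mem_range]
        have : N i g + i + g ≤ n := by rw [hM] at hg; exact hg
        omega
      · by_cases hex : ∃ g, M i g ≤ n
        · have hbd : BddAbove {g | M i g ≤ n} := ⟨n, fun g' hg' => by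
            rw [hM] at hg'
            have : N i g' + i + g' ≤ n := hg'
            omega⟩
          have hmem : sSup {g | M i g ≤ n} ∈ {g | M i g ≤ n} := Nat.sSup_mem hex hbd
          have h4 : N i (sSup {g | M i g ≤ n}) ≤ n := by
            have h5 : M i (sSup {g | M i g ≤ n}) ≤ n := hmem
            have h6 : M i (sSup {g | M i g ≤ n}) = N i (sSup {g | M i g ≤ n}) + i + sSup {g | M i g ≤ n} := by rw [hM]
            omega
          exact (Pr_mono fun s _ h => h.2).trans (hN i _ n h4)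
        · refine le_trans (Pr_mono (q := fun _ => False) fun s _ h => hex h.1) ?_
          unfold Pr
          simp only [Finset.filter_false, Finset.card_empty, Nat.cast_zero, zero_div]
          exact hp0 i
    linarith
  · filter_upwards [eventually_ge_atTop (M i g)] with n hn s hs
    exact hs i g hn

/-! ### the parameters -/

/-- exponents below 3 / 4 -/
noncomputable def al (m : ℕ) : ℝ := 3 / 4 * (1 - 1 / ((m : ℝ) + 2))

lemma al_pos (m : ℕ) : 0 < al m := by
  unfold al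
  have : 1 / ((m : ℝ) + 2) < 1 := by
    rw [div_lt_one (by positivity)]
    have : (0 : ℝ) ≤ m := Nat.cast_nonneg m
    linarith
  linarith

lemma al_lt (m : ℕ) : al m < 3 / 4 := by
  unfold al
  have : 0 < 1 / ((m : ℝ) + 2) := by positivity
  linarith

/-- exponents above 3 / 4 -/
noncomputable def be (m : ℕ) : ℝ := 3 / 4 + 1 / ((m : ℝ) + 1)

lemma be_lt (m : ℕ) : 3 / 4 < be m := by
  unfold be
  have : 0 < 1 / ((m : ℝ) + 1) := by positivity
  linarith

/-- **the good walks** -/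
theorem good_sets {ε : ℝ} (hε : 0 < ε) : ∃ (M c e : ℕ → ℝ) (G : (n : ℕ) → (Fin n → Fin 3) → Prop), (∀ i, 0 < M i) ∧
    (∀ i, 0 < c i) ∧ (∀ i, 0 < e i) ∧ (∀ n, 1 - ε ≤ Pr n (G n)) ∧ ∀ i g : ℕ, ∀ᶠ n in atTop, ∀ s : Fin n → Fin 3, G n s →
      (emp s).real (BH (M i) (al i.unpair.1) (i.unpair.1 + 1) (1 / (g + 1))) ≤ (1 / 2) ^ i.unpair.2 ∧
      (emp s).real (BL (c i) (be i.unpair.1) (i.unpair.1 + 1) (1 / (g + 1))) ≤ (1 / 2) ^ i.unpair.2 ∧
      (emp s).real (BP (1 / (i.unpair.1 + 1)) (e i) (i.unpair.1 + 1)) ≤ (1 / 2) ^ i.unpair.2 := by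
  obtain ⟨p, hp⟩ : ∃ p : ℕ → ℝ, p = fun i => ε / 2 * (1 / 2) ^ i := ⟨_, rfl⟩
  have hp0 : ∀ i, 0 < p i := fun i => by rw [hp]; positivity
  have h1 := fun i : ℕ => estH (al i.unpair.1) ((i.unpair.1 : ℝ) + 1) ((1 / 2) ^ i.unpair.2 * (p i / 3)) (al_pos _) (al_lt _)
    (by positivity) (by have := hp0 i; positivity)
  have h2 := fun i : ℕ => estL (be i.unpair.1) ((i.unpair.1 : ℝ) + 1) ((1 / 2) ^ i.unpair.2 * (p i / 3)) (be_lt _)
    (by positivity) (by have := hp0 i; positivity)
  have h3 := fun i : ℕ => estP (1 / ((i.unpair.1 : ℝ) + 1)) ((i.unpair.1 : ℝ) + 1) ((1 / 2) ^ i.unpair.2 * (p i / 3))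
    (by positivity) (by positivity) (by have := hp0 i; positivity)
  choose M hM h1 using h1
  choose c hc h2 using h2
  choose e he h3 using h3
  obtain ⟨G, hG1, hG2⟩ := diag (ε := ε) (p := p) (fun N => by
    rw [hp, ← Finset.mul_sum]
    have := sum_geometric_two_le N
    nlinarith) (fun i => (hp0 i).le)
    (A := fun i g n s => (emp s).real (BH (M i) (al i.unpair.1) (i.unpair.1 + 1) (1 / (g + 1))) ≤ (1 / 2) ^ i.unpair.2 ∧
      (emp s).real (BL (c i) (be i.unpair.1) (i.unpair.1 + 1) (1 / (g + 1))) ≤ (1 / 2) ^ i.unpair.2 ∧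
      (emp s).real (BP (1 / (i.unpair.1 + 1)) (e i) (i.unpair.1 + 1)) ≤ (1 / 2) ^ i.unpair.2 ∨ n = 0)
    (by
      rintro i g g' n s hg (h | h)
      · rcases Nat.eq_zero_or_pos n with h0 | h0
        · exact Or.inr h0
        · left
          have := emp_prob h0 s
          have hgg : 1 / ((g' : ℝ) + 1) ≤ 1 / ((g : ℝ) + 1) := by
            have : (g : ℝ) ≤ g' := by exact_mod_cast hg
            exact one_div_le_one_div_of_le (by positivity) (by linarith)
          refine ⟨(measureReal_mono ?_).trans h.1, (measureReal_mono ?_).trans h.2.1, h.2.2⟩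
          · rintro γ ⟨u, v, q1, q2, q3, q4⟩
            exact ⟨u, v, q1, q2, hgg.trans q3, q4⟩
          · rintro γ ⟨u, v, q1, q2, q3, q4⟩
            exact ⟨u, v, q1, q2, hgg.trans q3, q4⟩
      · exact Or.inr h)
    (fun i g => by
      obtain ⟨n1, k1⟩ := h1 i (1 / ((g : ℝ) + 1)) (by positivity)
      obtain ⟨n2, k2⟩ := h2 i (1 / ((g : ℝ) + 1)) (by positivity)
      obtain ⟨n3, k3⟩ := h3 i
      filter_upwards [eventually_ge_atTop (n1 + n2 + n3)] with n hn
      have m1 := Pr_markov (fun s => measureReal_nonneg) (by positivity) (k1 n (by omega))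
      have m2 := Pr_markov (fun s => measureReal_nonneg) (by positivity) (k2 n (by omega))
      have m3 := Pr_markov (fun s => measureReal_nonneg) (by positivity) (k3 n (by omega))
      refine le_trans (Pr_mono (q := fun s => (1 / 2) ^ i.unpair.2 < (emp s).real (BH (M i) (al i.unpair.1) (i.unpair.1 + 1)
        (1 / (g + 1))) ∨ ((1 / 2) ^ i.unpair.2 < (emp s).real (BL (c i) (be i.unpair.1) (i.unpair.1 + 1) (1 / (g + 1))) ∨
          (1 / 2) ^ i.unpair.2 < (emp s).real (BP (1 / (i.unpair.1 + 1)) (e i) (i.unpair.1 + 1)))) ?_)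
        ((Pr_or n _ _).trans ((add_le_add m1 ((Pr_or n _ _).trans (add_le_add m2 m3))).trans (le_of_eq (by ring))))
      rintro s _ hs
      by_contra hcon
      push Not at hcon
      exact hs (Or.inl ⟨hcon.1, hcon.2.1, hcon.2.2⟩))
  refine ⟨M, c, e, G, hM, hc, he, hG1, fun i g => ?_⟩
  filter_upwards [hG2 i g, eventually_ge_atTop 1] with n hn hn1 s hs
  rcases hn s hs with h | h
  · exact h
  · omega

end Pool.Agent.SSI
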