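import Pool.Agent.SSI.Cls


/-!
# SSI (self-similar limits): the Hoelder class

* `dW t i j` : the distance of the vertices i and j of the word t;
* `HB`, `LB`, `PB` : windows with a piece which is too fast, too slow, a near touch;
* `box_gen` : from the walks with n letters to the box;
* `holA` : the Hoelder class is rare.
-/

set_option autoImplicit false

namespace HexObs

namespace SSI

open Finset TS SDN TIW NTA TIP NTW NPR NPR.Fast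

open scoped ENNReal

/-! ### distances and windows -/

/-- the distance of two vertices of a word -/
noncomputable def dW (t : List Bool) (i j : ℕ) : ℝ := (hn (vx oo up t j - vx oo up t i) : ℝ)

/-- a piece of the window [a, b] which is too fast -/
def HB (D s α : ℝ) (d : ℕ → ℕ → ℝ) (a b : ℕ) : Prop := ∃ i j : ℕ, a ≤ i ∧ i < j ∧ j ≤ b ∧ D * (((j : ℝ) - i) / s) ^ α ≤ d i j

/-- a piece of the window [a, b] which is too slow -/
def LB (D s β : ℝ) (d : ℕ → ℕ → ℝ) (a b : ℕ) : Prop := ∃ i j : ℕ, a ≤ i ∧ i < j ∧ j ≤ b ∧ (j : ℝ) - i ≤ s ∧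
  ∀ l l' : ℕ, i ≤ l → l ≤ j → i ≤ l' → l' ≤ j → d l l' ≤ D * (((j : ℝ) - i) / s) ^ β

/-- a near touch in the window [a, b] -/
def PB (D E : ℝ) (d : ℕ → ℕ → ℝ) (a b : ℕ) : Prop := ∃ i l j : ℕ, a ≤ i ∧ i ≤ l ∧ l ≤ j ∧ j ≤ b ∧ D ≤ d i l ∧ D ≤ d l j ∧ d i j ≤ E

/-- the properties of the window predicates which are used -/
structure WP (B : (ℕ → ℕ → ℝ) → ℕ → ℕ → Prop) : Prop where
  mono : ∀ (d : ℕ → ℕ → ℝ) (a b a' b' : ℕ), a' ≤ a → b ≤ b' → B d a b → B d a' b'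
  shift : ∀ (d d' : ℕ → ℕ → ℝ) (s a b : ℕ), (∀ x y, x ≤ b → y ≤ b → d x y = d' (s + x) (s + y)) → B d a b → B d' (s + a) (s + b)
  shift' : ∀ (d d' : ℕ → ℕ → ℝ) (s a b : ℕ), (∀ x y, x ≤ b → y ≤ b → d x y = d' (s + x) (s + y)) → B d' (s + a) (s + b) → B d a b
  rev : ∀ (d d' : ℕ → ℕ → ℝ) (n a b : ℕ), b ≤ n → (∀ x y, x ≤ n → y ≤ n → d x y = d' (n - y) (n - x)) → B d a b →
    B d' (n - b) (n - a)

lemma wp_HB (D s α : ℝ) : WP (HB D s α) where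
  mono := by
    rintro d a b a' b' h1 h2 ⟨i, j, h3, h4, h5, h6⟩
    exact ⟨i, j, by omega, h4, by omega, h6⟩
  shift := by
    rintro d d' s' a b hd ⟨i, j, h3, h4, h5, h6⟩
    refine ⟨s' + i, s' + j, by omega, by omega, by omega, ?_⟩
    rw [← hd i j (by omega) (by omega)]
    push_cast
    rwa [add_sub_add_left_eq_sub]
  shift' := by
    rintro d d' s' a b hd ⟨i, j, h3, h4, h5, h6⟩
    obtain ⟨i, rfl⟩ : ∃ i', i = s' + i' := ⟨i - s', by omega⟩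
    obtain ⟨j, rfl⟩ : ∃ j', j = s' + j' := ⟨j - s', by omega⟩
    refine ⟨i, j, by omega, by omega, by omega, ?_⟩
    rw [hd i j (by omega) (by omega)]
    push_cast at h6
    rwa [add_sub_add_left_eq_sub] at h6
  rev := by
    rintro d d' n a b hb hd ⟨i, j, h3, h4, h5, h6⟩
    refine ⟨n - j, n - i, by omega, by omega, by omega, ?_⟩
    rw [← hd i j (by omega) (by omega), Nat.cast_sub (by omega), Nat.cast_sub (by omega)]
    have e : (n : ℝ) - i - (n - j) = j - i := by ring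
    rwa [e]

lemma wp_LB (D s β : ℝ) : WP (LB D s β) where
  mono := by
    rintro d a b a' b' h1 h2 ⟨i, j, h3, h4, h5, h6⟩
    exact ⟨i, j, by omega, h4, by omega, h6⟩
  shift := by
    rintro d d' s' a b hd ⟨i, j, h3, h4, h5, h6, h7⟩
    have e : ((s' + j : ℕ) : ℝ) - ((s' + i : ℕ) : ℝ) = j - i := by push_cast; ring
    refine ⟨s' + i, s' + j, by omega, by omega, by omega, by rwa [e], fun l l' q1 q2 q3 q4 => ?_⟩
    obtain ⟨l, rfl⟩ : ∃ i', l = s' + i' := ⟨l - s', by omega⟩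
    obtain ⟨l', rfl⟩ : ∃ i', l' = s' + i' := ⟨l' - s', by omega⟩
    rw [← hd l l' (by omega) (by omega), e]
    exact h7 l l' (by omega) (by omega) (by omega) (by omega)
  shift' := by
    rintro d d' s' a b hd ⟨i, j, h3, h4, h5, h6, h7⟩
    obtain ⟨i, rfl⟩ : ∃ i', i = s' + i' := ⟨i - s', by omega⟩
    obtain ⟨j, rfl⟩ : ∃ j', j = s' + j' := ⟨j - s', by omega⟩
    have e : ((s' + j : ℕ) : ℝ) - ((s' + i : ℕ) : ℝ) = j - i := by push_cast; ring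
    rw [e] at h6 h7
    refine ⟨i, j, by omega, by omega, by omega, h6, fun l l' q1 q2 q3 q4 => ?_⟩
    rw [hd l l' (by omega) (by omega)]
    exact h7 (s' + l) (s' + l') (by omega) (by omega) (by omega) (by omega)
  rev := by
    rintro d d' n a b hb hd ⟨i, j, h3, h4, h5, h6, h7⟩
    have e : ((n - i : ℕ) : ℝ) - ((n - j : ℕ) : ℝ) = j - i := by
      rw [Nat.cast_sub (by omega), Nat.cast_sub (by omega)]
      ring
    refine ⟨n - j, n - i, by omega, by omega, by omega, by rwa [e], fun l l' q1 q2 q3 q4 => ?_⟩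
    rw [e]
    have h8 := h7 (n - l') (n - l) (by omega) (by omega) (by omega) (by omega)
    rw [hd (n - l') (n - l) (by omega) (by omega), show n - (n - l) = l by omega, show n - (n - l') = l' by omega] at h8
    exact h8

lemma wp_PB (D E : ℝ) : WP (PB D E) where
  mono := by
    rintro d a b a' b' h1 h2 ⟨i, l, j, h3, h4, h5, h6, h7⟩
    exact ⟨i, l, j, by omega, h4, h5, by omega, h7⟩
  shift := by
    rintro d d' s' a b hd ⟨i, l, j, h3, h4, h5, h6, h7, h8, h9⟩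
    rw [hd _ _ (by omega) (by omega)] at h7 h8 h9
    exact ⟨s' + i, s' + l, s' + j, by omega, by omega, by omega, by omega, h7, h8, h9⟩
  shift' := by
    rintro d d' s' a b hd ⟨i, l, j, h3, h4, h5, h6, h7, h8, h9⟩
    obtain ⟨i, rfl⟩ : ∃ i', i = s' + i' := ⟨i - s', by omega⟩
    obtain ⟨j, rfl⟩ : ∃ j', j = s' + j' := ⟨j - s', by omega⟩
    obtain ⟨l, rfl⟩ : ∃ j', l = s' + j' := ⟨l - s', by omega⟩
    rw [← hd _ _ (by omega) (by omega)] at h7 h8 h9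
    exact ⟨i, l, j, by omega, by omega, by omega, by omega, h7, h8, h9⟩
  rev := by
    rintro d d' n a b hb hd ⟨i, l, j, h3, h4, h5, h6, h7, h8, h9⟩
    rw [hd _ _ (by omega) (by omega)] at h7 h8 h9
    exact ⟨n - j, n - l, n - i, by omega, by omega, by omega, by omega, h8, h7, h9⟩

/-- the words with the window predicate -/
def BQ (B : (ℕ → ℕ → ℝ) → ℕ → ℕ → Prop) : Set (List Bool) := {Q | B (dW Q) 0 Q.length}

/-- a factor -/
lemma dW_fac (X Q Y : List Bool) {i j : ℕ} (hi : i ≤ Q.length) (hj : j ≤ Q.length) :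
    dW Q i j = dW (X ++ (Q ++ Y)) (X.length + i) (X.length + j) := by
  unfold dW
  rw [fac_hn X Q Y hi hj]

lemma fac_BQ {B : (ℕ → ℕ → ℝ) → ℕ → ℕ → Prop} (hB : WP B) : Fac (BQ B) ⊆ BQ B := by
  rintro t ⟨X, Q, Y, rfl, hQ⟩
  have h1 := hB.shift (dW Q) (dW (X ++ (Q ++ Y))) X.length 0 Q.length (fun x y hx hy => dW_fac X Q Y hx hy) hQ
  refine hB.mono _ _ _ _ _ (Nat.zero_le _) ?_ h1
  simp only [List.length_append]
  omega

/-! ### from the walks with n letters to the box -/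

/-- one scale of the number of letters -/
theorem scale_gen : ∃ C : ℝ, 0 < C ∧ ∀ (k : ℕ) (E : Set (List Bool)) (e : ℝ), 0 ≤ e →
    (∀ n : ℕ, PW.mZ (2 ^ k) ≤ (n : ℝ) → (n : ℝ) < PW.mZ (2 ^ (k + 1)) → gf {t | t ∈ SawN n ∧ t ∈ E} ≤
      ENNReal.ofReal e * nuX (fun k => PW.mZ (2 ^ k)) k) →
    gf {t | t ∈ SA ∧ PW.mZ (2 ^ k) ≤ (t.length : ℝ) ∧ (t.length : ℝ) < PW.mZ (2 ^ (k + 1)) ∧ t ∈ E} ≤
      ENNReal.ofReal (C * e) * FK k := by
  obtain ⟨Cu, hCu, hup⟩ := mup_M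
  have hCu0 : 0 < Cu := by linarith
  have hm0 : 0 < PW.mZ (2 ^ 0) := mlow_M.pos 0
  refine ⟨Cu + 1 / PW.mZ (2 ^ 0), by positivity, fun k E e he h => ?_⟩
  have hmk : 0 < PW.mZ (2 ^ k) := mlow_M.pos k
  have hm0k : PW.mZ (2 ^ 0) ≤ PW.mZ (2 ^ k) := by
    have h1 := mlow_M.low 0 k
    rw [zero_add] at h1
    refine le_trans ?_ h1
    have h2 : (1 : ℝ) ≤ 2 ^ (5 / 4 * (k : ℝ)) := Real.one_le_rpow (by norm_num) (by positivity)
    calc PW.mZ (2 ^ 0) = 1 * PW.mZ (2 ^ 0) := (one_mul _).symm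
      _ ≤ _ := mul_le_mul_of_nonneg_right h2 hm0.le
  rw [NTF.gf_lengths, tsum_eq_sum (s := range ⌈PW.mZ (2 ^ (k + 1))⌉₊)]
  · have h1 : ∀ n ∈ range ⌈PW.mZ (2 ^ (k + 1))⌉₊, gf {t | t ∈ {t | t ∈ SA ∧ PW.mZ (2 ^ k) ≤ (t.length : ℝ) ∧
        (t.length : ℝ) < PW.mZ (2 ^ (k + 1)) ∧ t ∈ E} ∧ t.length = n} ≤
        ENNReal.ofReal e * nuX (fun k => PW.mZ (2 ^ k)) k := by
      intro n hn
      by_cases h2 : PW.mZ (2 ^ k) ≤ (n : ℝ) ∧ (n : ℝ) < PW.mZ (2 ^ (k + 1))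
      · refine (gf_mono ?_).trans (h n h2.1 h2.2)
        rintro t ⟨⟨h3, h4, h5, h6⟩, h10⟩
        exact ⟨⟨h10, h3⟩, h6⟩
      · have h3 : {t | t ∈ {t | t ∈ SA ∧ PW.mZ (2 ^ k) ≤ (t.length : ℝ) ∧
            (t.length : ℝ) < PW.mZ (2 ^ (k + 1)) ∧ t ∈ E} ∧ t.length = n} = ∅ := by
          rw [Set.eq_empty_iff_forall_notMem]
          rintro t ⟨⟨_, h4, h5, _⟩, h6⟩
          rw [h6] at h4 h5
          exact h2 ⟨h4, h5⟩
        rw [h3, NTF.gf_emp]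
        exact zero_le
    refine (sum_le_sum h1).trans ?_
    rw [sum_const, card_range, nsmul_eq_mul]
    unfold nuX FK
    rw [← mul_assoc, ← mul_assoc, ← mul_assoc, ← ENNReal.ofReal_natCast, ← ENNReal.ofReal_mul (Nat.cast_nonneg _),
      ← ENNReal.ofReal_mul (by positivity), ← ENNReal.ofReal_mul (by positivity)]
    refine mul_le_mul' (ENNReal.ofReal_le_ofReal ?_) le_rfl
    have hU : 0 < Ub k := Num2Aux.UU_pos _
    have h2 : ((⌈PW.mZ (2 ^ (k + 1))⌉₊ : ℕ) : ℝ) ≤ (Cu + 1 / PW.mZ (2 ^ 0)) * PW.mZ (2 ^ k) := by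
      have h3 := Nat.ceil_lt_add_one (mlow_M.pos (k + 1)).le
      have h4 := hup k
      have h5 : 1 ≤ 1 / PW.mZ (2 ^ 0) * PW.mZ (2 ^ k) := by
        rw [one_div, ← div_eq_inv_mul, one_le_div hm0]
        exact hm0k
      have h6 : ((⌈PW.mZ (2 ^ (k + 1))⌉₊ : ℕ) : ℝ) < PW.mZ (2 ^ (k + 1)) + 1 := h3
      have h7 : PW.mZ (2 ^ (k + 1)) ≤ Cu * PW.mZ (2 ^ k) := h4
      nlinarith
    calc ((⌈PW.mZ (2 ^ (k + 1))⌉₊ : ℕ) : ℝ) * e * (Ub k / PW.mZ (2 ^ k)) ≤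
        (Cu + 1 / PW.mZ (2 ^ 0)) * PW.mZ (2 ^ k) * e * (Ub k / PW.mZ (2 ^ k)) := by gcongr
      _ = (Cu + 1 / PW.mZ (2 ^ 0)) * e * Ub k := by field_simp
  · intro n hn
    rw [mem_range, not_lt] at hn
    have h1 : {t | t ∈ {t | t ∈ SA ∧ PW.mZ (2 ^ k) ≤ (t.length : ℝ) ∧
        (t.length : ℝ) < PW.mZ (2 ^ (k + 1)) ∧ t ∈ E} ∧ t.length = n} = ∅ := by
      rw [Set.eq_empty_iff_forall_notMem]
      rintro t ⟨⟨_, _, h5, _⟩, h6⟩
      rw [h6] at h5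
      have h7 : PW.mZ (2 ^ (k + 1)) ≤ (n : ℝ) := (Nat.le_ceil _).trans (by exact_mod_cast hn)
      linarith
    rw [h1, NTF.gf_emp]

/-- **from the walks with n letters to the box** -/
theorem box_gen (δ : ℝ) (hδ : 0 < δ) : ∃ (a0 a1 : ℕ) (e1 : ℝ), 0 < e1 ∧ ∀ (L : ℕ) (E : Set (List Bool)), a1 ≤ L →
    (∀ i : ℕ, i ≤ a0 + a1 → ∀ n : ℕ, PW.mZ (2 ^ (L - a1 + i)) ≤ (n : ℝ) → (n : ℝ) < PW.mZ (2 ^ (L - a1 + i + 1)) →
      gf {t | t ∈ SawN n ∧ t ∈ E} ≤ ENNReal.ofReal e1 * nuX (fun k => PW.mZ (2 ^ k)) (L - a1 + i)) →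
    gf {t | t ∈ WL (L + 16) ∧ t ∈ E} ≤ ENNReal.ofReal δ * FK L := by
  obtain ⟨a0, hlong⟩ := long_mass 16 (δ / 3) (by positivity)
  obtain ⟨a1, hshort⟩ := short_scale (δ / 3) (by positivity)
  obtain ⟨C, hC, hmod⟩ := scale_gen
  obtain ⟨D, hD, hF⟩ := FK_rat
  obtain ⟨N, hN⟩ : ∃ N : ℕ, N = a0 + a1 + 1 := ⟨_, rfl⟩
  have hN0 : (0 : ℝ) < N := by
    rw [hN]
    positivity
  obtain ⟨E0, hE⟩ : ∃ E : ℝ, E = C * (D * 2 ^ (43 / 24 * (a0 : ℝ))) := ⟨_, rfl⟩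
  have hE0 : 0 < E0 := by rw [hE]; positivity
  obtain ⟨e, he⟩ : ∃ e : ℝ, e = δ / 3 / (N * E0) := ⟨_, rfl⟩
  have he0 : 0 < e := by rw [he]; positivity
  refine ⟨a0, a1, e, he0, fun L E hL h => ?_⟩
  obtain ⟨S, hS⟩ : ∃ S : ℕ → Set (List Bool), S = fun i => {t | t ∈ SA ∧ PW.mZ (2 ^ (L - a1 + i)) ≤ (t.length : ℝ) ∧
      (t.length : ℝ) < PW.mZ (2 ^ (L - a1 + i + 1)) ∧ t ∈ E} := ⟨_, rfl⟩
  have hsplit : {t | t ∈ WL (L + 16) ∧ t ∈ E} ⊆ {t | t ∈ WL (L + 16) ∧ PW.mZ (2 ^ (L + a0)) ≤ (t.length : ℝ)} ∪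
      ({t | t ∈ SA ∧ (t.length : ℝ) ≤ PW.mZ (2 ^ (L - a1))} ∪ ⋃ i ∈ range N, S i) := by
    rintro t ⟨h1, h2⟩
    rcases le_or_gt (PW.mZ (2 ^ (L + a0))) (t.length : ℝ) with h5 | h5
    · exact Or.inl ⟨h1, h5⟩
    right
    rcases le_or_gt (t.length : ℝ) (PW.mZ (2 ^ (L - a1))) with h6 | h6
    · exact Or.inl ⟨h1.1, h6⟩
    right
    have hex : ∃ j, (t.length : ℝ) < PW.mZ (2 ^ (L - a1 + j)) := ⟨a0 + a1, by
      rw [show L - a1 + (a0 + a1) = L + a0 by omega]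
      exact h5⟩
    obtain ⟨j, hj1, hj2⟩ : ∃ j, (t.length : ℝ) < PW.mZ (2 ^ (L - a1 + j)) ∧
        ∀ i, i < j → ¬ (t.length : ℝ) < PW.mZ (2 ^ (L - a1 + i)) := by
      classical
      exact ⟨Nat.find hex, Nat.find_spec hex, fun i hi => Nat.find_min hex hi⟩
    have hj3 : j ≤ a0 + a1 := by
      by_contra hcon
      refine hj2 (a0 + a1) (by omega) ?_
      rw [show L - a1 + (a0 + a1) = L + a0 by omega]
      exact h5
    obtain ⟨i, rfl⟩ : ∃ i, j = i + 1 := by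
      rcases j with _ | i
      · rw [add_zero] at hj1
        linarith
      · exact ⟨i, rfl⟩
    have hi := hj2 i (by omega)
    rw [not_lt] at hi
    rw [Set.mem_iUnion₂]
    refine ⟨i, mem_range.2 (by omega), ?_⟩
    rw [hS]
    exact ⟨h1.1, hi, hj1, h2⟩
  refine (gf_mono hsplit).trans ((gf_union_le _ _).trans ?_)
  have h3 : gf (⋃ i ∈ range N, S i) ≤ ENNReal.ofReal (δ / 3) * FK L := by
    refine (SDN.MainA.gf_bU _ _).trans ?_
    have h4 : ∀ i ∈ range N, gf (S i) ≤ ENNReal.ofReal (E0 * e) * FK L := by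
      intro i hi
      rw [mem_range] at hi
      have h5 := hmod (L - a1 + i) E e he0.le (h i (by omega))
      have h6 := hF (L - a1 + i) L
      rw [hS]
      refine h5.trans ((mul_le_mul' le_rfl h6).trans ?_)
      rw [← mul_assoc, ← ENNReal.ofReal_mul (by positivity)]
      refine mul_le_mul' (ENNReal.ofReal_le_ofReal ?_) le_rfl
      have h7 : (((L - a1 + i : ℕ) : ℝ) - L) ≤ a0 := by
        have h8 : ((L - a1 + i : ℕ) : ℝ) ≤ ((L + a0 : ℕ) : ℝ) := by exact_mod_cast (by omega : L - a1 + i ≤ L + a0)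
        push_cast at h8 ⊢
        linarith
      have h8 : (2 : ℝ) ^ (43 / 24 * (((L - a1 + i : ℕ) : ℝ) - L)) ≤ 2 ^ (43 / 24 * (a0 : ℝ)) :=
        Real.rpow_le_rpow_of_exponent_le (by norm_num) (by linarith)
      calc C * e * (D * 2 ^ (43 / 24 * (((L - a1 + i : ℕ) : ℝ) - L))) ≤ C * e * (D * 2 ^ (43 / 24 * (a0 : ℝ))) := by
            gcongr
        _ = E0 * e := by
            rw [hE]
            ring
    refine (sum_le_sum h4).trans ?_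
    rw [sum_const, card_range, nsmul_eq_mul, ← mul_assoc, ← ENNReal.ofReal_natCast, ← ENNReal.ofReal_mul (Nat.cast_nonneg _)]
    refine mul_le_mul' (ENNReal.ofReal_le_ofReal (le_of_eq ?_)) le_rfl
    rw [he]
    field_simp
  calc gf {t | t ∈ WL (L + 16) ∧ PW.mZ (2 ^ (L + a0)) ≤ (t.length : ℝ)} +
        gf ({t | t ∈ SA ∧ (t.length : ℝ) ≤ PW.mZ (2 ^ (L - a1))} ∪ ⋃ i ∈ range N, S i)
      ≤ ENNReal.ofReal (δ / 3) * FK L + (ENNReal.ofReal (δ / 3) * FK L + ENNReal.ofReal (δ / 3) * FK L) :=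
        add_le_add (hlong L) ((gf_union_le _ _).trans (add_le_add (hshort L (by omega)) h3))
    _ = ENNReal.ofReal δ * FK L := by
        rw [← add_mul, ← add_mul, ← ENNReal.ofReal_add (by positivity) (by positivity),
          ← ENNReal.ofReal_add (by positivity) (by positivity)]
        congr 2
        ring

/-! ### the Hoelder class -/

lemma mup_pos : ∃ C : ℝ, 0 < C ∧ ∀ k : ℕ, PW.mZ (2 ^ k) ≤ C * 2 ^ (4 / 3 * (k : ℝ)) := by
  obtain ⟨M, hM, hmu⟩ := VF.mUp VF.sharpZ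
  exact ⟨M, hM, hmu⟩

theorem holA {α : ℝ} (hα : 0 < α) (hα2 : α < 3 / 4) (δ : ℝ) (hδ : 0 < δ) : ∃ (M : ℝ) (L0 : ℕ), 0 < M ∧ ∀ L, L0 ≤ L →
    gf {t | t ∈ WL (L + 16) ∧ t ∈ Fac (BQ (HB (M * 2 ^ L) (PW.mZ (2 ^ L)) α))} ≤ ENNReal.ofReal δ * FK L := by
  obtain ⟨a0, a1, e1, he1, hbox⟩ := box_gen δ hδ
  obtain ⟨M1, k0, hM1, hH⟩ := EN.holdX_M (VF.mLow VF.sharpZ) mup_pos hα hα2 e1 he1
  obtain ⟨Cu, hCu, hup⟩ := mup_M
  have hup' : ∀ k, PW.mZ (2 ^ (k + 1)) ≤ Cu * PW.mZ (2 ^ k) := hup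
  have hCu0 : 0 < Cu := by linarith
  obtain ⟨M, hM⟩ : ∃ M : ℝ, M = 2 * M1 * 2 ^ a0 * (Cu ^ a1) ^ α := ⟨_, rfl⟩
  have hM0 : 0 < M := by rw [hM]; positivity
  refine ⟨M, k0 + a1, hM0, fun L hL => ?_⟩
  refine (gf_mono (Q := {t | t ∈ WL (L + 16) ∧ t ∈ BQ (HB (M * 2 ^ L) (PW.mZ (2 ^ L)) α)}) fun t ht =>
    ⟨ht.1, fac_BQ (wp_HB _ _ _) ht.2⟩).trans ?_
  refine hbox L _ (by omega) fun i hi n hn1 hn2 => ?_
  refine (gf_mono ?_).trans (hH (L - a1 + i) n (by omega) hn1 hn2)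
  rintro t ⟨h1, x, y, h2, h3, h4, h5⟩
  have hlen : t.length = n := h1.1
  have hmL : 0 < PW.mZ (2 ^ L) := mlow_M.pos L
  have hn0 : (0 : ℝ) < n := lt_of_lt_of_le (mlow_M.pos _) hn1
  have hxy : (0 : ℝ) < (y : ℝ) - x := by
    have : (x : ℝ) < y := by exact_mod_cast h3
    linarith
  obtain ⟨dir, h6⟩ := hn_lvl (le_refl (hn (vx oo up t y - vx oo up t x)))
  refine ⟨h1, dir, x, y, h3, by omega, ?_⟩
  have h7 : dW t x y ≤ 2 * |((lvl dir (vx oo up t y) - lvl dir (vx oo up t x) : ℤ) : ℝ)| := by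
    unfold dW
    have h8 : ((hn (vx oo up t y - vx oo up t x) : ℤ) : ℝ) ≤ 2 * |((lvl dir (vx oo up t y - vx oo up t x) : ℤ) : ℝ)| := by
      rw [← Int.cast_abs]
      exact_mod_cast h6
    rwa [NTF.lvl_sub] at h8
  have h9 : PW.mZ (2 ^ L) ≤ Cu ^ a1 * n := by
    have := m_iter hCu hup' (L - a1) a1
    rw [show L - a1 + a1 = L by omega] at this
    refine this.trans (mul_le_mul_of_nonneg_left ?_ (by positivity))
    exact (m_mono (L - a1) i).trans hn1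
  have h10 : (((y : ℝ) - x) / n) ^ α ≤ (Cu ^ a1) ^ α * (((y : ℝ) - x) / PW.mZ (2 ^ L)) ^ α := by
    rw [← Real.mul_rpow (by positivity) (by positivity)]
    refine Real.rpow_le_rpow (by positivity) ?_ hα.le
    rw [← mul_div_assoc, div_le_div_iff₀ hn0 hmL]
    have := mul_le_mul_of_nonneg_left h9 hxy.le
    linarith
  have h11 : (2 : ℝ) ^ (L - a1 + i) ≤ 2 ^ a0 * 2 ^ L := by
    rw [← pow_add]
    exact pow_le_pow_right₀ (by norm_num) (by omega)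
  have h12 : 0 ≤ (((y : ℝ) - x) / PW.mZ (2 ^ L)) ^ α := by positivity
  have h13 : M1 * 2 ^ (L - a1 + i) * (((y : ℝ) - x) / n) ^ α ≤
      M1 * (2 ^ a0 * 2 ^ L) * ((Cu ^ a1) ^ α * (((y : ℝ) - x) / PW.mZ (2 ^ L)) ^ α) :=
    mul_le_mul (mul_le_mul_of_nonneg_left h11 hM1.le) h10 (by positivity) (by positivity)
  have h14 : M * 2 ^ L * (((y : ℝ) - x) / PW.mZ (2 ^ L)) ^ α =
      2 * (M1 * (2 ^ a0 * 2 ^ L) * ((Cu ^ a1) ^ α * (((y : ℝ) - x) / PW.mZ (2 ^ L)) ^ α)) := by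
    rw [hM]
    ring
  rw [h14] at h5
  linarith

end SSI

end HexObs
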