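import Mathlib
import Pool.Agent.Tight.Inst

/-!
# SSI, row S4 (helper69): magnified windows of curves, averages over places and scales, invariance of the limits

* `zo x κ γ` : the window of `γ` of length `κ` behind `x`, magnified by `κ ^ (-3/4)`; `zo_zo`: windows of windows;
* `SI μ Λ` : the law of `zo x (exp (-v)) γ`, `γ` of law `μ`, `v` uniform in `[0, Λ]`, `x` uniform in `[0, 1]`;
* **`si_inv`** : for every weak limit `M` of `SI (μ k) (Λ k)`, `Λ k → ∞`, and `0 ≤ s`, `0 < c`, `s + c ≤ 1`: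
  `M.map (zo s c) = M`, that is self-similarity with the exponent `3 / 4` and stationary increments.
-/

set_option autoImplicit false

open Set Filter Topology MeasureTheory
open scoped ENNReal

namespace Pool.Agent.SSI

/-- curves -/
abbrev CI : Type := C(unitInterval, ℂ)

/-- the window of the curve of length `κ` behind `x`, magnified -/
noncomputable def zo (x κ : ℝ) (γ : CI) : CI where
  toFun t := ((κ ^ (-(3 / 4) : ℝ) : ℝ) : ℂ) * (γ (projIcc 0 1 zero_le_one (x + κ * t)) - γ (projIcc 0 1 zero_le_one x))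
  continuous_toFun := by
    have h1 : Continuous fun t : unitInterval => projIcc (0 : ℝ) 1 zero_le_one (x + κ * t) :=
      continuous_projIcc.comp (by fun_prop)
    exact continuous_const.mul ((γ.continuous.comp h1).sub continuous_const)

lemma zo_apply (x κ : ℝ) (γ : CI) (t : unitInterval) : zo x κ γ t =
    ((κ ^ (-(3 / 4) : ℝ) : ℝ) : ℂ) * (γ (projIcc 0 1 zero_le_one (x + κ * t)) - γ (projIcc 0 1 zero_le_one x)) := rfl

/-- windows of windows -/
theorem zo_zo {x κ s c : ℝ} (hκ : 0 < κ) (hs : 0 ≤ s) (hc : 0 < c) (hsc : s + c ≤ 1) (γ : CI) :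
    zo s c (zo x κ γ) = zo (x + κ * s) (κ * c) γ := by
  ext t
  have ht0 : (0 : ℝ) ≤ t := t.2.1
  have ht1 : (t : ℝ) ≤ 1 := t.2.2
  have hct : c * t ≤ c := mul_le_of_le_one_right hc.le ht1
  have hct0 : 0 ≤ c * t := by positivity
  have e1 : ((projIcc (0 : ℝ) 1 zero_le_one (s + c * t) : unitInterval) : ℝ) = s + c * t := by
    rw [projIcc_of_mem zero_le_one (⟨by linarith, by linarith⟩ : s + c * t ∈ Icc (0 : ℝ) 1)]
  have e2 : ((projIcc (0 : ℝ) 1 zero_le_one s : unitInterval) : ℝ) = s := by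
    rw [projIcc_of_mem zero_le_one (⟨hs, by linarith⟩ : s ∈ Icc (0 : ℝ) 1)]
  rw [zo_apply, zo_apply, zo_apply, zo_apply, e1, e2]
  have e3 : (κ * c) ^ (-(3 / 4) : ℝ) = κ ^ (-(3 / 4) : ℝ) * c ^ (-(3 / 4) : ℝ) := Real.mul_rpow hκ.le hc.le
  have e4 : x + κ * (s + c * t) = x + κ * s + κ * c * t := by ring
  rw [e3, e4]
  push_cast
  ring

lemma zo_cont : Continuous fun p : CI × (ℝ × ℝ) => zo p.2.2 (Real.exp (-p.2.1)) p.1 := by
  refine ContinuousMap.continuous_of_continuous_uncurry _ ?_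
  have h1 : Continuous fun q : (CI × (ℝ × ℝ)) × unitInterval =>
      q.1.1 (projIcc 0 1 zero_le_one (q.1.2.2 + Real.exp (-q.1.2.1) * q.2)) := by
    have h2 : Continuous fun q : (CI × (ℝ × ℝ)) × unitInterval =>
        projIcc (0 : ℝ) 1 zero_le_one (q.1.2.2 + Real.exp (-q.1.2.1) * q.2) := continuous_projIcc.comp (by fun_prop)
    exact (show Continuous fun q : (CI × (ℝ × ℝ)) × unitInterval => q.1.1 from by fun_prop).eval h2
  have h3 : Continuous fun q : (CI × (ℝ × ℝ)) × unitInterval => q.1.1 (projIcc 0 1 zero_le_one q.1.2.2) := by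
    have h2 : Continuous fun q : (CI × (ℝ × ℝ)) × unitInterval =>
        projIcc (0 : ℝ) 1 zero_le_one q.1.2.2 := continuous_projIcc.comp (by fun_prop)
    exact (show Continuous fun q : (CI × (ℝ × ℝ)) × unitInterval => q.1.1 from by fun_prop).eval h2
  have h4 : Continuous fun q : (CI × (ℝ × ℝ)) × unitInterval =>
      ((Real.exp (-q.1.2.1) ^ (-(3 / 4) : ℝ) : ℝ) : ℂ) := by
    refine Complex.continuous_ofReal.comp ?_
    refine Continuous.rpow_const (by fun_prop) fun q => Or.inl (Real.exp_pos _).ne'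
  exact h4.mul (h1.sub h3)

lemma zo_cont1 (s c : ℝ) : Continuous (zo s c) := by
  refine ContinuousMap.continuous_of_continuous_uncurry _ ?_
  have h1 : Continuous fun q : CI × unitInterval => q.1 (projIcc 0 1 zero_le_one (s + c * q.2)) := by
    have h2 : Continuous fun q : CI × unitInterval => projIcc (0 : ℝ) 1 zero_le_one (s + c * q.2) :=
      continuous_projIcc.comp (by fun_prop)
    exact (show Continuous fun q : CI × unitInterval => q.1 from by fun_prop).eval h2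
  have h3 : Continuous fun q : CI × unitInterval => q.1 (projIcc 0 1 zero_le_one s) := by fun_prop
  exact continuous_const.mul (h1.sub h3)

/-- the places and the scales -/
noncomputable def pl (Λ : ℝ) : Measure (ℝ × ℝ) := (volume.restrict (Ioc 0 Λ)).prod (volume.restrict (Ioc 0 1))

/-- **the law of a magnified window**, uniform place, uniform logarithm of the length -/
noncomputable def SI (μ : Measure CI) (Λ : ℝ) : Measure CI :=
  (ENNReal.ofReal Λ)⁻¹ • ((μ.prod (pl Λ)).map fun p => zo p.2.2 (Real.exp (-p.2.1)) p.1)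

section

variable {Λ : ℝ}

lemma pl_univ : pl Λ univ = ENNReal.ofReal Λ := by
  unfold pl
  rw [← univ_prod_univ, Measure.prod_prod, Measure.restrict_apply_univ, Measure.restrict_apply_univ, Real.volume_Ioc,
    Real.volume_Ioc, sub_zero, sub_zero, ENNReal.ofReal_one, mul_one]

instance : IsFiniteMeasure (pl Λ) := by
  unfold pl
  infer_instance

lemma si_prob {μ : Measure CI} [IsProbabilityMeasure μ] (hΛ : 0 < Λ) : IsProbabilityMeasure (SI μ Λ) := by
  refine ⟨?_⟩
  unfold SI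
  rw [Measure.smul_apply, Measure.map_apply zo_cont.measurable MeasurableSet.univ, preimage_univ, ← univ_prod_univ,
    Measure.prod_prod, measure_univ, one_mul, pl_univ, smul_eq_mul,
    ENNReal.inv_mul_cancel (ENNReal.ofReal_pos.2 hΛ).ne' ENNReal.ofReal_ne_top]

/-- the integrals -/
lemma si_int {μ : Measure CI} [IsProbabilityMeasure μ] (hΛ : 0 < Λ) (F : BoundedContinuousFunction CI ℝ) :
    ∫ γ, F γ ∂(SI μ Λ) = Λ⁻¹ * ∫ γ, (∫ v in (0 : ℝ)..Λ, ∫ x in (0 : ℝ)..1, F (zo x (Real.exp (-v)) γ)) ∂μ := by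
  unfold SI
  have hcont : Continuous fun p : CI × (ℝ × ℝ) => F (zo p.2.2 (Real.exp (-p.2.1)) p.1) := F.continuous.comp zo_cont
  rw [integral_smul_measure, integral_map zo_cont.measurable.aemeasurable F.continuous.aestronglyMeasurable,
    ENNReal.toReal_inv, ENNReal.toReal_ofReal hΛ.le, smul_eq_mul]
  congr 1
  have hb : ∀ p : CI × (ℝ × ℝ), ‖F (zo p.2.2 (Real.exp (-p.2.1)) p.1)‖ ≤ ‖F‖ := fun p => F.norm_coe_le_norm _
  have hint : Integrable (fun p : CI × (ℝ × ℝ) => F (zo p.2.2 (Real.exp (-p.2.1)) p.1)) (μ.prod (pl Λ)) :=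
    Integrable.of_bound hcont.aestronglyMeasurable ‖F‖ (Eventually.of_forall hb)
  rw [integral_prod _ hint]
  refine integral_congr_ae (Eventually.of_forall fun γ => ?_)
  have hcγ : Continuous fun q : ℝ × ℝ => F (zo q.2 (Real.exp (-q.1)) γ) :=
    hcont.comp (Continuous.prodMk continuous_const continuous_id)
  have hintγ : Integrable (fun q : ℝ × ℝ => F (zo q.2 (Real.exp (-q.1)) γ))
      ((volume.restrict (Ioc 0 Λ)).prod (volume.restrict (Ioc 0 1))) :=
    Integrable.of_bound hcγ.aestronglyMeasurable ‖F‖ (Eventually.of_forall fun q => F.norm_coe_le_norm _)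
  show ∫ q, F (zo q.2 (Real.exp (-q.1)) γ) ∂((volume.restrict (Ioc 0 Λ)).prod (volume.restrict (Ioc 0 1))) = _
  rw [integral_prod _ hintγ]
  show _ = ∫ v in (0 : ℝ)..Λ, ∫ x in (0 : ℝ)..1, F (zo x (Real.exp (-v)) γ)
  rw [intervalIntegral.integral_of_le hΛ.le]
  refine integral_congr_ae (Eventually.of_forall fun v => ?_)
  show ∫ x in Ioc 0 1, F (zo x (Real.exp (-v)) γ) = ∫ x in (0 : ℝ)..1, F (zo x (Real.exp (-v)) γ)
  rw [intervalIntegral.integral_of_le zero_le_one]

/-- shift of an integral over an interval -/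
lemma shift_le {g : ℝ → ℝ} (hg : Continuous g) {B : ℝ} (hB : ∀ x, ‖g x‖ ≤ B) {a T : ℝ} (ha : 0 ≤ a) :
    |(∫ x in (0 : ℝ)..T, g (x + a)) - ∫ x in (0 : ℝ)..T, g x| ≤ 2 * B * a := by
  rw [intervalIntegral.integral_comp_add_right, zero_add]
  have hi : ∀ p q : ℝ, IntervalIntegrable g volume p q := fun p q => hg.intervalIntegrable p q
  have e1 : (∫ x in a..T + a, g x) = (∫ x in a..T, g x) + ∫ x in T..T + a, g x :=
    (intervalIntegral.integral_add_adjacent_intervals (hi _ _) (hi _ _)).symm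
  have e2 : (∫ x in (0 : ℝ)..T, g x) = (∫ x in (0 : ℝ)..a, g x) + ∫ x in a..T, g x :=
    (intervalIntegral.integral_add_adjacent_intervals (hi _ _) (hi _ _)).symm
  have b1 : ‖∫ x in T..T + a, g x‖ ≤ B * |T + a - T| :=
    intervalIntegral.norm_integral_le_of_norm_le_const fun x _ => hB x
  have b2 : ‖∫ x in (0 : ℝ)..a, g x‖ ≤ B * |a - 0| :=
    intervalIntegral.norm_integral_le_of_norm_le_const fun x _ => hB x
  rw [add_sub_cancel_left, abs_of_nonneg ha, Real.norm_eq_abs] at b1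
  rw [sub_zero, abs_of_nonneg ha, Real.norm_eq_abs] at b2
  rw [e1, e2, abs_le]
  have c1 := abs_le.1 b1
  have c2 := abs_le.1 b2
  constructor <;> linarith

/-- the averages hardly change under shifts and dilations -/
lemma avg_le (F : BoundedContinuousFunction CI ℝ) (γ : CI) {s c : ℝ} (hs : 0 ≤ s) (hc : 0 < c) (hsc : s + c ≤ 1)
    (hΛ : 0 < Λ) : |(∫ v in (0 : ℝ)..Λ, ∫ x in (0 : ℝ)..1, F (zo s c (zo x (Real.exp (-v)) γ))) -
      ∫ v in (0 : ℝ)..Λ, ∫ x in (0 : ℝ)..1, F (zo x (Real.exp (-v)) γ)| ≤ 2 * ‖F‖ * (1 + Real.log (1 / c)) := by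
  have hc1 : c ≤ 1 := by linarith
  have hs1 : s ≤ 1 := by linarith
  obtain ⟨b, hb⟩ : ∃ b, b = Real.log (1 / c) := ⟨_, rfl⟩
  have hb0 : 0 ≤ b := by
    rw [hb]
    exact Real.log_nonneg (one_le_one_div hc hc1)
  have hcb : Real.exp (-b) = c := by
    rw [hb, Real.log_div one_ne_zero hc.ne', Real.log_one, zero_sub, neg_neg, Real.exp_log hc]
  have hcont : Continuous fun p : CI × (ℝ × ℝ) => F (zo p.2.2 (Real.exp (-p.2.1)) p.1) := F.continuous.comp zo_cont
  obtain ⟨G, hG⟩ : ∃ G : ℝ → ℝ → ℝ, G = fun v x => F (zo x (Real.exp (-v)) γ) := ⟨_, rfl⟩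
  have hGc : Continuous fun q : ℝ × ℝ => G q.1 q.2 := by
    rw [hG]
    exact hcont.comp (Continuous.prodMk continuous_const continuous_id)
  have hGb : ∀ v x, ‖G v x‖ ≤ ‖F‖ := fun v x => by
    rw [hG]
    exact F.norm_coe_le_norm _
  have e1 : ∀ v x, F (zo s c (zo x (Real.exp (-v)) γ)) = G (v + b) (x + Real.exp (-v) * s) := by
    intro v x
    rw [zo_zo (Real.exp_pos _) hs hc hsc, hG]
    simp only
    rw [neg_add, Real.exp_add, hcb]
  have hgi : Continuous fun v => ∫ x in (0 : ℝ)..1, G v x :=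
    intervalIntegral.continuous_parametric_intervalIntegral_of_continuous' (f := G) hGc 0 1
  have hgib : ∀ v, ‖∫ x in (0 : ℝ)..1, G v x‖ ≤ ‖F‖ := fun v => by
    have h1 : ‖∫ x in (0 : ℝ)..1, G v x‖ ≤ ‖F‖ * |1 - 0| :=
      intervalIntegral.norm_integral_le_of_norm_le_const fun x _ => hGb v x
    rwa [sub_zero, abs_one, mul_one] at h1
  -- the places
  have h1 : ∀ v, |(∫ x in (0 : ℝ)..1, G (v + b) (x + Real.exp (-v) * s)) - ∫ x in (0 : ℝ)..1, G (v + b) x| ≤
      2 * ‖F‖ * Real.exp (-v) := by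
    intro v
    have h2 := shift_le (g := fun x => G (v + b) x) (hGc.comp (Continuous.prodMk continuous_const continuous_id))
      (hGb (v + b)) (a := Real.exp (-v) * s) (T := 1) (by positivity)
    refine h2.trans ?_
    have h3 : Real.exp (-v) * s ≤ Real.exp (-v) := mul_le_of_le_one_right (Real.exp_pos _).le hs1
    exact mul_le_mul_of_nonneg_left h3 (by positivity)
  have hc2 : Continuous fun v => ∫ x in (0 : ℝ)..1, G (v + b) (x + Real.exp (-v) * s) :=
    intervalIntegral.continuous_parametric_intervalIntegral_of_continuous'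
      (f := fun v x => G (v + b) (x + Real.exp (-v) * s))
      (hGc.comp (f := fun q : ℝ × ℝ => (q.1 + b, q.2 + Real.exp (-q.1) * s)) (by fun_prop)) 0 1
  have hc3 : Continuous fun v => ∫ x in (0 : ℝ)..1, G (v + b) x := hgi.comp (by fun_prop)
  have h4 : |(∫ v in (0 : ℝ)..Λ, ∫ x in (0 : ℝ)..1, G (v + b) (x + Real.exp (-v) * s)) -
      ∫ v in (0 : ℝ)..Λ, ∫ x in (0 : ℝ)..1, G (v + b) x| ≤ 2 * ‖F‖ := by
    rw [← intervalIntegral.integral_sub (hc2.intervalIntegrable _ _) (hc3.intervalIntegrable _ _), ← Real.norm_eq_abs]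
    have h5 : ‖∫ v in (0 : ℝ)..Λ, ((∫ x in (0 : ℝ)..1, G (v + b) (x + Real.exp (-v) * s)) -
        ∫ x in (0 : ℝ)..1, G (v + b) x)‖ ≤ ∫ v in (0 : ℝ)..Λ, 2 * ‖F‖ * Real.exp (-v) :=
      intervalIntegral.norm_integral_le_of_norm_le hΛ.le (Eventually.of_forall fun v _ => h1 v)
        ((by fun_prop : Continuous fun v : ℝ => 2 * ‖F‖ * Real.exp (-v)).intervalIntegrable _ _)
    refine h5.trans ?_
    rw [intervalIntegral.integral_const_mul, intervalIntegral.integral_comp_neg (fun v => Real.exp v), integral_exp]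
    have h6 : Real.exp (-0) - Real.exp (-Λ) ≤ 1 := by
      rw [neg_zero, Real.exp_zero]
      linarith [Real.exp_pos (-Λ)]
    calc 2 * ‖F‖ * (Real.exp (-0) - Real.exp (-Λ)) ≤ 2 * ‖F‖ * 1 := mul_le_mul_of_nonneg_left h6 (by positivity)
      _ = 2 * ‖F‖ := mul_one _
  -- the scales
  have h7 := shift_le (T := Λ) hgi hgib hb0
  have e2 : (∫ v in (0 : ℝ)..Λ, ∫ x in (0 : ℝ)..1, F (zo x (Real.exp (-v)) γ)) =
      ∫ v in (0 : ℝ)..Λ, ∫ x in (0 : ℝ)..1, G v x := by rw [hG]
  simp only [e1]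
  rw [e2, ← hb]
  have h8 := abs_le.1 h4
  have h9 := abs_le.1 h7
  rw [abs_le]
  constructor <;> linarith

end

/-- weak convergence -/
def WTo (μ : ℕ → Measure CI) (M : Measure CI) : Prop :=
  ∀ F : BoundedContinuousFunction CI ℝ, Tendsto (fun k => ∫ γ, F γ ∂(μ k)) atTop (𝓝 (∫ γ, F γ ∂M))

/-- **self-similarity and stationary increments of the limits** -/
theorem si_inv {μ : ℕ → Measure CI} (hμ : ∀ k, IsProbabilityMeasure (μ k)) {Λ : ℕ → ℝ} (hΛ : Tendsto Λ atTop atTop)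
    {M : Measure CI} (hM : IsProbabilityMeasure M) (h : WTo (fun k => SI (μ k) (Λ k)) M) {s c : ℝ} (hs : 0 ≤ s)
    (hc : 0 < c) (hsc : s + c ≤ 1) : M.map (zo s c) = M := by
  have hm : Measurable (zo s c) := (zo_cont1 s c).measurable
  have : IsProbabilityMeasure (M.map (zo s c)) := Measure.isProbabilityMeasure_map hm.aemeasurable
  refine ext_of_forall_integral_eq_of_IsFiniteMeasure fun F => ?_
  rw [integral_map hm.aemeasurable F.continuous.aestronglyMeasurable]
  have h1 := h (F.compContinuous ⟨zo s c, zo_cont1 s c⟩)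
  have h2 := h F
  have h3 : Tendsto (fun k => 2 * ‖F‖ * (1 + Real.log (1 / c)) / Λ k) atTop (𝓝 0) := tendsto_const_nhds.div_atTop hΛ
  have h4 : Tendsto (fun k => (∫ γ, (F.compContinuous ⟨zo s c, zo_cont1 s c⟩) γ ∂(SI (μ k) (Λ k))) -
      ∫ γ, F γ ∂(SI (μ k) (Λ k))) atTop (𝓝 0) := by
    refine squeeze_zero_norm' ?_ h3
    filter_upwards [hΛ.eventually_gt_atTop 0] with k hk
    have := hμ k
    rw [si_int hk, si_int hk, ← mul_sub, Real.norm_eq_abs, abs_mul, abs_of_pos (inv_pos.2 hk)]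
    have hb : ∀ (F' : BoundedContinuousFunction CI ℝ) (γ : CI),
        |∫ v in (0 : ℝ)..Λ k, ∫ x in (0 : ℝ)..1, F' (zo x (Real.exp (-v)) γ)| ≤ ‖F'‖ * Λ k := by
      intro F' γ
      have h5 : ‖∫ v in (0 : ℝ)..Λ k, ∫ x in (0 : ℝ)..1, F' (zo x (Real.exp (-v)) γ)‖ ≤ ‖F'‖ * |Λ k - 0| := by
        refine intervalIntegral.norm_integral_le_of_norm_le_const fun v _ => ?_
        have h6 : ‖∫ x in (0 : ℝ)..1, F' (zo x (Real.exp (-v)) γ)‖ ≤ ‖F'‖ * |1 - 0| :=
          intervalIntegral.norm_integral_le_of_norm_le_const fun x _ => F'.norm_coe_le_norm _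
        rwa [sub_zero, abs_one, mul_one] at h6
      rwa [sub_zero, abs_of_pos hk] at h5
    have hi : ∀ F' : BoundedContinuousFunction CI ℝ, Integrable (fun γ =>
        ∫ v in (0 : ℝ)..Λ k, ∫ x in (0 : ℝ)..1, F' (zo x (Real.exp (-v)) γ)) (μ k) := by
      intro F'
      have hcont : Continuous fun p : CI × (ℝ × ℝ) => F' (zo p.2.2 (Real.exp (-p.2.1)) p.1) :=
        F'.continuous.comp zo_cont
      have hc1 : Continuous fun q : CI × ℝ => ∫ x in (0 : ℝ)..1, F' (zo x (Real.exp (-q.2)) q.1) :=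
        intervalIntegral.continuous_parametric_intervalIntegral_of_continuous'
          (f := fun (q : CI × ℝ) x => F' (zo x (Real.exp (-q.2)) q.1))
          (hcont.comp (f := fun r : (CI × ℝ) × ℝ => (r.1.1, (r.1.2, r.2))) (by fun_prop)) 0 1
      have hc2 : Continuous fun γ : CI => ∫ v in (0 : ℝ)..Λ k, ∫ x in (0 : ℝ)..1, F' (zo x (Real.exp (-v)) γ) :=
        intervalIntegral.continuous_parametric_intervalIntegral_of_continuous'
          (f := fun (γ : CI) v => ∫ x in (0 : ℝ)..1, F' (zo x (Real.exp (-v)) γ)) hc1 0 (Λ k)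
      exact Integrable.of_bound hc2.aestronglyMeasurable (‖F'‖ * Λ k) (Eventually.of_forall fun γ => hb F' γ)
    have h8 : |(∫ γ, (∫ v in (0 : ℝ)..Λ k, ∫ x in (0 : ℝ)..1,
        (F.compContinuous ⟨zo s c, zo_cont1 s c⟩) (zo x (Real.exp (-v)) γ)) ∂(μ k)) -
        ∫ γ, (∫ v in (0 : ℝ)..Λ k, ∫ x in (0 : ℝ)..1, F (zo x (Real.exp (-v)) γ)) ∂(μ k)| ≤
        2 * ‖F‖ * (1 + Real.log (1 / c)) := by
      rw [← integral_sub (hi _) (hi _), ← Real.norm_eq_abs]
      have h9 := norm_integral_le_of_norm_le_const (μ := μ k) (C := 2 * ‖F‖ * (1 + Real.log (1 / c)))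
        (f := fun γ => (∫ v in (0 : ℝ)..Λ k, ∫ x in (0 : ℝ)..1, F (zo s c (zo x (Real.exp (-v)) γ))) -
          ∫ v in (0 : ℝ)..Λ k, ∫ x in (0 : ℝ)..1, F (zo x (Real.exp (-v)) γ))
        (Eventually.of_forall fun γ => avg_le F γ hs hc hsc hk)
      rwa [probReal_univ, mul_one] at h9
    calc (Λ k)⁻¹ * _ ≤ (Λ k)⁻¹ * (2 * ‖F‖ * (1 + Real.log (1 / c))) :=
          mul_le_mul_of_nonneg_left h8 (inv_nonneg.2 hk.le)
      _ = 2 * ‖F‖ * (1 + Real.log (1 / c)) / Λ k := (div_eq_inv_mul _ _).symm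
  have h5 := tendsto_nhds_unique (h1.sub h2) h4
  have h6 : ∫ γ, (F.compContinuous ⟨zo s c, zo_cont1 s c⟩) γ ∂M = ∫ γ, F (zo s c γ) ∂M := rfl
  rw [h6] at h5
  linarith

end Pool.Agent.SSI
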