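import Pool.Agent.NPR.StepZ

/-!
# SSI (self-similar limits): long blocks. The ends of the blocks have the small scale l, the middle has the scale L
-/

set_option autoImplicit false

namespace HexObs

namespace SSI

open Finset TS SDN TIW NTA TIP NPR

open scoped ENNReal

/-- the end of the first, small part -/
noncomputable def a1 (l : ℕ) (u : List Bool) : ℕ := s1 l (ML l) u

/-- the end of the long middle -/
noncomputable def a2 (l L : ℕ) (u : List Bool) : ℕ := stp L (ML L) u (a1 l u)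

/-- the long middle -/
noncomputable def lm (l L : ℕ) (u : List Bool) : List Bool := (u.take (a2 l L u)).drop (a1 l u)

/-- the label of the cut of a long block -/
noncomputable def lbL (κ : ℝ) (C b0 k l L : ℕ) (u : List Bool) : ℕ := lbl κ C b0 k l (u.drop (a2 l L u))

/-- the possible cuts of a long block -/
noncomputable def nxL (κ : ℝ) (C b0 k l L : ℕ) (u : List Bool) : Finset ℕ :=
  (nx κ C b0 k l (u.drop (a2 l L u))).image (a2 l L u + ·)

/-- the length of a long block -/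
noncomputable def MS (l L : ℕ) : ℕ := ML L + 4 * ML l

lemma a1_le (l : ℕ) (u : List Bool) : a1 l u ≤ ML l := NPR.s1_le (L := l) u (NPR.ML_pos l)

lemma a1_lt (l L : ℕ) (u : List Bool) : a1 l u < a2 l L u := NPR.stp_gt (L := L) u _ (NPR.ML_pos L)

lemma a2_le (l L : ℕ) (u : List Bool) : a2 l L u ≤ ML l + ML L := by
  have h1 := NPR.stp_le (L := L) u (a1 l u) (NPR.ML_pos L)
  have h2 := a1_le l u
  unfold a2
  omega

lemma card_nxL (κ : ℝ) (C b0 k l L : ℕ) (u : List Bool) : (nxL κ C b0 k l L u).card = (nx κ C b0 k l (u.drop (a2 l L u))).card :=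
  Finset.card_image_of_injective _ fun _ _ h => Nat.add_left_cancel h

/-- **one long block** -/
def StepL (κ : ℝ) (C : ℕ) : Prop := ∃ k0 b00 : ℕ, 1 ≤ k0 ∧ 1 ≤ b00 ∧ ∀ k b0 l L : ℕ, k0 ≤ k → b00 ≤ b0 → b0 + k ≤ l →
  l ≤ L → ∀ u : List Bool, u ∈ SA → MS l L < u.length →
    uw κ (lbL κ C b0 k l L u) ≤ ((nxL κ C b0 k l L u).card : ℝ) ∧ lbL κ C b0 k l L u + k ≤ l ∧
    (lbL κ C b0 k l L u = 0 ∨ b0 ≤ lbL κ C b0 k l L u) ∧
    ∀ j ∈ nxL κ C b0 k l L u, 1 ≤ j ∧ a2 l L u ≤ j ∧ j ≤ MS l L ∧ j ≤ a2 l L u + 3 * ML l ∧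
      ∃ f' f'' : Bool, (f' = false ∧ f'' = false ∧ lbL κ C b0 k l L u + k = l ∨ f' = !f'' ∧ lbL κ C b0 k l L u + k < l) ∧
        u.drop j ∈ StB (κ / 4) κ C (4 * C) b0 l (lbL κ C b0 k l L u) f'' ∧
        (∀ (b : ℕ) (f : Bool), u ∈ StB (κ / 4) κ C (4 * C) b0 l b f →
          u.take j ∈ PC (κ / 4) (4 * C) (L + 4) b (lbL κ C b0 k l L u) ∧
          (f = true → u.take j ∈ PFS (κ / 4) κ C (4 * C) b0 l (L + 4) b (lbL κ C b0 k l L u)) ∧
          (f' = true → u.take j ∈ PFE (κ / 4) κ C (4 * C) b0 l (L + 4) b (lbL κ C b0 k l L u)) ∧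
          ∀ QQ, lm l L u ∈ QQ → u.take j ∈ PCQ (κ / 4) (4 * C) (L + 4) b (lbL κ C b0 k l L u) QQ) ∧
        ∀ (K : ℕ) (A : List Bool), A ++ u ∈ WL K → A ++ u.take j ∈ PC (κ / 4) (4 * C) K 0 (lbL κ C b0 k l L u) ∧
          (f' = true → A ++ u.take j ∈ PFE (κ / 4) κ C (4 * C) b0 l K 0 (lbL κ C b0 k l L u))

lemma SA_drop' {u : List Bool} (h : u ∈ SA) (a : ℕ) : u.drop a ∈ SA := SA_drop h a

/-- the vertices of a long block -/
lemma hn_blk {l L : ℕ} (hl : l ≤ L) {u : List Bool} (hu : a2 l L u ≤ u.length) {i : ℕ}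
    (hi : i ≤ a2 l L u + s3 l (ML l) (u.drop (a2 l L u))) : hn (vx oo up u i) ≤ 2 ^ (L + 4) := by
  have p1 : (2 : ℤ) ^ l ≤ 2 ^ L := pow_le_pow_right₀ (by norm_num) hl
  have p2 : (1 : ℤ) ≤ 2 ^ l := one_le_pow₀ (by norm_num)
  have p3 : (2 : ℤ) ^ (L + 4) = 16 * 2 ^ L := by ring
  have h1 : hn (vx oo up u (a1 l u)) ≤ 2 ^ l + 1 := NPR.hn_s1 u (NPR.ML_pos l) le_rfl
  rcases Nat.lt_or_ge (a1 l u) i with hi1 | hi1
  · have h2 : ∀ m, a1 l u ≤ m → m ≤ a2 l L u → hn (vx oo up u m) ≤ 2 ^ l + 1 + (2 ^ L + 1) := by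
      intro m hm1 hm2
      have h3 := NPR.hn_stp (L := L) u (a1 l u) (NPR.ML_pos L) hm1 hm2
      have h4 := hn_add (vx oo up u m - vx oo up u (a1 l u)) (vx oo up u (a1 l u))
      rw [sub_add_cancel] at h4
      linarith
    rcases Nat.lt_or_ge (a2 l L u) i with hi2 | hi2
    · obtain ⟨m, rfl⟩ : ∃ m, i = a2 l L u + m := ⟨i - a2 l L u, by omega⟩
      have h3 := NPR.hn_s3 (L := l) (u.drop (a2 l L u)) (NPR.ML_pos l) (i := m) (by omega)
      have h4 := NPR.hn_cut u hu m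
      have h5 := hn_add (vx oo up u (a2 l L u + m) - vx oo up u (a2 l L u)) (vx oo up u (a2 l L u))
      rw [sub_add_cancel, h4] at h5
      have h6 := h2 (a2 l L u) (a1_lt l L u).le le_rfl
      linarith
    · have := h2 i hi1.le hi2
      linarith
  · have h3 := NPR.hn_s1 (L := l) u (NPR.ML_pos l) (i := i) hi1
    linarith

theorem stepL_of {κ : ℝ} {C : ℕ} (h : StepG κ C) : StepL κ C := by
  classical
  obtain ⟨k0, b00, hk0, hb00, h⟩ := h
  refine ⟨k0, b00, hk0, hb00, fun k b0 l L hk hb0 hbl hlL u hu hul => ?_⟩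
  have hMS : MS l L = ML L + 4 * ML l := rfl
  have h2 := a2_le l L u
  obtain ⟨v, hv⟩ : ∃ v, v = u.drop (a2 l L u) := ⟨_, rfl⟩
  have hvl : v.length = u.length - a2 l L u := by rw [hv, List.length_drop]
  have hvS : v ∈ SA := hv ▸ SA_drop' hu _
  obtain ⟨g1, g2, g3, g4⟩ := h k b0 l hk hb0 hbl v hvS (by omega)
  have elb : lbL κ C b0 k l L u = lbl κ C b0 k l v := by rw [hv]; rfl
  rw [elb]
  refine ⟨by rw [card_nxL, ← hv]; exact g1, g2, g3, fun j hj => ?_⟩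
  obtain ⟨j', hj', rfl⟩ := Finset.mem_image.1 hj
  rw [← hv] at hj'
  obtain ⟨q1, q2, q3, q4, f', f'', hff, hst, hpc, hK⟩ := g4 j' hj'
  have hs3 : s3 l (ML l) v ≤ 3 * ML l := q4
  have hjv : j' ≤ v.length := by omega
  have ha2u : a2 l L u ≤ u.length := by omega
  have edrop : u.drop (a2 l L u + j') = v.drop j' := by rw [hv, List.drop_drop]
  have etake : u.take (a2 l L u + j') = u.take (a2 l L u) ++ v.take j' := by rw [hv, List.take_add]
  have hWL : u.take (a2 l L u + j') ∈ WL (L + 4) := by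
    refine ⟨St.SA_take hu _, fun i hi dir => ?_⟩
    rw [List.length_take] at hi
    rw [NPR.vx_take u _ (by omega) (by omega)]
    refine (NPR.row_le dir _).trans (hn_blk hlL ha2u ?_)
    rw [← hv]
    omega
  have hlm : u.take (a2 l L u) = u.take (a1 l u) ++ lm l L u := by
    unfold lm
    have h5 := List.take_append_drop (a1 l u) (u.take (a2 l L u))
    rw [List.take_take, min_eq_left (a1_lt l L u).le] at h5
    exact h5.symm
  have hv0 : v ∈ StB (κ / 4) κ C (4 * C) b0 l 0 false := by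
    refine ⟨[], St.GS_nil, List.nil_prefix, fun h => ?_⟩
    exact absurd h (by decide)
  obtain ⟨p1, -, p3, -⟩ := hpc 0 false hv0
  have hnil : ∀ S ∈ GS (κ / 4) (4 * C) 0, S = [] := by
    intro S hS
    have : S ∈ {S : List Bool | if (0 : ℕ) = 0 then S = [] else ∃ N Z3, S = N ++ Z3 ∧ N ∈ BU ∧ Z3 ∈ BU ∧ hgt N ≤ 2 ^ 0 ∧
      2 ^ (0 + 1) ≤ hgt Z3 ∧ κ / 4 * Ub 0 ≤ (nc N : ℝ) ∧ In (4 * C * 2 ^ 0) S} := hS
    rw [Set.mem_ofPred_eq, if_pos rfl] at this
    exact this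
  refine ⟨by omega, by omega, by omega, by omega, f', f'', hff, edrop ▸ hst, fun b f hub => ?_, fun K A hA => ?_⟩
  · obtain ⟨S, hS, ⟨X, hX⟩, hfl⟩ := hub
    have hX' : u.take (a1 l u) = S ++ X := hX.symm
    obtain ⟨-, S0, hS0, R0, T, hT, hR0⟩ := p1
    rw [hnil S0 hS0, List.nil_append] at hR0
    have hp : u.take (a2 l L u + j') = S ++ (X ++ (lm l L u ++ (R0 ++ T))) := by
      rw [etake, hlm, hX', hR0]
      simp only [List.append_assoc]
    refine ⟨⟨hWL, S, hS, X ++ (lm l L u ++ R0), T, hT, ?_⟩, fun hf => ?_, fun hf' => ?_, fun QQ hQ => ?_⟩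
    · rw [hp]
      simp only [List.append_assoc]
    · obtain ⟨Q, hQ, ⟨R', hR'⟩, ⟨Y, hY⟩⟩ := hfl hf
      refine ⟨hWL, T, hT, Y ++ (lm l L u ++ R0), Q, hQ, ?_, S, hS, R', hR'.symm⟩
      have hY' : u.take (a1 l u) = Q ++ Y := hY.symm
      rw [etake, hlm, hY', hR0]
      simp only [List.append_assoc]
    · obtain ⟨-, S1, hS1, R1, Q, hQ, hR1, R', T', hT', hQe⟩ := p3 hf'
      rw [hnil S1 hS1, List.nil_append] at hR1
      refine ⟨hWL, S, hS, X ++ (lm l L u ++ R1), Q, hQ, ?_, R', T', hT', hQe⟩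
      rw [etake, hlm, hX', hR1]
      simp only [List.append_assoc]
    · exact ⟨hWL, S, hS, X, lm l L u, hQ, R0, T, hT, hp⟩
  · have hA' : (A ++ u.take (a2 l L u)) ++ v ∈ WL K := by
      rw [List.append_assoc, hv, List.take_append_drop]
      exact hA
    have h6 := hK K _ hA'
    rw [List.append_assoc, ← etake] at h6
    exact h6

theorem stepL {κ : ℝ} (hκ : 0 < κ) (C : ℕ) : StepL κ C := stepL_of (stepG hκ C)

end SSI

end HexObs
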