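import Pool.Agent.SSI.Rt
import Pool.Agent.NPR.RevN

/-!
# SSI (self-similar limits): the transfer principle, proof
-/

set_option autoImplicit false

namespace HexObs

namespace SSI

open Finset TS SDN TIW NTA TIP NPR

open scoped ENNReal

/-- a chain is not short -/
lemma numT {b m G c1 J T0 Cm : ℝ} (hb : 0 < b) (hm : 0 < m) (hmG : m ≤ G) (hmb : b + 1 ≤ m) (hJ : 1 ≤ J)
    (hc : 0 < c1) (hc14 : c1 ≤ 1 / 4) (hcb : b * c1 * (128 * Cm) ≤ 1 / 4) (hG2 : G ≤ 128 * Cm * m)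
    (hT : T0 ≤ c1 * J * G + 1) : b * T0 + m * (T0 / G) < m * (1 + J) := by
  have hG : 0 < G := lt_of_lt_of_le hm hmG
  have hJ0 : 0 < J := by linarith
  have h1 : T0 / G ≤ c1 * J + 1 / G := by
    rw [div_le_iff₀ hG, add_mul, one_div, inv_mul_cancel₀ hG.ne']
    exact hT
  have h2 : b * (c1 * J * G) ≤ m * J / 4 := by
    calc b * (c1 * J * G) ≤ b * (c1 * J * (128 * Cm * m)) := by gcongr
      _ = (b * c1 * (128 * Cm)) * (J * m) := by ring
      _ ≤ 1 / 4 * (J * m) := mul_le_mul_of_nonneg_right hcb (by positivity)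
      _ = _ := by ring
  have h3 : m * (T0 / G) ≤ m * (c1 * J + 1 / G) := mul_le_mul_of_nonneg_left h1 hm.le
  have h3' : m * (1 / G) ≤ 1 := by
    rw [mul_one_div, div_le_one hG]
    exact hmG
  have h4 : b * T0 ≤ b * (c1 * J * G + 1) := mul_le_mul_of_nonneg_left hT hb.le
  have h5 : m * (c1 * J) ≤ m * J / 4 := by
    have : c1 * (m * J) ≤ 1 / 4 * (m * J) := mul_le_mul_of_nonneg_right hc14 (by positivity)
    linarith
  have h6 : 0 < m * J := by positivity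
  have e1 : m * (c1 * J + 1 / G) = m * (c1 * J) + m * (1 / G) := by ring
  have e2 : b * (c1 * J * G + 1) = b * (c1 * J * G) + b := by ring
  have e3 : m * (1 + J) = m + m * J := by ring
  rw [e1] at h3
  rw [e2] at h4
  rw [e3]
  linarith

/-- the density of a chain is small -/
lemma numS {ε c1 J G Z θ H Ml MSr q T0 : ℝ} (hε : 0 < ε) (hc : 0 < c1) (hJ : 0 < J) (hG : 0 < G) (hZG : Z ≤ G)
    (hA : 4 ≤ J * (ε * c1)) (hMl : Ml ≤ ε * c1 / 16 * G) (hθ : θ = ε * c1 / 4) (hH : H ≤ θ * Z) (hq : 1 ≤ q)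
    (hq0 : 20 / (ε * c1) ≤ q) (hMS : MSr ≤ 5 * G) (hT : c1 * J * G ≤ T0) :
    G + (J * (4 * Ml + H) + J / q * MSr) ≤ ε * T0 := by
  have hεc : 0 < ε * c1 := by positivity
  have h1 : G ≤ ε / 4 * (c1 * J * G) := by
    have h2 : 4 * G ≤ J * (ε * c1) * G := mul_le_mul_of_nonneg_right hA hG.le
    have e : ε / 4 * (c1 * J * G) = J * (ε * c1) * G / 4 := by ring
    rw [e]
    linarith
  have h2 : J * (4 * Ml) ≤ ε / 4 * (c1 * J * G) := by
    calc J * (4 * Ml) ≤ J * (4 * (ε * c1 / 16 * G)) := by gcongr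
      _ = _ := by ring
  have h3 : J * H ≤ ε / 4 * (c1 * J * G) := by
    calc J * H ≤ J * (ε * c1 / 4 * G) := by
          refine mul_le_mul_of_nonneg_left (hH.trans ?_) hJ.le
          rw [hθ]
          exact mul_le_mul_of_nonneg_left hZG (by positivity)
      _ = _ := by ring
  have hqp : 0 < q := by linarith
  have h4 : J / q * MSr ≤ ε / 4 * (c1 * J * G) := by
    have h5 : 1 / q ≤ ε * c1 / 20 := by
      rw [div_le_div_iff₀ hqp (by norm_num)]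
      rw [div_le_iff₀ hεc] at hq0
      linarith
    have h6 : J / q * MSr ≤ J / q * (5 * G) := mul_le_mul_of_nonneg_left hMS (by positivity)
    have h7 : J * (1 / q) * (5 * G) ≤ J * (ε * c1 / 20) * (5 * G) := by gcongr
    have e : J / q * (5 * G) = J * (1 / q) * (5 * G) := by ring
    have e2 : J * (ε * c1 / 20) * (5 * G) = ε / 4 * (c1 * J * G) := by ring
    rw [e] at h6
    rw [e2] at h7
    exact h6.trans h7
  have h5 : ε * (c1 * J * G) ≤ ε * T0 := mul_le_mul_of_nonneg_left hT hε.le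
  have h6 : J * (4 * Ml + H) = J * (4 * Ml) + J * H := by ring
  rw [h6]
  linarith

/-- the last stretch -/
lemma numW {ε w0 J G MSr W : ℝ} (hJ : 1 ≤ J) (hG : 0 < G) (hw : 11 ≤ w0 * ε) (hMS : MSr ≤ 5 * G) (hW : W = w0 * J * G) :
    G + MSr * (J + 1) ≤ ε * W := by
  have h4 : MSr * (J + 1) ≤ 5 * G * (J + 1) := mul_le_mul_of_nonneg_right hMS (by linarith)
  have h6 : G ≤ J * G := by nlinarith
  have h7 : 11 * (J * G) ≤ w0 * ε * (J * G) := mul_le_mul_of_nonneg_right hw (by positivity)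
  have e : ε * W = w0 * ε * (J * G) := by rw [hW]; ring
  have e2 : 5 * G * (J + 1) = 5 * (J * G) + 5 * G := by ring
  rw [e]
  linarith

/-- the bound of the least length of the functional -/
lemma numL {c1 A Cm m G mlr x F : ℝ} {a d : ℕ} (hCm : 0 < Cm) (hm : 0 < m) (hmG : m ≤ G) (hc : 0 < c1)
    (hAb : 32 * Cm * 4 ^ d / c1 ≤ A) (h1 : mlr ≤ 2 * x) (h2 : x ≤ Cm * 4 ^ (d + Nat.log 2 (a + 4)) * m) (hA : 0 ≤ A)
    (hF : F = c1 * (A * ((a : ℝ) + 1) ^ 2) * G) : mlr ≤ F := by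
  have h3 : (4 : ℝ) ^ (d + Nat.log 2 (a + 4)) ≤ 4 ^ d * (16 * ((a : ℝ) + 1) ^ 2) := by
    rw [pow_add]
    refine mul_le_mul_of_nonneg_left ?_ (by positivity)
    have h4 : 2 ^ Nat.log 2 (a + 4) ≤ a + 4 := Nat.pow_log_le_self 2 (by omega)
    have h5 : (2 : ℝ) ^ Nat.log 2 (a + 4) ≤ (a : ℝ) + 4 := by exact_mod_cast h4
    have h6 : (4 : ℝ) ^ Nat.log 2 (a + 4) = (2 ^ Nat.log 2 (a + 4)) ^ 2 := by
      rw [← pow_mul, mul_comm, pow_mul]
      norm_num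
    rw [h6]
    have h7 : (0 : ℝ) ≤ a := Nat.cast_nonneg a
    have h8 : (0 : ℝ) < 2 ^ Nat.log 2 (a + 4) := by positivity
    have h9 : (2 : ℝ) ^ Nat.log 2 (a + 4) ≤ 4 * ((a : ℝ) + 1) := by linarith
    calc ((2 : ℝ) ^ Nat.log 2 (a + 4)) ^ 2 ≤ (4 * ((a : ℝ) + 1)) ^ 2 := pow_le_pow_left₀ h8.le h9 2
      _ = _ := by ring
  have h4 : 32 * Cm * 4 ^ d ≤ A * c1 := by
    rw [div_le_iff₀ hc] at hAb
    exact hAb
  have h5 : 0 ≤ ((a : ℝ) + 1) ^ 2 := by positivity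
  calc mlr ≤ 2 * (Cm * 4 ^ (d + Nat.log 2 (a + 4)) * m) := by linarith
    _ ≤ 2 * (Cm * (4 ^ d * (16 * ((a : ℝ) + 1) ^ 2)) * m) := by gcongr
    _ = (32 * Cm * 4 ^ d) * (((a : ℝ) + 1) ^ 2 * m) := by ring
    _ ≤ (A * c1) * (((a : ℝ) + 1) ^ 2 * G) :=
      mul_le_mul h4 (mul_le_mul_of_nonneg_left hmG h5) (by positivity) (by positivity)
    _ = F := by rw [hF]; ring

/-- the probability of the union over the grid -/
lemma numB {B e0 : ℝ} {A J μ a : ℕ} (hB0 : 0 < B) (he0 : 0 < e0) (hAc : B ≤ 4 ^ A) (hAd : 2 * B ^ μ / e0 ≤ 4 ^ A)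
    (hJ : J = A * (a + 1) ^ 2) : B ^ (μ + a) / 4 ^ J ≤ e0 / 2 := by
  rw [pow_add, div_le_iff₀ (by positivity)]
  have h2 : B ^ a * (2 * B ^ μ / e0) ≤ 4 ^ J := by
    have h3 : (4 : ℝ) ^ (A * a + A) ≤ 4 ^ J := by
      refine pow_le_pow_right₀ (by norm_num) ?_
      rw [hJ, ← Nat.mul_succ]
      refine Nat.mul_le_mul_left A ?_
      have : a.succ = a + 1 := rfl
      rw [this]
      nlinarith
    refine le_trans ?_ h3
    rw [pow_add, pow_mul]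
    exact mul_le_mul (pow_le_pow_left₀ hB0.le hAc a) hAd (by positivity) (by positivity)
  have h4 := mul_le_mul_of_nonneg_left h2 (show 0 ≤ e0 / 2 by positivity)
  have h5 : e0 / 2 * (B ^ a * (2 * B ^ μ / e0)) = B ^ μ * B ^ a := by field_simp
  linarith

/-- words of the box without bad stretches -/
theorem box_stretch {κ : ℝ} {C b0 k : ℕ} (hE : ETL κ C b0 k)
    (hBd : ∀ l L : ℕ, b0 + k ≤ l → l ≤ L → Bds κ C b0 k l L) (hU : UpR) {ε : ℝ} (hε : 0 < ε) (hε1 : ε ≤ 1) {e0 : ℝ} (he0 : 0 < e0) :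
    ∃ (δ θ : ℝ) (a0 L0 A w0 : ℕ), 0 < δ ∧ 0 < θ ∧ θ ≤ ε ∧ 1 ≤ A ∧ 1 ≤ w0 ∧ ∀ (L H : ℕ) (Bq : Set (List Bool)), L0 ≤ L →
      (H : ℝ) ≤ θ * PW.mZ (2 ^ L) → gf {t | t ∈ WL (L + 16) ∧ t ∈ Fac Bq} ≤ ENNReal.ofReal δ * FK L →
      ∀ K : ℕ, L + a0 ≤ K → gf {t | t ∈ WL K ∧ t.length ≤ ML (K + 2) ∧
        t ∈ BadW H Bq (w0 * (A * (K - L + 1) ^ 2) * ML L) (2 * ε * (w0 * (A * (K - L + 1) ^ 2) * ML L : ℕ))} ≤
        ENNReal.ofReal e0 * FK K := by
  obtain ⟨b, d, hb, hU⟩ := hU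
  obtain ⟨Cm, hCm, hup⟩ := exists_mz_up
  have hCm0 : 0 < Cm := by linarith
  -- the constant c1
  obtain ⟨c1, hc1⟩ : ∃ c1 : ℝ, c1 = min (1 / 4) (1 / (512 * Cm * b)) := ⟨_, rfl⟩
  have hc10 : 0 < c1 := by rw [hc1]; exact lt_min (by norm_num) (by positivity)
  have hc14 : c1 ≤ 1 / 4 := by rw [hc1]; exact min_le_left _ _
  have hc1b : b * c1 * (128 * Cm) ≤ 1 / 4 := by
    have h1 : c1 ≤ 1 / (512 * Cm * b) := by rw [hc1]; exact min_le_right _ _
    calc b * c1 * (128 * Cm) ≤ b * (1 / (512 * Cm * b)) * (128 * Cm) := by gcongr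
      _ = 1 / 4 := by field_simp; norm_num
  have hεc : 0 < ε * c1 := by positivity
  have hεc1 : ε * c1 ≤ 1 := by
    calc ε * c1 ≤ 1 * 1 := mul_le_mul hε1 (by linarith) hc10.le (by norm_num)
      _ = 1 := one_mul 1
  -- q, μ
  obtain ⟨q, hq⟩ := exists_nat_ge (20 / (ε * c1))
  obtain ⟨μ, hμ⟩ := pow_unbounded_of_one_lt (32 / (ε * c1)) (by norm_num : (1 : ℝ) < 2)
  have hq0 : 20 / (ε * c1) ≤ q := hq
  have hq1 : 1 ≤ q := by
    have h1 : (1 : ℝ) ≤ 20 / (ε * c1) := by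
      rw [le_div_iff₀ hεc]
      linarith
    exact_mod_cast h1.trans hq
  obtain ⟨δ, B, l0, hδ, hB1, hfew⟩ := fewL hE μ q
  have hB0 : 0 < B := by linarith
  -- A
  obtain ⟨A1, hA1⟩ := exists_nat_ge (max (4 / (ε * c1)) (32 * Cm * 4 ^ d / c1))
  obtain ⟨A2, hA2⟩ := pow_unbounded_of_one_lt (max B (2 * B ^ μ / e0)) (by norm_num : (1 : ℝ) < 4)
  obtain ⟨A, hA⟩ : ∃ A : ℕ, A = A1 + A2 + 1 := ⟨_, rfl⟩
  have hAa : 4 / (ε * c1) ≤ A := by
    refine (le_max_left _ _).trans (hA1.trans ?_)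
    exact_mod_cast (show A1 ≤ A by omega)
  have hAb : 32 * Cm * 4 ^ d / c1 ≤ A := by
    refine (le_max_right _ _).trans (hA1.trans ?_)
    exact_mod_cast (show A1 ≤ A by omega)
  have hAp : (4 : ℝ) ^ A2 ≤ 4 ^ A := pow_le_pow_right₀ (by norm_num) (by omega)
  have hAc : B ≤ 4 ^ A := ((le_max_left _ _).trans hA2.le).trans hAp
  have hAd : 2 * B ^ μ / e0 ≤ 4 ^ A := ((le_max_right _ _).trans hA2.le).trans hAp
  have hA1' : 1 ≤ A := by omega
  clear hA hA1 hA2 hAp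
  -- w0
  obtain ⟨w0, hw0⟩ := exists_nat_ge (11 / ε)
  have hw1 : 1 ≤ w0 := by
    have h1 : (1 : ℝ) ≤ 11 / ε := by
      rw [le_div_iff₀ hε]
      linarith
    exact_mod_cast h1.trans hw0
  -- a0
  obtain ⟨a1, ha1⟩ := exists_pow_lt_of_lt_one (show 0 < e0 / 2 by positivity) (show (1 / 2 : ℝ) < 1 by norm_num)
  obtain ⟨a2', ha2⟩ := log_large d
  obtain ⟨b1, hb1⟩ := exists_nat_ge (b + 1)
  obtain ⟨θ, hθ⟩ : ∃ θ : ℝ, θ = ε * c1 / 4 := ⟨_, rfl⟩
  have hθ0 : 0 < θ := by rw [hθ]; positivity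
  have hθε : θ ≤ ε := by
    rw [hθ]
    have : ε * c1 ≤ ε * 1 := mul_le_mul_of_nonneg_left (by linarith) hε.le
    linarith
  refine ⟨δ, θ, a1 + a2' + 16, l0 + μ + (b0 + k) + (b1 + 5), A, w0, hδ, hθ0, hθε, hA1', hw1,
    fun L H Bq hL hH hN K hK => ?_⟩
  obtain ⟨l, hlL⟩ : ∃ l, l + μ = L := ⟨L - μ, by omega⟩
  obtain ⟨a, ha⟩ : ∃ a, K = L + a := ⟨K - L, by omega⟩
  obtain ⟨l', hl'⟩ : ∃ l', L = l' + 3 := ⟨L - 3, by omega⟩
  have haK : K - L = a := by omega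
  rw [haK]
  obtain ⟨J, hJ⟩ : ∃ J : ℕ, J = A * (a + 1) ^ 2 := ⟨_, rfl⟩
  rw [← hJ]
  have hJR : (J : ℝ) = A * ((a : ℝ) + 1) ^ 2 := by rw [hJ]; push_cast; ring
  have hAR : (0 : ℝ) ≤ A := Nat.cast_nonneg A
  have hJA : (A : ℝ) ≤ J := by
    rw [hJR]
    have h1 : (1 : ℝ) ≤ ((a : ℝ) + 1) ^ 2 := by
      have : (0 : ℝ) ≤ a := Nat.cast_nonneg a
      nlinarith
    nlinarith
  have hJ1 : (1 : ℝ) ≤ J := le_trans (by exact_mod_cast hA1') hJA
  have hJ0 : (0 : ℝ) < J := by linarith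
  -- the scale of the functional
  obtain ⟨m, hm⟩ : ∃ m, m = PW.mZ (2 ^ l') := ⟨_, rfl⟩
  have hm0 : 0 < m := by rw [hm]; exact mz_pos l'
  have hmb : b + 1 ≤ m := by
    have h1 := mz_low 0 l'
    have h2 := mz_one 0
    have h3 : (b1 : ℝ) ≤ 2 ^ l' := by
      have h4 : b1 < 2 ^ l' := lt_of_lt_of_le (Nat.lt_two_pow_self (n := b1)) (Nat.pow_le_pow_right (by norm_num) (by omega))
      exact_mod_cast h4.le
    rw [Nat.zero_add, ← hm] at h1
    have h5 : (0 : ℝ) < 2 ^ l' := by positivity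
    have h6 : (1 : ℝ) * 2 ^ l' ≤ PW.mZ (2 ^ 0) * 2 ^ l' := mul_le_mul_of_nonneg_right h2 h5.le
    linarith
  obtain ⟨G, hG⟩ : ∃ G : ℝ, G = (ML L : ℝ) := ⟨_, rfl⟩
  have hGm : m ≤ G := by
    rw [hG, hm]
    exact (mz_mono (by omega)).trans (ML_ge L)
  have hG0 : 0 < G := by linarith
  have hGZ : PW.mZ (2 ^ L) ≤ G := by rw [hG]; exact ML_ge L
  have hGup : G ≤ 128 * Cm * m := by
    have h1 := ML_le2 L
    have h2 := hup l' 3
    rw [← hl', ← hm] at h2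
    rw [hG]
    have h3 : Cm * 4 ^ 3 * m = 64 * (Cm * m) := by ring
    have h4 : 128 * Cm * m = 128 * (Cm * m) := by ring
    rw [h3] at h2
    rw [h4]
    linarith
  have hMl : (ML l : ℝ) ≤ ε * c1 / 16 * G := by
    have h1 := ML_le2 l
    have h2 := mz_low l μ
    rw [hlL] at h2
    have h3 : 0 < (2 : ℝ) ^ μ := by positivity
    have h4 : PW.mZ (2 ^ l) ≤ G / 2 ^ μ := by
      rw [le_div_iff₀ h3]
      linarith
    have h5 : 1 / (2 : ℝ) ^ μ ≤ ε * c1 / 32 := by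
      rw [div_le_div_iff₀ h3 (by norm_num)]
      have := hμ.le
      rw [div_le_iff₀ hεc] at this
      linarith
    calc (ML l : ℝ) ≤ 2 * (G / 2 ^ μ) := by linarith
      _ = 2 * G * (1 / 2 ^ μ) := by ring
      _ ≤ 2 * G * (ε * c1 / 32) := mul_le_mul_of_nonneg_left h5 (by positivity)
      _ = _ := by ring
  have hMl0 : (0 : ℝ) ≤ ML l := Nat.cast_nonneg _
  have hMSe : (MS l L : ℝ) = G + 4 * ML l := by
    rw [hG]
    unfold MS
    push_cast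
    ring
  have hMSG : (MS l L : ℝ) ≤ 5 * G := by
    have h1 : ML l ≤ ML L := ML_mono (by omega)
    have h2 : (ML l : ℝ) ≤ G := by rw [hG]; exact_mod_cast h1
    linarith
  have hMSG' : G ≤ (MS l L : ℝ) := by linarith
  clear hMSe hMl0
  -- T0
  obtain ⟨T0, hT0⟩ : ∃ T0 : ℕ, T0 = ⌈c1 * J * G⌉₊ := ⟨_, rfl⟩
  have hcJG : 0 < c1 * J * G := by positivity
  have hT1 : c1 * J * G ≤ T0 := by rw [hT0]; exact Nat.le_ceil _
  have hT2 : (T0 : ℝ) ≤ c1 * J * G + 1 := by rw [hT0]; exact (Nat.ceil_lt_add_one hcJG.le).le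
  have hT3 : 1 ≤ T0 := by rw [hT0]; exact Nat.ceil_pos.2 hcJG
  have hG1 : 1 ≤ G := by linarith
  have hTM : T0 ≤ MS l L * (J + 1) := by
    have h2 : c1 * (J * G) ≤ 1 * (J * G) := mul_le_mul_of_nonneg_right (by linarith) (by positivity)
    have h3 : G * (J + 1) ≤ MS l L * ((J : ℝ) + 1) := mul_le_mul_of_nonneg_right hMSG' (by positivity)
    have h1 : (T0 : ℝ) ≤ ((MS l L * (J + 1) : ℕ) : ℝ) := by
      push_cast
      linarith
    exact_mod_cast h1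
  -- Lm
  obtain ⟨Lm, hLm⟩ : ∃ Lm, Lm = ML (nl d K l') := ⟨_, rfl⟩
  have hnl : nl d K l' = l' + (d + Nat.log 2 (a + 4)) := by
    unfold nl
    have e : K - l' + 1 = a + 4 := by omega
    rw [e]
    omega
  have hLmT : (Lm : ℝ) ≤ c1 * J * G := by
    have h1 := ML_le2 (nl d K l')
    have h2 := hup l' (d + Nat.log 2 (a + 4))
    rw [← hnl, ← hm] at h2
    rw [← hLm] at h1
    exact numL hCm0 hm0 hGm hc10 hAb h1 h2 hAR (by rw [hJR])
  have hLT : Lm ≤ T0 := by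
    have : (Lm : ℝ) ≤ T0 := hLmT.trans hT1
    exact_mod_cast this
  -- the functional
  obtain ⟨V, hV⟩ : ∃ V, V = Pool.Agent.NPR.Vm ((2 ^ l' : ℕ) : ℝ) := ⟨_, rfl⟩
  have hAF : AF (2 ^ l') V := by
    rw [hV]
    exact Pool.Agent.NPR.af_Vm (by exact_mod_cast Nat.one_le_two_pow) le_rfl (by linarith) Nat.one_le_two_pow
  have hr2 : 2 ≤ 2 ^ l' := by
    calc 2 = 2 ^ 1 := (pow_one 2).symm
      _ ≤ 2 ^ l' := Nat.pow_le_pow_right (by norm_num) (by omega)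
  have h8r : 8 * 2 ^ l' ≤ 2 ^ L := by
    rw [hl', pow_add]
    norm_num
    omega
  have hll : l0 ≤ l := by omega
  have hKL : l + μ + 16 ≤ K := by omega
  have hgood := hfew l Bq hll (by rw [hlL]; exact hN) K J (ML (K + 2)) hKL le_rfl
  have hsc : nl d K l' ≤ K := by
    rw [hnl]
    have := ha2 a (by omega)
    omega
  have hK2 : 2 ^ l' ≤ 2 * 2 ^ l' := by omega
  have hupb := hU d le_rfl (2 ^ l') l' V hr2 hAF le_rfl hK2 K (ML (K + 2)) hsc le_rfl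
  rw [hlL] at hgood
  have hBdL : Bds κ C b0 k l L := hBd l L (by omega) (by omega)
  refine le_trans (gf_mono ?_) ((gf_union_le _ _).trans ((add_le_add hgood hupb).trans ?_))
  · rintro t ⟨t1, t2, x, t3, t4⟩
    by_contra hcon
    rw [Set.mem_union, not_or] at hcon
    obtain ⟨n1, n2⟩ := hcon
    have g1 : GoodL κ C b0 k l L Bq q J t := by
      by_contra hc
      exact n1 ⟨t1, t2, hc⟩
    have g2 : ∀ x y : ℕ, x ≤ y → y ≤ t.length → (Lm : ℝ) ≤ (y : ℝ) - x → m * V (wd t x y) ≤ b * ((y : ℝ) - x) := by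
      by_contra hc
      refine n2 ⟨t1, t2, fun h => hc ?_⟩
      rw [hLm, hm]
      exact h
    obtain ⟨W, hW⟩ : ∃ W : ℕ, W = w0 * J * ML L := ⟨_, rfl⟩
    rw [← hW] at t3 t4
    have hWR : (W : ℝ) = w0 * J * G := by rw [hW, hG]; push_cast; ring
    have hA4 : 4 ≤ J * (ε * c1) := by
      have h2 : 4 ≤ A * (ε * c1) := by
        rw [div_le_iff₀ hεc] at hAa
        exact hAa
      exact h2.trans (mul_le_mul_of_nonneg_right hJA hεc.le)
    have hT : b * T0 + m * (T0 / ML L) < m * (1 + J) := by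
      rw [← hG]
      exact numT hb hm0 hGm hmb hJ1 hc10 hc14 hc1b hGup hT2
    have hsm : (ML L : ℝ) + (J * (4 * ML l + H) + (J : ℝ) / q * MS l L) ≤ ε * T0 := by
      rw [← hG]
      exact numS hε hc10 hJ0 hG0 hGZ hA4 hMl hθ hH (by exact_mod_cast hq1) hq0 hMSG hT1
    have key := cover (H := H) hBdL hAF h8r t1.1 hq1 g1 hm0 hT3 g2 hLT hTM hT hε hsm W x (x + W)
      (by omega) (Nat.le_add_right _ _) (by omega)
    have h1 : ((x + W : ℕ) : ℝ) - x = W := by push_cast; ring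
    rw [h1] at key
    have h2 : (ML L : ℝ) + MS l L * (J + 1) ≤ ε * W := by
      rw [← hG]
      refine numW hJ1 hG0 ?_ hMSG hWR
      rw [div_le_iff₀ hε] at hw0
      exact hw0
    have h3 : (cnt H Bq t x (x + W) : ℝ) ≤ 2 * ε * W := by linarith
    exact absurd t4 (not_lt.2 h3)
  · rw [← add_mul, ← ENNReal.ofReal_add (by positivity) (by positivity)]
    refine mul_le_mul_left (ENNReal.ofReal_le_ofReal ?_) _
    have h1 : B ^ (K - l) / 4 ^ J ≤ e0 / 2 := by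
      have e1 : K - l = μ + a := by omega
      rw [e1]
      exact numB hB0 he0 hAc hAd hJ
    have h2 : ((1 / 2 : ℝ)) ^ (K - l' + 1) ≤ e0 / 2 := by
      refine le_trans (pow_le_pow_of_le_one (by norm_num) (by norm_num) (show a1 ≤ K - l' + 1 by omega)) ha1.le
    linarith

end SSI

end HexObs
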