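import Pool.Agent.SSI.RtM

/-!
# SSI (self-similar limits): the transfer principle for the uniform n-step walk
-/

set_option autoImplicit false

namespace HexObs

namespace SSI

open Finset TS SDN TIW NTA TIP NPR

open scoped ENNReal

/-- the bad stretches are short against n -/
lemma numR {e w0 A Z M n : ℝ} {j q : ℕ} (he : 0 < e) (hw : 0 ≤ w0) (hA : 0 ≤ A) (hZ : 0 < Z) (hM : M ≤ 2 * Z)
    (hj : 2 * w0 * A / e * ((j : ℝ) + q + 1) ^ 2 ≤ 2 ^ j) (hn : Z * 2 ^ j ≤ n) :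
    w0 * (A * ((j : ℝ) + q + 1) ^ 2) * M ≤ e * n := by
  have h1 : w0 * (A * ((j : ℝ) + q + 1) ^ 2) * M ≤ w0 * (A * ((j : ℝ) + q + 1) ^ 2) * (2 * Z) :=
    mul_le_mul_of_nonneg_left hM (by positivity)
  have h2 : w0 * (A * ((j : ℝ) + q + 1) ^ 2) * (2 * Z) = e * (Z * (2 * w0 * A / e * ((j : ℝ) + q + 1) ^ 2)) := by
    field_simp
  rw [h2] at h1
  refine h1.trans (mul_le_mul_of_nonneg_left ?_ he.le)
  exact (mul_le_mul_of_nonneg_left hj hZ.le).trans hn

theorem rt_of {κ : ℝ} {C b0 k : ℕ} (hE : ETL κ C b0 k)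
    (hBd : ∀ l L : ℕ, b0 + k ≤ l → l ≤ L → Bds κ C b0 k l L) (hU : UpR) : RT := by
  intro ε hε
  obtain ⟨e, he⟩ : ∃ e : ℝ, e = min ε 1 / 8 := ⟨_, rfl⟩
  have he0 : 0 < e := by
    rw [he]
    have : 0 < min ε 1 := lt_min hε one_pos
    positivity
  have he1 : 8 * e ≤ ε := by rw [he]; linarith [min_le_left ε 1]
  have he2 : 8 * e ≤ 1 := by rw [he]; linarith [min_le_right ε 1]
  obtain ⟨q, k0, e0, he00, htr⟩ := pre_of hε
  obtain ⟨δ, θ, a0, L0, A, w0, hδ, hθ, hθe, hA, hw, hbox⟩ := box_stretch hE hBd hU he0 (by linarith) he00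
  obtain ⟨c0, hc0⟩ := pow_large (2 * w0 * A / e) q
  refine ⟨δ, θ, a0 + k0 + c0, L0, hδ, hθ, fun L H Bq hL hH hB k1 n hk hsc => ?_⟩
  obtain ⟨j, hj⟩ : ∃ j, k1 = L + j := ⟨k1 - L, by omega⟩
  obtain ⟨W, hW⟩ : ∃ W : ℕ, W = w0 * (A * (k1 + q - L + 1) ^ 2) * ML L := ⟨_, rfl⟩
  have hb := hbox L H Bq hL hH hB (k1 + q) (by omega)
  rw [← hW] at hb
  have hP := htr k1 n (by omega) hsc (BadW H Bq W (2 * e * (W : ℕ))) (fun A E h => badW_app h) hb
  refine (Pn_mono fun t ht htb => ?_).trans hP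
  by_contra hcon
  have hlen : t.length = n := ht.1
  have hML1 : 1 ≤ ML L := by
    have := NPR.ML_pos L
    omega
  have hW1 : 1 ≤ W := by
    rw [hW]
    exact Nat.one_le_iff_ne_zero.2 (by positivity)
  have hZ := mz_pos L
  have hlow := mz_low L j
  rw [← hj] at hlow
  have hn : PW.mZ (2 ^ L) * 2 ^ j ≤ n := by
    rw [mul_comm]
    exact hlow.trans hsc.1
  have hWe : (W : ℝ) ≤ e * n := by
    have h1 := numR (q := q) he0 (Nat.cast_nonneg w0) (Nat.cast_nonneg A) hZ (ML_le2 L) (hc0 j (by omega)) hn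
    rw [hW]
    have e1 : k1 + q - L + 1 = j + q + 1 := by omega
    rw [e1]
    push_cast
    exact h1
  have h2j : (1 : ℝ) ≤ 2 ^ j := one_le_pow₀ (by norm_num)
  have hHe : (H : ℝ) ≤ e * n := by
    have h1 : θ * PW.mZ (2 ^ L) ≤ e * PW.mZ (2 ^ L) := mul_le_mul_of_nonneg_right hθe hZ.le
    have h2 : PW.mZ (2 ^ L) ≤ n := by
      have : PW.mZ (2 ^ L) * 1 ≤ PW.mZ (2 ^ L) * 2 ^ j := mul_le_mul_of_nonneg_left h2j hZ.le
      linarith
    have h3 : e * PW.mZ (2 ^ L) ≤ e * n := mul_le_mul_of_nonneg_left h2 he0.le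
    linarith
  have hn0 : (0 : ℝ) ≤ n := Nat.cast_nonneg n
  have hH8 : 8 * H ≤ n := by
    have h1 : ((8 * H : ℕ) : ℝ) ≤ n := by
      push_cast
      have : 8 * e * n ≤ 1 * n := mul_le_mul_of_nonneg_right he2 hn0
      linarith
    exact_mod_cast h1
  obtain ⟨J, hJ⟩ : ∃ J, J = 3 * n / 4 := ⟨_, rfl⟩
  have hHJ : H ≤ J := by omega
  have hJn : J ≤ n := by omega
  have e2 : t.take J ++ t.drop J = t := List.take_append_drop J t
  have hlt : (t.take J).length = J := by rw [List.length_take]; omega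
  have hgood : ∀ x, x + W ≤ J - H → (cnt H Bq t x (x + W) : ℝ) ≤ 2 * e * W := by
    intro x hx
    by_contra hc
    push Not at hc
    refine hcon ⟨J, by omega, x, by omega, ?_⟩
    have h1 : cnt H Bq (t.take J ++ t.drop J) x (x + W) = cnt H Bq (t.take J) x (x + W) := cnt_app (by omega)
    rw [e2] at h1
    rwa [← h1]
  have htile := cnt_tile (H := H) (Bq := Bq) (t := t) hW1 (c := 2 * e * W) (by positivity) (J - H) (J - H)
    (Nat.le_mul_of_pos_right _ (by omega)) (by omega) hgood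
  have hsplit : cnt H Bq t 0 J = cnt H Bq t 0 (J - H) + cnt H Bq t (J - H) J := cnt_add H Bq t (Nat.zero_le _) (Nat.sub_le _ _)
  have hlast := cnt_le H Bq t (J - H) J
  have hlast' : (cnt H Bq t (J - H) J : ℝ) ≤ H := by exact_mod_cast hlast.trans (by omega)
  have hW0 : (0 : ℝ) < W := by exact_mod_cast hW1
  have e3 : 2 * e * W / W * ((J - H : ℕ) : ℝ) = 2 * e * ((J - H : ℕ) : ℝ) := by field_simp
  rw [e3] at htile
  have h4 : ((J - H : ℕ) : ℝ) ≤ n := by exact_mod_cast (show J - H ≤ n by omega)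
  have h5 : 2 * e * ((J - H : ℕ) : ℝ) ≤ 2 * e * n := mul_le_mul_of_nonneg_left h4 (by positivity)
  have h6 : (cnt H Bq t 0 J : ℝ) ≤ ε * n := by
    rw [hsplit]
    push_cast
    have h7 : 8 * e * n ≤ ε * n := mul_le_mul_of_nonneg_right he1 hn0
    have h8 : 0 ≤ e * n := by positivity
    linarith
  rw [← hJ] at htb
  exact absurd htb (not_lt.2 h6)

end SSI

end HexObs
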