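import Pool.Agent.SSI.ResZ

/-!
# SSI (self-similar limits): literals of the path space rows

* `BH`, `BL`, `BP` : the open sets of the bad curves;
* `Tame` : the properties of a sequence of laws which give `SSL` for its limits;
* `TameSub`, `TameLim` : the limit theorem (no walk in it);
* `EmpDil`, `EmpShf` : the symmetries of the law of the windows of any walk;
* `EstH`, `EstL`, `EstP` : the estimates for the self-avoiding walk.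
-/

set_option autoImplicit false

open MeasureTheory Filter Topology
open scoped Classical

namespace Pool.Agent.SSI

open Res Pool.Agent.IW.Res

/-- too fast somewhere -/
def BH (M α T h : ℝ) : Set C(ℝ, ℂ) := {γ | ∃ u v : ℝ, -T ≤ u ∧ v ≤ T ∧ h ≤ v - u ∧ M * (v - u) ^ α < ‖γ v - γ u‖}

/-- too slow somewhere -/
def BL (c β T h : ℝ) : Set C(ℝ, ℂ) := {γ | ∃ u v : ℝ, -T ≤ u ∧ v ≤ T ∧ h ≤ v - u ∧ v - u ≤ 1 ∧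
  ∀ w w' : ℝ, u ≤ w → w ≤ v → u ≤ w' → w' ≤ v → ‖γ w - γ w'‖ < c * (v - u) ^ β}

/-- a near touch -/
def BP (η e T : ℝ) : Set C(ℝ, ℂ) := {γ | ∃ u w v : ℝ, -T ≤ u ∧ u ≤ w ∧ w ≤ v ∧ v ≤ T ∧ η < ‖γ w - γ u‖ ∧ η < ‖γ v - γ w‖ ∧
  ‖γ v - γ u‖ < e}

/-- tame sequences of laws -/
structure Tame (ν : ℕ → ProbabilityMeasure C(ℝ, ℂ)) : Prop where
  hol : ∀ α T ε : ℝ, 0 < α → α < 3 / 4 → 0 < T → 0 < ε → ∃ M : ℝ, 0 < M ∧ ∀ h : ℝ, 0 < h → ∀ᶠ j in atTop,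
    (ν j : Measure C(ℝ, ℂ)) (BH M α T h) ≤ ENNReal.ofReal ε
  low : ∀ β T ε : ℝ, 3 / 4 < β → 0 < T → 0 < ε → ∃ c : ℝ, 0 < c ∧ ∀ h : ℝ, 0 < h → ∀ᶠ j in atTop,
    (ν j : Measure C(ℝ, ℂ)) (BL c β T h) ≤ ENNReal.ofReal ε
  pin : ∀ η T ε : ℝ, 0 < η → 0 < T → 0 < ε → ∃ e : ℝ, 0 < e ∧ ∀ᶠ j in atTop,
    (ν j : Measure C(ℝ, ℂ)) (BP η e T) ≤ ENNReal.ofReal ε
  zero : ∀ j, ∀ᵐ γ : C(ℝ, ℂ) ∂(ν j : Measure C(ℝ, ℂ)), γ 0 = 0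
  dil : ∀ c : ℝ, 0 < c → ∀ F : BoundedContinuousFunction C(ℝ, ℂ) ℝ,
    Tendsto (fun j => ∫ γ, F (Res.dil c γ) ∂(ν j : Measure C(ℝ, ℂ)) - ∫ γ, F γ ∂(ν j : Measure C(ℝ, ℂ))) atTop (𝓝 0)
  shf : ∀ a : ℝ, ∀ F : BoundedContinuousFunction C(ℝ, ℂ) ℝ,
    Tendsto (fun j => ∫ γ, F (Res.shf a γ) ∂(ν j : Measure C(ℝ, ℂ)) - ∫ γ, F γ ∂(ν j : Measure C(ℝ, ℂ))) atTop (𝓝 0)

/-- **row T1** -/
def TameSub : Prop := ∀ ν : ℕ → ProbabilityMeasure C(ℝ, ℂ), Tame ν → ∃ ψ : ℕ → ℕ, StrictMono ψ ∧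
  ∃ μ : ProbabilityMeasure C(ℝ, ℂ), Tendsto (fun j => ν (ψ j)) atTop (𝓝 μ)

/-- **row T2** -/
def TameLim : Prop := ∀ ν : ℕ → ProbabilityMeasure C(ℝ, ℂ), Tame ν → ∀ φ : ℕ → ℕ, Tendsto φ atTop atTop →
  ∀ μ : ProbabilityMeasure C(ℝ, ℂ), Tendsto (fun j => ν (φ j)) atTop (𝓝 μ) → SSL (μ : Measure C(ℝ, ℂ))

/-- **row D1** (any walk s, self-avoiding or not) -/
def EmpDil : Prop := ∀ c : ℝ, 0 < c → ∀ F : BoundedContinuousFunction C(ℝ, ℂ) ℝ, ∀ ε : ℝ, 0 < ε → ∃ n0 : ℕ, ∀ n : ℕ, n0 ≤ n →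
  ∀ s : Fin n → Fin 3, |∫ γ, F (Res.dil c γ) ∂(emp s) - ∫ γ, F γ ∂(emp s)| ≤ ε

/-- **row D2** (any walk s, self-avoiding or not) -/
def EmpShf : Prop := ∀ a : ℝ, ∀ F : BoundedContinuousFunction C(ℝ, ℂ) ℝ, ∀ ε : ℝ, 0 < ε → ∃ n0 : ℕ, ∀ n : ℕ, n0 ≤ n →
  ∀ s : Fin n → Fin 3, |∫ γ, F (Res.shf a γ) ∂(emp s) - ∫ γ, F γ ∂(emp s)| ≤ ε

/-- **row E1** -/
def EstH : Prop := ∀ α T ε : ℝ, 0 < α → α < 3 / 4 → 0 < T → 0 < ε → ∃ M : ℝ, 0 < M ∧ ∀ h : ℝ, 0 < h → ∃ n0 : ℕ, ∀ n : ℕ,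
  n0 ≤ n → mean n (fun s => (emp s).real (BH M α T h)) ≤ ε

/-- **row E2** -/
def EstL : Prop := ∀ β T ε : ℝ, 3 / 4 < β → 0 < T → 0 < ε → ∃ c : ℝ, 0 < c ∧ ∀ h : ℝ, 0 < h → ∃ n0 : ℕ, ∀ n : ℕ,
  n0 ≤ n → mean n (fun s => (emp s).real (BL c β T h)) ≤ ε

/-- **row E3** -/
def EstP : Prop := ∀ η T ε : ℝ, 0 < η → 0 < T → 0 < ε → ∃ e : ℝ, 0 < e ∧ ∃ n0 : ℕ, ∀ n : ℕ,
  n0 ≤ n → mean n (fun s => (emp s).real (BP η e T)) ≤ ε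

end Pool.Agent.SSI
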